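import Pool.Agent.SCS.Iface

/-!
# Project SCS (architect helper40), module Contr: the contraction theorem

Let `s t` be an edge of `(S, G)` in no induced 4-cycle (`NoSq`), `Λ = ck S G s t` its link.  If the square
summable homology vanishes for `Λ` and for the contraction `(S.erase t, contract G s t)`, it vanishes
for `(S, G)`.

Proof.  `H = CG G s t` is the graph on `Option V`: `some x ~ some y` iff `G.Adj x y`, and the new vertex
`c = none` is adjacent to `some x` iff `x ≠ s`, `x ≠ t` and `x` is adjacent to `s` or to `t`.  Write `x` for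
`some x`.  `E = {x ∈ S | x ≠ s, x ≠ t, s ~ x ∨ t ~ x}`, `A = {s, t} ∪ E`, `B = S \ {s, t}`.
`A ∩ B = E`, `A ∪ B = S`, no edges between `A \ E = {s, t}` and `B \ E`; for `x ∈ A ∪ B`: `c ~ x ↔ x ∈ E`.
* `ZF H (insert c B)`: the map `some x ↦ x`, `none ↦ s` is an isomorphism onto
  `(S.erase t, contract G s t)` (`zf_image`): for `x, y ∈ B` `contract` agrees with `G`, and
  `contract.Adj s x ↔ G.Adj s x ∨ G.Adj t x` for `x ∈ B`.
* `ZF H (insert c A)`.  `E_s = {x ∈ E | s ~ x}`, `E_t = {x ∈ E | t ~ x}`, `E = E_s ∪ E_t`,
  `E_s ∩ E_t = Λ`, no edges between `E_s \ Λ` and `E_t \ Λ` (`NoSq`).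
  `ZF H Λ` by `zf_image` with `some`.
  `D_s = {s} ∪ Λ` and `D_t = {t} ∪ Λ` (cones), `D = {s, t} ∪ Λ` (cone over `D_t`): `zf_cone`.
  `M = {s, t, c} ∪ Λ` is the union of `{s, c} ∪ Λ` (`zf_susp`) and `D`, with intersection `D_s`, no edge
  between `c` and `t`: `zf_mv`.
  `P = {s, t, c} ∪ E_s` is the union of `{s, c} ∪ E_s` (`zf_susp`) and `D` with intersection `D_s`; no edges
  between `{c} ∪ (E_s \ Λ)` and `t`: `zf_mv`.
  `Q = {s, t, c} ∪ E_t` is the union of `{t, c} ∪ E_t` (`zf_susp`) and `D` with intersection `D_t`: `zf_mv`.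
  `insert c A = P ∪ Q`, `P ∩ Q = M`, no edges between `P \ Q = E_s \ Λ` and `Q \ P = E_t \ Λ`: `zf_mv`.
* `zf_csum` gives `ZF H (S.image some)`, `zf_image` with `some` gives `ZF G S`.
-/

namespace SCS

open SNG Finset

/-- The auxiliary graph. -/
def CG {V : Type} (G : SimpleGraph V) (s t : V) : SimpleGraph (Option V) where
  Adj u v := match u, v with
    | some x, some y => G.Adj x y
    | some x, none => x ≠ s ∧ x ≠ t ∧ (G.Adj s x ∨ G.Adj t x)
    | none, some x => x ≠ s ∧ x ≠ t ∧ (G.Adj s x ∨ G.Adj t x)
    | none, none => False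
  symm := ⟨by
    rintro (_ | x) (_ | y) h
    · exact h
    · exact h
    · exact h
    · exact G.adj_symm h⟩
  loopless := ⟨by
    rintro (_ | x) h
    · exact h
    · exact G.loopless.irrefl x h⟩

variable {V : Type} [DecidableEq V] {G : SimpleGraph V}

open Classical in
/-- the set with `none` iff `b` and `some x` iff `x ∈ S` and `p x` -/
private noncomputable def FS (S : Finset V) (b : Prop) (p : V → Prop) : Finset (Option V) :=
  (S.filter p).image some ∪ (if b then {none} else ∅)

private theorem mem_none {S : Finset V} {b : Prop} {p : V → Prop} : none ∈ FS S b p ↔ b := by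
  unfold FS
  by_cases h : b <;> simp [h]

private theorem mem_some {S : Finset V} {b : Prop} {p : V → Prop} {x : V} :
    some x ∈ FS S b p ↔ x ∈ S ∧ p x := by
  unfold FS
  by_cases h : b <;> simp [h]

private theorem mv_fs {H : SimpleGraph (Option V)} {S : Finset V} {b b1 b2 b3 : Prop}
    {p p1 p2 p3 : V → Prop} (h1 : ZF H (FS S b1 p1)) (h2 : ZF H (FS S b2 p2))
    (h3 : ZF H (FS S b3 p3)) (hn : NoE H (FS S b1 p1) (FS S b2 p2)) (hb3 : b3 ↔ b1 ∧ b2)
    (hp3 : ∀ x ∈ S, p3 x ↔ p1 x ∧ p2 x) (hb : b ↔ b1 ∨ b2)
    (hp : ∀ x ∈ S, p x ↔ p1 x ∨ p2 x) : ZF H (FS S b p) := by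
  have e3 : FS S b3 p3 = FS S b1 p1 ∩ FS S b2 p2 := by
    ext x
    rw [mem_inter]
    rcases x with _ | x
    · rw [mem_none, mem_none, mem_none]
      exact hb3
    · rw [mem_some, mem_some, mem_some]
      constructor
      · rintro ⟨g1, g2⟩
        exact ⟨⟨g1, ((hp3 x g1).1 g2).1⟩, ⟨g1, ((hp3 x g1).1 g2).2⟩⟩
      · rintro ⟨⟨g1, g2⟩, ⟨_, g3⟩⟩
        exact ⟨g1, (hp3 x g1).2 ⟨g2, g3⟩⟩
  have e : FS S b p = FS S b1 p1 ∪ FS S b2 p2 := by
    ext x
    rw [mem_union]
    rcases x with _ | x
    · rw [mem_none, mem_none, mem_none]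
      exact hb
    · rw [mem_some, mem_some, mem_some]
      constructor
      · rintro ⟨g1, g2⟩
        rcases (hp x g1).1 g2 with g3 | g3
        · exact Or.inl ⟨g1, g3⟩
        · exact Or.inr ⟨g1, g3⟩
      · rintro (⟨g1, g2⟩ | ⟨g1, g2⟩)
        · exact ⟨g1, (hp x g1).2 (Or.inl g2)⟩
        · exact ⟨g1, (hp x g1).2 (Or.inr g2)⟩
  rw [e3] at h3
  rw [e]
  exact zf_mv hn h1 h2 h3

private theorem cone_fs {H : SimpleGraph (Option V)} {S : Finset V} {c : V} (hcS : c ∈ S)
    {p p' : V → Prop} (h : ZF H (FS S False p)) (hc : ¬ p c)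
    (ha : ∀ y ∈ S, p y → H.Adj (some c) (some y)) (hp : ∀ x ∈ S, p' x ↔ x = c ∨ p x) :
    ZF H (FS S False p') := by
  have e : FS S False p' = insert (some c) (FS S False p) := by
    ext x
    rw [mem_insert]
    rcases x with _ | x
    · rw [mem_none, mem_none]
      simp
    · rw [mem_some, mem_some, Option.some_inj]
      constructor
      · rintro ⟨g1, g2⟩
        rcases (hp x g1).1 g2 with g3 | g3
        · exact Or.inl g3
        · exact Or.inr ⟨g1, g3⟩
      · rintro (g1 | ⟨g1, g2⟩)
        · rw [g1]
          exact ⟨hcS, (hp c hcS).2 (Or.inl rfl)⟩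
        · exact ⟨g1, (hp x g1).2 (Or.inr g2)⟩
  rw [e]
  refine zf_cone ?_ ?_ h
  · rw [mem_some]
    exact fun g => hc g.2
  · intro y hy
    rcases y with _ | y
    · exact (mem_none.1 hy).elim
    · exact ha y (mem_some.1 hy).1 (mem_some.1 hy).2

private theorem susp_fs {H : SimpleGraph (Option V)} {S : Finset V} {c : V} (hcS : c ∈ S)
    {p p' : V → Prop} (hc : ¬ p c) (hn : ¬ H.Adj (some c) none)
    (ha : ∀ y ∈ S, p y → H.Adj (some c) (some y) ∧ H.Adj none (some y))
    (hp : ∀ x ∈ S, p' x ↔ x = c ∨ p x) : ZF H (FS S True p') := by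
  have e : FS S True p' = insert (some c) (insert none (FS S False p)) := by
    ext x
    rw [mem_insert, mem_insert]
    rcases x with _ | x
    · rw [mem_none, mem_none]
      simp
    · rw [mem_some, mem_some, Option.some_inj]
      constructor
      · rintro ⟨g1, g2⟩
        rcases (hp x g1).1 g2 with g3 | g3
        · exact Or.inl g3
        · exact Or.inr (Or.inr ⟨g1, g3⟩)
      · rintro (g1 | g1 | ⟨g1, g2⟩)
        · rw [g1]
          exact ⟨hcS, (hp c hcS).2 (Or.inl rfl)⟩
        · exact (Option.some_ne_none _ g1).elim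
        · exact ⟨g1, (hp x g1).2 (Or.inr g2)⟩
  rw [e]
  refine zf_susp ?_ ?_ (Option.some_ne_none _) hn ?_
  · rw [mem_some]
    exact fun g => hc g.2
  · rw [mem_none]
    exact fun g => g
  · intro y hy
    rcases y with _ | y
    · exact (mem_none.1 hy).elim
    · exact ha y (mem_some.1 hy).1 (mem_some.1 hy).2

theorem zf_contr {S : Finset V} {s t : V} (hs : s ∈ S) (ht : t ∈ S) (hst : G.Adj s t)
    (hq : NoSq S G s t) (h1 : ZF G (ck S G s t)) (h2 : ZF (contract G s t) (S.erase t)) :
    ZF G S := by
  have hne : s ≠ t := hst.ne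
  have hss : ¬ G.Adj s s := G.loopless.irrefl s
  have htt : ¬ G.Adj t t := G.loopless.irrefl t
  have hts : G.Adj t s := hst.symm
  have cns : ¬ (CG G s t).Adj none (some s) := fun g => g.1 rfl
  have cnt : ¬ (CG G s t).Adj none (some t) := fun g => g.2.1 rfl
  have csn : ¬ (CG G s t).Adj (some s) none := fun g => g.1 rfl
  have ctn : ¬ (CG G s t).Adj (some t) none := fun g => g.2.1 rfl
  -- the link
  have hL : ZF (CG G s t) (FS S False fun x => G.Adj s x ∧ G.Adj t x) := by
    have e : FS S False (fun x => G.Adj s x ∧ G.Adj t x) = (ck S G s t).image some := by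
      ext x
      rcases x with _ | x
      · rw [mem_none]
        simp
      · rw [mem_some]
        simp [mem_ck]
    rw [e, ← zf_image (G := G) (G' := CG G s t) (S := ck S G s t) some
      (fun x _ y _ hxy => Option.some_inj.1 hxy) (fun x _ y _ => Iff.rfl)]
    exact h1
  have hDs : ZF (CG G s t) (FS S False fun x => x = s ∨ (G.Adj s x ∧ G.Adj t x)) :=
    cone_fs hs hL (fun g => hss g.1) (fun y _ g => g.1) (fun x _ => Iff.rfl)
  have hDt : ZF (CG G s t) (FS S False fun x => x = t ∨ (G.Adj s x ∧ G.Adj t x)) :=
    cone_fs ht hL (fun g => htt g.2) (fun y _ g => g.2) (fun x _ => Iff.rfl)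
  have hD : ZF (CG G s t) (FS S False fun x => x = s ∨ x = t ∨ (G.Adj s x ∧ G.Adj t x)) := by
    refine cone_fs hs hDt ?_ ?_ (fun x _ => Iff.rfl)
    · rintro (g | g)
      · exact hne g
      · exact hss g.1
    · rintro y _ (rfl | g)
      · exact hst
      · exact g.1
  have hM : ZF (CG G s t) (FS S True fun x => x = s ∨ x = t ∨ (G.Adj s x ∧ G.Adj t x)) := by
    have hk : ZF (CG G s t) (FS S True fun x => x = s ∨ (G.Adj s x ∧ G.Adj t x)) := by
      refine susp_fs hs (p := fun x => G.Adj s x ∧ G.Adj t x) (fun g => hss g.1) csn ?_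
        (fun x _ => Iff.rfl)
      intro y _ g
      exact ⟨g.1, fun e => by rw [e] at g; exact hss g.1, fun e => by rw [e] at g; exact htt g.2,
        Or.inl g.1⟩
    refine mv_fs hk hD hDs ?_ (by simp) ?_ (by simp) ?_
    · intro x hx hx' y hy hy'
      rcases y with _ | y
      · exact (mem_none.1 hy).elim
      · rw [mem_some] at hy hy'
        have hyt : y = t := by
          rcases hy.2 with g | g | g
          · exact (hy' ⟨hy.1, Or.inl g⟩).elim
          · exact g
          · exact (hy' ⟨hy.1, Or.inr g⟩).elim
        subst hyt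
        rcases x with _ | x
        · exact cnt
        · rw [mem_some] at hx hx'
          rcases hx.2 with g | g
          · exact (hx' ⟨hx.1, Or.inl g⟩).elim
          · exact (hx' ⟨hx.1, Or.inr (Or.inr g)⟩).elim
    · intro x _
      constructor
      · rintro (g | g)
        · exact ⟨Or.inl g, Or.inl g⟩
        · exact ⟨Or.inr g, Or.inr (Or.inr g)⟩
      · rintro ⟨g, _⟩
        exact g
    · intro x _
      constructor
      · exact fun g => Or.inr g
      · rintro (g | g)
        · rcases g with g | g
          · exact Or.inl g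
          · exact Or.inr (Or.inr g)
        · exact g
  have hP : ZF (CG G s t) (FS S True fun x => x = s ∨ x = t ∨
      (x ≠ s ∧ x ≠ t ∧ G.Adj s x)) := by
    have hk : ZF (CG G s t) (FS S True fun x => x = s ∨ (x ≠ s ∧ x ≠ t ∧ G.Adj s x)) := by
      refine susp_fs hs (p := fun x => x ≠ s ∧ x ≠ t ∧ G.Adj s x) (fun g => g.1 rfl) csn ?_
        (fun x _ => Iff.rfl)
      intro y _ g
      exact ⟨g.2.2, g.1, g.2.1, Or.inl g.2.2⟩
    refine mv_fs hk hD hDs ?_ (by simp) ?_ (by simp) ?_
    · intro x hx hx' y hy hy'
      rcases y with _ | y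
      · exact (mem_none.1 hy).elim
      · rw [mem_some] at hy hy'
        have hyt : y = t := by
          rcases hy.2 with g | g | g
          · exact (hy' ⟨hy.1, Or.inl g⟩).elim
          · exact g
          · refine (hy' ⟨hy.1, Or.inr ⟨?_, ?_, g.1⟩⟩).elim
            · intro e
              rw [e] at g
              exact hss g.1
            · intro e
              rw [e] at g
              exact htt g.2
        subst hyt
        rcases x with _ | x
        · exact cnt
        · rw [mem_some] at hx hx'
          rcases hx.2 with g | g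
          · exact (hx' ⟨hx.1, Or.inl g⟩).elim
          · intro k
            have k : G.Adj x y := k
            exact hx' ⟨hx.1, Or.inr (Or.inr ⟨g.2.2, k.symm⟩)⟩
    · intro x _
      constructor
      · rintro (g | g)
        · exact ⟨Or.inl g, Or.inl g⟩
        · refine ⟨Or.inr ⟨?_, ?_, g.1⟩, Or.inr (Or.inr g)⟩
          · intro e
            rw [e] at g
            exact hss g.1
          · intro e
            rw [e] at g
            exact htt g.2
      · rintro ⟨g, g'⟩
        rcases g with g | g
        · exact Or.inl g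
        · rcases g' with k | k | k
          · exact Or.inl k
          · exact (g.2.1 k).elim
          · exact Or.inr k
    · intro x _
      constructor
      · rintro (g | g | g)
        · exact Or.inl (Or.inl g)
        · exact Or.inr (Or.inr (Or.inl g))
        · exact Or.inl (Or.inr g)
      · rintro ((g | g) | (g | g | g))
        · exact Or.inl g
        · exact Or.inr (Or.inr g)
        · exact Or.inl g
        · exact Or.inr (Or.inl g)
        · refine Or.inr (Or.inr ⟨?_, ?_, g.1⟩)
          · intro e
            rw [e] at g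
            exact hss g.1
          · intro e
            rw [e] at g
            exact htt g.2
  have hQ : ZF (CG G s t) (FS S True fun x => x = s ∨ x = t ∨
      (x ≠ s ∧ x ≠ t ∧ G.Adj t x)) := by
    have hk : ZF (CG G s t) (FS S True fun x => x = t ∨ (x ≠ s ∧ x ≠ t ∧ G.Adj t x)) := by
      refine susp_fs ht (p := fun x => x ≠ s ∧ x ≠ t ∧ G.Adj t x) (fun g => g.2.1 rfl) ctn ?_
        (fun x _ => Iff.rfl)
      intro y _ g
      exact ⟨g.2.2, g.1, g.2.1, Or.inr g.2.2⟩
    refine mv_fs hk hD hDt ?_ (by simp) ?_ (by simp) ?_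
    · intro x hx hx' y hy hy'
      rcases y with _ | y
      · exact (mem_none.1 hy).elim
      · rw [mem_some] at hy hy'
        have hyt : y = s := by
          rcases hy.2 with g | g | g
          · exact g
          · exact (hy' ⟨hy.1, Or.inl g⟩).elim
          · refine (hy' ⟨hy.1, Or.inr ⟨?_, ?_, g.2⟩⟩).elim
            · intro e
              rw [e] at g
              exact hss g.1
            · intro e
              rw [e] at g
              exact htt g.2
        subst hyt
        rcases x with _ | x
        · exact cns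
        · rw [mem_some] at hx hx'
          rcases hx.2 with g | g
          · exact (hx' ⟨hx.1, Or.inr (Or.inl g)⟩).elim
          · intro k
            have k : G.Adj x y := k
            exact hx' ⟨hx.1, Or.inr (Or.inr ⟨k.symm, g.2.2⟩)⟩
    · intro x _
      constructor
      · rintro (g | g)
        · exact ⟨Or.inl g, Or.inr (Or.inl g)⟩
        · refine ⟨Or.inr ⟨?_, ?_, g.2⟩, Or.inr (Or.inr g)⟩
          · intro e
            rw [e] at g
            exact hss g.1
          · intro e
            rw [e] at g
            exact htt g.2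
      · rintro ⟨g, g'⟩
        rcases g with g | g
        · exact Or.inl g
        · rcases g' with k | k | k
          · exact (g.1 k).elim
          · exact Or.inl k
          · exact Or.inr k
    · intro x _
      constructor
      · rintro (g | g | g)
        · exact Or.inr (Or.inl g)
        · exact Or.inl (Or.inl g)
        · exact Or.inl (Or.inr g)
      · rintro ((g | g) | (g | g | g))
        · exact Or.inr (Or.inl g)
        · exact Or.inr (Or.inr g)
        · exact Or.inl g
        · exact Or.inr (Or.inl g)
        · refine Or.inr (Or.inr ⟨?_, ?_, g.2⟩)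
          · intro e
            rw [e] at g
            exact hss g.1
          · intro e
            rw [e] at g
            exact htt g.2
  have hcA : ZF (CG G s t) (FS S True fun x => x = s ∨ x = t ∨
      (x ≠ s ∧ x ≠ t ∧ (G.Adj s x ∨ G.Adj t x))) := by
    refine mv_fs hP hQ hM ?_ (by simp) ?_ (by simp) ?_
    · intro x hx hx' y hy hy'
      rcases x with _ | x
      · exact (hx' (mem_none.2 trivial)).elim
      · rcases y with _ | y
        · exact (hy' (mem_none.2 trivial)).elim
        · rw [mem_some] at hx hx' hy hy'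
          rcases hx.2 with g | g | g
          · exact (hx' ⟨hx.1, Or.inl g⟩).elim
          · exact (hx' ⟨hx.1, Or.inr (Or.inl g)⟩).elim
          · rcases hy.2 with k | k | k
            · exact (hy' ⟨hy.1, Or.inl k⟩).elim
            · exact (hy' ⟨hy.1, Or.inr (Or.inl k)⟩).elim
            · have m1 : ¬ G.Adj t x := fun m => hx' ⟨hx.1, Or.inr (Or.inr ⟨g.1, g.2.1, m⟩)⟩
              have m2 : ¬ G.Adj s y := fun m => hy' ⟨hy.1, Or.inr (Or.inr ⟨k.1, k.2.1, m⟩)⟩
              exact hq x hx.1 y hy.1 g.2.2 k.2.2 m1 m2 g.2.1 k.1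
    · intro x _
      constructor
      · rintro (g | g | g)
        · exact ⟨Or.inl g, Or.inl g⟩
        · exact ⟨Or.inr (Or.inl g), Or.inr (Or.inl g)⟩
        · have n1 : x ≠ s := by
            intro e
            rw [e] at g
            exact hss g.1
          have n2 : x ≠ t := by
            intro e
            rw [e] at g
            exact htt g.2
          exact ⟨Or.inr (Or.inr ⟨n1, n2, g.1⟩), Or.inr (Or.inr ⟨n1, n2, g.2⟩)⟩
      · rintro ⟨g, k⟩
        rcases g with g | g | g
        · exact Or.inl g
        · exact Or.inr (Or.inl g)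
        · rcases k with k | k | k
          · exact Or.inl k
          · exact Or.inr (Or.inl k)
          · exact Or.inr (Or.inr ⟨g.2.2, k.2.2⟩)
    · intro x _
      constructor
      · rintro (g | g | ⟨g1, g2, g | g⟩)
        · exact Or.inl (Or.inl g)
        · exact Or.inl (Or.inr (Or.inl g))
        · exact Or.inl (Or.inr (Or.inr ⟨g1, g2, g⟩))
        · exact Or.inr (Or.inr (Or.inr ⟨g1, g2, g⟩))
      · rintro ((g | g | g) | (g | g | g))
        · exact Or.inl g
        · exact Or.inr (Or.inl g)
        · exact Or.inr (Or.inr ⟨g.1, g.2.1, Or.inl g.2.2⟩)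
        · exact Or.inl g
        · exact Or.inr (Or.inl g)
        · exact Or.inr (Or.inr ⟨g.1, g.2.1, Or.inr g.2.2⟩)
  have hcB : ZF (CG G s t) (FS S True fun x => x ≠ s ∧ x ≠ t) := by
    have e : (FS S True fun x => x ≠ s ∧ x ≠ t).image (fun u => u.getD s) = S.erase t := by
      ext x
      rw [mem_image, mem_erase]
      constructor
      · rintro ⟨u, hu, rfl⟩
        rcases u with _ | u
        · exact ⟨hne, hs⟩
        · rw [mem_some] at hu
          exact ⟨hu.2.2, hu.1⟩
      · rintro ⟨g1, g2⟩
        by_cases g3 : x = s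
        · exact ⟨none, mem_none.2 trivial, g3.symm⟩
        · exact ⟨some x, mem_some.2 ⟨g2, g3, g1⟩, rfl⟩
    rw [zf_image (G := CG G s t) (G' := contract G s t) (S := FS S True fun x => x ≠ s ∧ x ≠ t)
      (fun u => u.getD s) ?_ ?_, e]
    · exact h2
    · rintro (_ | x) hx (_ | y) hy hxy
      · rfl
      · rw [mem_some] at hy
        exact (hy.2.1 hxy.symm).elim
      · rw [mem_some] at hx
        exact (hx.2.1 hxy).elim
      · exact congrArg some hxy
    · rintro (_ | x) hx (_ | y) hy
      · constructor
        · intro g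
          exact (g.1 rfl).elim
        · intro g
          exact g.elim
      · rw [mem_some] at hy
        constructor
        · rintro ⟨g1, g2⟩
          refine ⟨hy.2.1, hy.2.2, ?_⟩
          rcases g2 with g2 | g2 | g2
          · exact Or.inl g2
          · exact Or.inr g2.2
          · exact (hy.2.1 g2.1).elim
        · rintro ⟨g1, g2, g3⟩
          refine ⟨fun k => g1 k.symm, ?_⟩
          rcases g3 with g3 | g3
          · exact Or.inl g3
          · exact Or.inr (Or.inl ⟨rfl, g3⟩)
      · rw [mem_some] at hx
        constructor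
        · rintro ⟨g1, g2⟩
          refine ⟨hx.2.1, hx.2.2, ?_⟩
          rcases g2 with g2 | g2 | g2
          · exact Or.inl (G.adj_symm g2)
          · exact (hx.2.1 g2.1).elim
          · exact Or.inr g2.2
        · rintro ⟨g1, g2, g3⟩
          refine ⟨fun k => g1 k, ?_⟩
          rcases g3 with g3 | g3
          · exact Or.inl (G.adj_symm g3)
          · exact Or.inr (Or.inr ⟨rfl, g3⟩)
      · rw [mem_some] at hx hy
        constructor
        · rintro ⟨g1, g2⟩
          rcases g2 with g2 | g2 | g2
          · exact g2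
          · exact (hx.2.1 g2.1).elim
          · exact (hy.2.1 g2.1).elim
        · intro g
          have g : G.Adj x y := g
          exact ⟨g.ne, Or.inl g⟩
  -- the connected sum
  set pA : V → Prop := fun x => x = s ∨ x = t ∨ (x ≠ s ∧ x ≠ t ∧ (G.Adj s x ∨ G.Adj t x)) with hpA
  set pB : V → Prop := fun x => x ≠ s ∧ x ≠ t with hpB
  have eA : ∀ p : V → Prop, insert none (FS S False p) = FS S True p := by
    intro p
    ext x
    rw [mem_insert]
    rcases x with _ | x
    · rw [mem_none, mem_none]
      simp
    · rw [mem_some, mem_some]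
      simp
  have hU : ZF (CG G s t) (FS S False pA ∪ FS S False pB) := by
    refine zf_csum (c := none) ?_ ?_ ?_ ?_ ?_ ?_
    · rw [mem_none]
      exact fun g => g
    · rw [mem_none]
      exact fun g => g
    · intro x hx
      rcases x with _ | x
      · rw [mem_union, mem_none, mem_none] at hx
        rcases hx with g | g
        · exact g.elim
        · exact g.elim
      · rw [mem_union, mem_some, mem_some] at hx
        have hxS : x ∈ S := by
          rcases hx with g | g
          · exact g.1
          · exact g.1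
        rw [mem_some, mem_some]
        constructor
        · rintro ⟨g1, g2, g3⟩
          exact ⟨⟨hxS, Or.inr (Or.inr ⟨g1, g2, g3⟩)⟩, hxS, g1, g2⟩
        · rintro ⟨⟨_, g⟩, _, g1, g2⟩
          rcases g with g | g | g
          · exact (g1 g).elim
          · exact (g2 g).elim
          · exact g
    · intro x hx hx' y hy hy'
      rcases x with _ | x
      · exact (mem_none.1 hx).elim
      · rcases y with _ | y
        · exact (mem_none.1 hy).elim
        · rw [mem_some] at hx hx' hy hy'
          have n1 : ¬ G.Adj s y := fun g => hy' ⟨hy.1, Or.inr (Or.inr ⟨hy.2.1, hy.2.2, Or.inl g⟩)⟩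
          have n2 : ¬ G.Adj t y := fun g => hy' ⟨hy.1, Or.inr (Or.inr ⟨hy.2.1, hy.2.2, Or.inr g⟩)⟩
          intro k
          have k : G.Adj x y := k
          rcases hx.2 with g | g | g
          · rw [g] at k
            exact n1 k
          · rw [g] at k
            exact n2 k
          · exact hx' ⟨hx.1, g.1, g.2.1⟩
    · rw [eA]
      exact hcA
    · rw [eA]
      exact hcB
  have eU : FS S False pA ∪ FS S False pB = S.image some := by
    ext x
    rw [mem_union]
    rcases x with _ | x
    · rw [mem_none, mem_none]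
      simp
    · rw [mem_some, mem_some]
      constructor
      · rintro (g | g)
        · exact mem_image_of_mem _ g.1
        · exact mem_image_of_mem _ g.1
      · intro g
        obtain ⟨y, hy, e⟩ := mem_image.1 g
        rw [Option.some_inj] at e
        subst e
        by_cases g1 : y = s
        · exact Or.inl ⟨hy, Or.inl g1⟩
        · by_cases g2 : y = t
          · exact Or.inl ⟨hy, Or.inr (Or.inl g2)⟩
          · exact Or.inr ⟨hy, g1, g2⟩
  rw [eU] at hU
  rwa [zf_image (G := G) (G' := CG G s t) (S := S) some
      (fun x _ y _ hxy => Option.some_inj.1 hxy) (fun x _ y _ => Iff.rfl)]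

end SCS
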