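import Pool.Agent.SCS.Iface

/-!
# Project SCS (architect helper40), module PDefs: finite posets with recursively ordered maximal elements

`cg P`: comparability graph.  `Rsh Q`: the class of finite posets.  `HG`, `NN`, `KN`, `LN`: the auxiliary
graph on `P ⊕ ℕ` (`inr j` are cone vertices) used in the proof of `rsh_zf`.
-/

namespace SCS

open SNG Finset

/-- The comparability graph of a partial order. -/
def cg (P : Type) [PartialOrder P] : SimpleGraph P where
  Adj x y := x < y ∨ y < x
  symm := ⟨fun _ _ h => h.symm⟩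
  loopless := ⟨fun x h => by rcases h with h | h <;> exact lt_irrefl x h⟩

section

variable {P : Type} [PartialOrder P]

/-- `M` is the set of maximal elements of the finite poset `Q`, every other element is below two
different elements of `M`, `r` is injective on `M`. -/
structure PD (Q M : Finset P) (r : P → ℕ) : Prop where
  sub : M ⊆ Q
  max : ∀ F ∈ M, ∀ x ∈ Q, ¬ F < x
  two : ∀ x ∈ Q, x ∉ M → ∃ F ∈ M, ∃ F' ∈ M, F ≠ F' ∧ x < F ∧ x < F'
  inj : ∀ F ∈ M, ∀ F' ∈ M, r F = r F' → F = F'

open Classical in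
/-- The elements below `F`, below an earlier and below a later element of `M`. -/
noncomputable def TT (Q M : Finset P) (r : P → ℕ) (F : P) : Finset P :=
  Q.filter fun x => x < F ∧ (∃ F' ∈ M, r F' < r F ∧ x < F') ∧ ∃ F' ∈ M, r F < r F' ∧ x < F'

/-- The class of posets. -/
inductive Rsh : Finset P → Prop
  | mk (Q M : Finset P) (r : P → ℕ) (h : PD Q M r) (h2 : 2 ≤ M.card)
      (hT : ∀ F ∈ M, (∃ F' ∈ M, r F' < r F) → (∃ F' ∈ M, r F < r F') → Rsh (TT Q M r F)) : Rsh Q

/-- The neighbours of the cone vertex `inr j`. -/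
def NN (Q M : Finset P) (r : P → ℕ) (j : ℕ) (x : P) : Prop :=
  x ∈ Q ∧ (∃ F ∈ M, r F < j ∧ x < F) ∧ ∃ F ∈ M, j ≤ r F ∧ x < F

/-- The auxiliary graph. -/
def HG (Q M : Finset P) (r : P → ℕ) : SimpleGraph (P ⊕ ℕ) where
  Adj u v := match u, v with
    | Sum.inl x, Sum.inl y => x < y ∨ y < x
    | Sum.inl x, Sum.inr j => NN Q M r j x
    | Sum.inr j, Sum.inl x => NN Q M r j x
    | Sum.inr _, Sum.inr _ => False
  symm := ⟨by
    rintro (x | i) (y | j) h
    · exact h.symm
    · exact h
    · exact h
    · exact h⟩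
  loopless := ⟨by
    rintro (x | i) h
    · rcases h with h | h <;> exact lt_irrefl x h
    · exact h⟩

open Classical in
/-- The elements below (or equal to) a maximal element with `j ≤ r F`. -/
noncomputable def KN (Q M : Finset P) (r : P → ℕ) (j : ℕ) : Finset P :=
  Q.filter fun x => ∃ F ∈ M, j ≤ r F ∧ x ≤ F

open Classical in
/-- The part from `j` on with the cone vertex. -/
noncomputable def LN (Q M : Finset P) (r : P → ℕ) (j : ℕ) : Finset (P ⊕ ℕ) :=
  insert (Sum.inr j) ((KN Q M r j).image Sum.inl)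

end

end SCS
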