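import Pool.Agent.SCS.Rank

/-!
# Project SCS (architect helper40), module Calc: rank nullity and the modular law

`dm_rn`: let `X` be closed and invariant, `T` equivariant.  Apply `dm_ker` to `S = T ∘ PP X`
(equivariant by `eqv_PP`, `Eqv.comp`): `im S ⊤ = im T X` (the range of `PP X` is `X`), so
`dm (kr S) = dm (im T X)ᗮ`, i.e. by `dm_orth` `dm (kr S)ᗮ = dm (im T X)`.  Moreover `kr S` is the
orthogonal sum of `Xᗮ` and `X ⊓ kr T` (`x = PP X x + (x - PP X x)`), so by `dm_add`
`dm (kr S) = dm Xᗮ + dm (X ⊓ kr T)`; with `dm_orth` for `X` and for `im T X`: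
`dm X = dm (X ⊓ kr T) + dm (im T X)`.

`dm_mod`: let `X' = closure X`, `Y' = closure Y`, `T x = x - PP X x`.  `Y' ⊓ kr T = Y' ⊓ X'`, so by
`dm_rn` `dm Y' = dm (X' ⊓ Y') + dm (im T Y')`.  The closure of `X' ⊔ im T Y'` is the closure of `X ⊔ Y`
(`y = (y - PP X y) + PP X y`), and the two summands are orthogonal: `dm (X ⊔ Y) = dm X' + dm (im T Y')`
by `dm_add` and `dm_closure`.

`dm_eq_of_dense`: for closed `M ≤ N` with `N ⊓ Mᗮ = ⊥` we have `M = N` (`x ∈ N`: `x - PP M x ∈ N ⊓ Mᗮ`).
-/

namespace SCS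

open scoped InnerProductSpace

variable {I Γ : Type} [Group Γ] [Fintype I]

theorem dm_rn {T : L2 I Γ →L[ℝ] L2 I Γ} (hT : Eqv T) {X : Submodule ℝ (L2 I Γ)} (hX : Inv X)
    (hc : IsClosed (X : Set (L2 I Γ))) : dm X = dm (X ⊓ kr T) + dm (im T X) := by
  have hcl : X.topologicalClosure = X := hc.submodule_topologicalClosure_eq
  have hmem : ∀ x, PP X x ∈ X := fun x => by
    have h := PP_mem X x
    rwa [hcl] at h
  set S : L2 I Γ →L[ℝ] L2 I Γ := T.comp (PP X) with hS
  have hSe : Eqv S := hT.comp (eqv_PP hX)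
  have h1 := dm_ker hSe
  have h2 : im S ⊤ = im T X := by
    ext y
    rw [mem_im, mem_im]
    constructor
    · rintro ⟨x, _, rfl⟩
      exact ⟨PP X x, hmem x, rfl⟩
    · rintro ⟨x, hx, rfl⟩
      refine ⟨x, trivial, ?_⟩
      show T (PP X x) = T x
      rw [PP_self hx]
  have h3 : kr S = Xᗮ ⊔ (X ⊓ kr T) := by
    apply le_antisymm
    · intro x hx
      rw [mem_kr] at hx
      have hx' : T (PP X x) = 0 := hx
      rw [Submodule.mem_sup]
      refine ⟨x - PP X x, ?_, PP X x, ⟨hmem x, mem_kr.2 hx'⟩, sub_add_cancel _ _⟩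
      rw [Submodule.mem_orthogonal']
      exact fun y hy => PP_sub X x y hy
    · refine sup_le ?_ ?_
      · intro x hx
        rw [mem_kr]
        show T (PP X x) = 0
        rw [PP_zero_iff.2 hx, map_zero]
      · intro x hx
        rw [mem_kr]
        show T (PP X x) = 0
        rw [PP_self hx.1]
        exact mem_kr.1 hx.2
  have h4 : dm (Xᗮ ⊔ (X ⊓ kr T)) = dm Xᗮ + dm (X ⊓ kr T) := by
    refine dm_add fun x hx y hy => ?_
    rw [Submodule.mem_orthogonal'] at hx
    exact hx y hy.1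
  have h5 := dm_orth X
  have h6 := dm_orth (im T X)
  rw [h2, h3, h4] at h1
  linarith

theorem dm_mod {X Y : Submodule ℝ (L2 I Γ)} (hX : Inv X) (hY : Inv Y) :
    dm (X ⊔ Y) + dm (X.topologicalClosure ⊓ Y.topologicalClosure) = dm X + dm Y := by
  set X' := X.topologicalClosure with hX'
  set Y' := Y.topologicalClosure with hY'
  set T : L2 I Γ →L[ℝ] L2 I Γ := ContinuousLinearMap.id ℝ (L2 I Γ) - PP X with hT
  have hTa : ∀ x, T x = x - PP X x := fun x => rfl
  have hTe : Eqv T := by
    intro g x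
    rw [hTa, hTa, eqv_PP hX g x, map_sub]
  have hk : kr T = X' := by
    ext x
    rw [mem_kr, hTa, sub_eq_zero]
    constructor
    · intro h
      rw [h]
      exact PP_mem X x
    · intro h
      rw [← PP_closure, PP_self h]
  have h1 := dm_rn hTe hY.cl (Submodule.isClosed_topologicalClosure Y)
  rw [← hY', hk] at h1
  have h2 : dm (X' ⊔ im T Y') = dm X' + dm (im T Y') := by
    refine dm_add fun x hx y hy => ?_
    obtain ⟨z, _, rfl⟩ := mem_im.1 hy
    rw [hTa, real_inner_comm]
    exact Submodule.starProjection_inner_eq_zero _ _ hx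
  have h3 : (X' ⊔ im T Y').topologicalClosure = (X ⊔ Y).topologicalClosure := by
    have hXc : X' ≤ (X ⊔ Y).topologicalClosure := Submodule.topologicalClosure_mono le_sup_left
    have hYc : Y' ≤ (X ⊔ Y).topologicalClosure := Submodule.topologicalClosure_mono le_sup_right
    apply le_antisymm
    · refine Submodule.topologicalClosure_minimal _ (sup_le hXc ?_)
        (Submodule.isClosed_topologicalClosure _)
      intro y hy
      obtain ⟨z, hz, rfl⟩ := mem_im.1 hy
      rw [hTa]
      exact Submodule.sub_mem _ (hYc hz) (hXc (PP_mem X z))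
    · refine Submodule.topologicalClosure_mono (sup_le ?_ ?_)
      · exact X.le_topologicalClosure.trans le_sup_left
      · intro y hy
        rw [Submodule.mem_sup]
        refine ⟨PP X y, PP_mem X y, T y, mem_im.2 ⟨y, Y.le_topologicalClosure hy, rfl⟩, ?_⟩
        rw [hTa, add_sub_cancel]
  have h4 : dm (X' ⊔ im T Y') = dm (X ⊔ Y) := by
    rw [← dm_closure, h3, dm_closure]
  have h5 : dm X' = dm X := dm_closure X
  have h6 : dm Y' = dm Y := dm_closure Y
  rw [inf_comm X' Y']
  linarith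

theorem eq_of_dense {α : Type} {M N : Submodule ℝ (Ell α)} (hMN : M ≤ N)
    (hc : IsClosed (N : Set (Ell α))) (h : ∀ x ∈ N, (∀ y ∈ M, ⟪x, y⟫_ℝ = 0) → x = 0) :
    M.topologicalClosure = N := by
  have hle : M.topologicalClosure ≤ N := Submodule.topologicalClosure_minimal _ hMN hc
  refine le_antisymm hle fun x hx => ?_
  have h1 := h (x - PP M x) (Submodule.sub_mem _ hx (hle (PP_mem M x))) fun y hy => PP_sub M x y hy
  rw [sub_eq_zero] at h1
  rw [h1]
  exact PP_mem M x

end SCS
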