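import Mathlib

/-!
# Project SCS (architect helper40), module Rev: the reversal of a shelling of a closed pseudomanifold

`ShS n m F`: the finite simplicial complex with facets `F 0, …, F (m-1)` (sets with `n` elements), every
ridge `(F i).erase x` is contained in exactly one other facet, and `F` is a shelling order.

`rev_shell`: for `j < i` there are `k > j` and `x ∈ F j` with `(F j).erase x ⊆ F k` and `F i ∩ F j ⊆ F k`.
Proof.  `τ = F i ∩ F j`.  It is enough to find `x ∈ F j`, `x ∉ τ` such that the other facet `F k` containing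
`(F j).erase x` has `k > j` (then `τ ⊆ (F j).erase x ⊆ F k`).  Assume not: (H) for every `x ∈ F j`, `x ∉ τ`
there is `k < j` with `(F j).erase x ⊆ F k`.  A τ-ridge is a set `R` with `|R| = n - 1` (`|R| + 1 = n`), `τ ⊆ R`.

Lemma (`ridge_bd`), for every `j ≤ m` (as a natural number): let `z : Finset ι → ZMod 2` satisfy
(a) `z R ≠ 0` implies: `R` is a τ-ridge and `R ⊆ F k` for some `k < j`;
(b) for every `σ` with `|σ| + 2 = n`, `τ ⊆ σ`: `∑_{x} z (insert x σ) = 0`, the sum over all `x ∉ σ` in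
    the (finite) union `U` of all the `F k`.
Then there is a finite set `Y` of indices `k < j` with `τ ⊆ F k` for `k ∈ Y` such that for every τ-ridge `R`:
`z R = #{k ∈ Y | R ⊆ F k}` in `ZMod 2`.
Induction on `j`; `j = 0`: `z = 0`, `Y = ∅`.  Step `j → j + 1`.
 If `τ ⊄ F j`: no τ-ridge is contained in `F j`, (a) holds for `j`, done.
 Let `τ ⊆ F j` and let `N` be the set of all `x ∈ F j`, `x ∉ τ`, such that `(F j).erase x ⊄ F k` for all
 `k < j`.  For `x ≠ y` in `N`: `z ((F j).erase x) = z ((F j).erase y)`.  Indeed let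
 `σ = ((F j).erase x).erase y ⊇ τ`; in (b) a nonzero term is `z R` with `σ ⊆ R ⊆ F k`, `k ≤ j`.  If `k < j`
 then by the shelling property for `k < j` there are `l < j` and `w ∈ F j`, `w ∉ F l`,
 `(F j).erase w ⊆ F l`, `F k ∩ F j ⊆ F l`; `σ ⊆ F k ∩ F j`, so `w ∉ σ`, so `w = x` or `w = y`, contradicting
 `x, y ∈ N`.  So `R ⊆ F j`, `R = (F j).erase x` or `(F j).erase y`, and (b) is
 `z ((F j).erase x) + z ((F j).erase y) = 0`.
 Let `ε` be the common value on `N` (`ε = 0` if `N = ∅`), `D R = 1` if `R ⊆ F j` is a τ-ridge and `0`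
 otherwise, `z' = z + ε D`.  (a) for `j`: if `z' R ≠ 0` then `R` is a τ-ridge in some `F k`, `k ≤ j`; if it
 is in no `F k` with `k < j` then `R = (F j).erase x` with `x ∈ N` and `z' R = ε + ε = 0`.  (b): `D` satisfies
 (b): for `σ ⊆ F j` there are exactly two `x` with `insert x σ ⊆ F j`, for other `σ` none.  By induction we
 get `Y'` for `z'`; `Y = Y'` if `ε = 0`, `Y = insert j Y'` if `ε = 1`.

Apply the lemma to `j` and `z = D` (for this `j`): (a) is (H), (b) as above.  So there is `Y ⊆ {k < j}` with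
`D R = #{k ∈ Y | R ⊆ F k}` for all τ-ridges `R`.  `Y₁ = insert j Y`: every τ-ridge is contained in an even
number of `F k`, `k ∈ Y₁`.  As a ridge of a facet is contained in exactly two facets:
(*) if `k ∈ Y₁`, `k ≠ l`, `R` is a τ-ridge with `R ⊆ F k`, `R ⊆ F l`, then `l ∈ Y₁`.
Let `St = {k | τ ⊆ F k}`, `k₀ = min St`.  For `k ∈ St`, `k ≠ k₀` the shelling property for `k₀ < k` gives
`l < k`, `w ∈ F k` with `(F k).erase w ⊆ F l`, `w ∉ F l` and `τ ⊆ F k₀ ∩ F k ⊆ F l`; so `l ∈ St` and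
`(F k).erase w` is a τ-ridge in `F k` and `F l`; by (*) `k ∈ Y₁ ↔ l ∈ Y₁`.  So (strong induction)
`k ∈ Y₁ ↔ k₀ ∈ Y₁` for all `k ∈ St`.  `j ∈ Y₁`, so `k₀ ∈ Y₁`, so `i ∈ Y₁`, but `i > j` and `Y₁ ⊆ {k ≤ j}`.
-/

namespace SCS

open Finset

/-- Closed shellable simplicial complexes: the facets `F i` have `n` elements, every set
`(F i).erase x`, `x ∈ F i`, is contained in exactly one other facet, and each facet meets the union of
the earlier ones in a union of such sets. -/
structure ShS {ι : Type} [DecidableEq ι] (n m : ℕ) (F : Fin m → Finset ι) : Prop where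
  card : ∀ i, (F i).card = n
  inj : Function.Injective F
  ridge : ∀ i, ∀ x ∈ F i, ∃! k, k ≠ i ∧ (F i).erase x ⊆ F k
  shell : ∀ i j, i < j → ∃ k, k < j ∧ ∃ x ∈ F j, (F j).erase x ⊆ F k ∧ F i ∩ F j ⊆ F k

variable {ι : Type} [DecidableEq ι] {n m : ℕ} {F : Fin m → Finset ι}

theorem ShS.not_mem (h : ShS n m F) {j k : Fin m} (hk : k ≠ j) {x : ι}
    (hs : (F j).erase x ⊆ F k) : x ∉ F k := by
  intro hx'
  refine hk (h.inj (Finset.eq_of_subset_of_card_le (fun y hy => ?_) ?_).symm)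
  · by_cases hyx : y = x
    · rw [hyx]
      exact hx'
    · exact hs (Finset.mem_erase.2 ⟨hyx, hy⟩)
  · rw [h.card, h.card]

/-- the ridges of `G` containing `τ`, as a mod 2 chain -/
private def chD (n : ℕ) (τ G R : Finset ι) : ZMod 2 :=
  if R.card + 1 = n ∧ τ ⊆ R ∧ R ⊆ G then 1 else 0

private theorem chD_bd (h : ShS n m F) (τ : Finset ι) (j : Fin m) (σ : Finset ι)
    (hσ : σ.card + 2 = n) (hτ : τ ⊆ σ) :
    ∑ x ∈ (univ.biUnion F) \ σ, chD n τ (F j) (insert x σ) = 0 := by
  by_cases hsub : σ ⊆ F j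
  · have h1 : ∀ x ∈ (univ.biUnion F) \ σ,
        chD n τ (F j) (insert x σ) = if x ∈ F j then 1 else 0 := by
      intro x hx
      rw [mem_sdiff] at hx
      unfold chD
      by_cases hxj : x ∈ F j
      · rw [if_pos hxj, if_pos]
        refine ⟨?_, ?_, ?_⟩
        · rw [card_insert_of_notMem hx.2]
          omega
        · exact hτ.trans (subset_insert _ _)
        · exact insert_subset hxj hsub
      · rw [if_neg hxj, if_neg]
        rintro ⟨-, -, h3⟩
        exact hxj (h3 (mem_insert_self _ _))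
    rw [sum_congr rfl h1, ← sum_filter, sum_const, nsmul_eq_mul, mul_one]
    have h2 : filter (fun x => x ∈ F j) ((univ.biUnion F) \ σ) = F j \ σ := by
      ext x
      rw [mem_filter, mem_sdiff, mem_sdiff, mem_biUnion]
      constructor
      · rintro ⟨⟨-, h3⟩, h4⟩
        exact ⟨h4, h3⟩
      · rintro ⟨h3, h4⟩
        exact ⟨⟨⟨j, mem_univ _, h3⟩, h4⟩, h3⟩
    rw [h2, card_sdiff_of_subset hsub, h.card]
    have h3 : n - σ.card = 2 := by omega
    rw [h3]
    rfl
  · refine sum_eq_zero fun x _ => ?_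
    unfold chD
    rw [if_neg]
    rintro ⟨-, -, h3⟩
    exact hsub ((subset_insert _ _).trans h3)

private theorem erase_of_ridge (h : ShS n m F) {j : Fin m} {R : Finset ι} (hR : R.card + 1 = n)
    (hs : R ⊆ F j) : ∃ x ∈ F j, x ∉ R ∧ R = (F j).erase x := by
  have h1 : (F j \ R).card = 1 := by
    rw [card_sdiff_of_subset hs, h.card]
    omega
  obtain ⟨x, hx⟩ := card_eq_one.1 h1
  have hx1 : x ∈ F j \ R := by
    rw [hx]
    exact mem_singleton_self x
  rw [mem_sdiff] at hx1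
  refine ⟨x, hx1.1, hx1.2, ?_⟩
  refine eq_of_subset_of_card_le (fun y hy => mem_erase.2 ⟨?_, hs hy⟩) ?_
  · rintro rfl
    exact hx1.2 hy
  · rw [card_erase_of_mem hx1.1, h.card]
    omega

private theorem ridge_bd (h : ShS n m F) (τ : Finset ι) : ∀ (j : ℕ), j ≤ m → ∀ z : Finset ι → ZMod 2,
    (∀ R, z R ≠ 0 → (R.card + 1 = n ∧ τ ⊆ R) ∧ ∃ k : Fin m, (k : ℕ) < j ∧ R ⊆ F k) →
    (∀ σ : Finset ι, σ.card + 2 = n → τ ⊆ σ →
      ∑ x ∈ (univ.biUnion F) \ σ, z (insert x σ) = 0) →
    ∃ Y : Finset (Fin m), (∀ k ∈ Y, (k : ℕ) < j ∧ τ ⊆ F k) ∧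
      ∀ R : Finset ι, R.card + 1 = n → τ ⊆ R →
        z R = ((Y.filter (fun k => R ⊆ F k)).card : ZMod 2) := by
  intro j
  induction j with
  | zero =>
    intro _ z ha _
    refine ⟨∅, fun k hk => absurd hk (notMem_empty k), fun R _ _ => ?_⟩
    rw [filter_empty, card_empty, Nat.cast_zero]
    by_contra hz
    obtain ⟨-, k, hk, -⟩ := ha R hz
    exact Nat.not_lt_zero _ hk
  | succ j ih =>
    intro hj z ha hb
    have hjm : j < m := hj
    obtain ⟨jj, hjj⟩ : ∃ jj : Fin m, (jj : ℕ) = j := ⟨⟨j, hjm⟩, rfl⟩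
    by_cases hτj : τ ⊆ F jj
    swap
    · obtain ⟨Y, hY1, hY2⟩ := ih hjm.le z (fun R hR => by
        obtain ⟨h1, k, hk, hRk⟩ := ha R hR
        refine ⟨h1, k, ?_, hRk⟩
        rcases Nat.lt_or_ge k j with h2 | h2
        · exact h2
        · have h3 : k = jj := Fin.ext (by omega)
          exact absurd (h1.2.trans (h3 ▸ hRk)) hτj) hb
      exact ⟨Y, fun k hk => ⟨(hY1 k hk).1.trans (Nat.lt_succ_self j), (hY1 k hk).2⟩, hY2⟩
    have hN : ∀ x y, (x ∈ F jj ∧ x ∉ τ ∧ ∀ k : Fin m, (k : ℕ) < j → ¬ (F jj).erase x ⊆ F k) →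
        (y ∈ F jj ∧ y ∉ τ ∧ ∀ k : Fin m, (k : ℕ) < j → ¬ (F jj).erase y ⊆ F k) →
        z ((F jj).erase x) = z ((F jj).erase y) := by
      rintro x y ⟨hx1, hx2, hx3⟩ ⟨hy1, hy2, hy3⟩
      by_cases hxy : x = y
      · rw [hxy]
      have hyx : y ∈ (F jj).erase x := mem_erase.2 ⟨fun e => hxy e.symm, hy1⟩
      have hσc : (((F jj).erase x).erase y).card + 2 = n := by
        have h0 : 0 < ((F jj).erase x).card := card_pos.2 ⟨y, hyx⟩
        rw [card_erase_of_mem hyx]
        rw [card_erase_of_mem hx1] at h0 ⊢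
        rw [h.card] at h0 ⊢
        omega
      have hστ : τ ⊆ ((F jj).erase x).erase y := by
        intro w hw
        refine mem_erase.2 ⟨?_, mem_erase.2 ⟨?_, hτj hw⟩⟩
        · rintro rfl
          exact hy2 hw
        · rintro rfl
          exact hx2 hw
      have hmem : ∀ w, w ∈ F jj → w ∉ ((F jj).erase x).erase y → w = x ∨ w = y := by
        intro w hw hw2
        by_contra hc
        rw [not_or] at hc
        exact hw2 (mem_erase.2 ⟨hc.2, mem_erase.2 ⟨hc.1, hw⟩⟩)
      have hs := hb _ hσc hστ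
      have hsub : ({x, y} : Finset ι) ⊆ (univ.biUnion F) \ (((F jj).erase x).erase y) := by
        intro w hw
        rw [mem_insert, mem_singleton] at hw
        rw [mem_sdiff, mem_biUnion]
        rcases hw with rfl | rfl
        · exact ⟨⟨jj, mem_univ _, hx1⟩, fun hc => (mem_erase.1 (mem_erase.1 hc).2).1 rfl⟩
        · exact ⟨⟨jj, mem_univ _, hy1⟩, fun hc => (mem_erase.1 hc).1 rfl⟩
      rw [← sum_subset hsub, sum_pair hxy] at hs
      · have e1 : insert x (((F jj).erase x).erase y) = (F jj).erase y := by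
          rw [erase_right_comm, insert_erase (mem_erase.2 ⟨hxy, hx1⟩)]
        have e2 : insert y (((F jj).erase x).erase y) = (F jj).erase x := insert_erase hyx
        rw [e1, e2] at hs
        exact (CharTwo.add_eq_zero.1 hs).symm
      · intro w hw hw2
        by_contra hz
        obtain ⟨-, k, hk, hRk⟩ := ha _ hz
        rw [mem_insert, mem_singleton] at hw2
        rcases Nat.lt_or_ge k j with h2 | h2
        · obtain ⟨l, hl, v, hv, hv1, hv2⟩ := h.shell k jj (by rw [Fin.lt_def]; omega)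
          have hvl : v ∉ F l := h.not_mem hl.ne hv1
          have hlj : (l : ℕ) < j := by
            rw [Fin.lt_def] at hl
            omega
          have hvσ : v ∉ ((F jj).erase x).erase y := fun hc =>
            hvl (hv2 (mem_inter.2 ⟨hRk (mem_insert_of_mem hc), hv⟩))
          rcases hmem v hv hvσ with rfl | rfl
          · exact hx3 l hlj hv1
          · exact hy3 l hlj hv1
        · have h3 : k = jj := Fin.ext (by omega)
          rw [h3] at hRk
          exact hw2 (hmem w (hRk (mem_insert_self _ _)) (mem_sdiff.1 hw).2)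
    obtain ⟨ε, hε⟩ : ∃ ε : ZMod 2, ∀ x,
        (x ∈ F jj ∧ x ∉ τ ∧ ∀ k : Fin m, (k : ℕ) < j → ¬ (F jj).erase x ⊆ F k) →
        z ((F jj).erase x) = ε := by
      by_cases hex : ∃ x, x ∈ F jj ∧ x ∉ τ ∧ ∀ k : Fin m, (k : ℕ) < j → ¬ (F jj).erase x ⊆ F k
      · obtain ⟨x₀, hx₀⟩ := hex
        exact ⟨z ((F jj).erase x₀), fun x hx => hN x x₀ hx hx₀⟩
      · exact ⟨0, fun x hx => absurd ⟨x, hx⟩ hex⟩
    obtain ⟨Y', hY1, hY2⟩ := ih hjm.le (fun R => z R + ε * chD n τ (F jj) R) (fun R hR => by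
        have h1 : (R.card + 1 = n ∧ τ ⊆ R) ∧ ∃ k : Fin m, (k : ℕ) < j + 1 ∧ R ⊆ F k := by
          by_cases hzR : z R = 0
          · by_cases hD : R.card + 1 = n ∧ τ ⊆ R ∧ R ⊆ F jj
            · exact ⟨⟨hD.1, hD.2.1⟩, jj, by omega, hD.2.2⟩
            · exfalso
              apply hR
              show z R + ε * chD n τ (F jj) R = 0
              unfold chD
              rw [if_neg hD, hzR, mul_zero, add_zero]
          · exact ha R hzR
        refine ⟨h1.1, ?_⟩
        by_contra hno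
        push Not at hno
        obtain ⟨⟨hc, hτR⟩, k, hk, hRk⟩ := h1
        have hk2 : k = jj := by
          rcases Nat.lt_or_ge k j with h2 | h2
          · exact absurd hRk (hno k h2)
          · exact Fin.ext (by omega)
        rw [hk2] at hRk
        obtain ⟨x, hx1, hx2, hx3⟩ := erase_of_ridge h hc hRk
        have h4 := hε x ⟨hx1, fun hc => hx2 (hτR hc), fun k hk hc => hno k hk (hx3 ▸ hc)⟩
        apply hR
        show z R + ε * chD n τ (F jj) R = 0
        rw [← hx3] at h4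
        unfold chD
        rw [if_pos ⟨hc, hτR, hRk⟩, h4, mul_one]
        exact CharTwo.add_self_eq_zero ε) (fun σ hσ hτσ => by
        show ∑ x ∈ (univ.biUnion F) \ σ, (z (insert x σ) + ε * chD n τ (F jj) (insert x σ)) = 0
        rw [sum_add_distrib, ← mul_sum, hb σ hσ hτσ, chD_bd h τ jj σ hσ hτσ, mul_zero, add_zero])
    by_cases hε0 : ε = 0
    · refine ⟨Y', fun k hk => ⟨(hY1 k hk).1.trans (Nat.lt_succ_self j), (hY1 k hk).2⟩,
        fun R h1 h2 => ?_⟩
      rw [← hY2 R h1 h2, hε0, zero_mul, add_zero]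
    · have hε1 : ε = 1 := by
        revert hε0
        generalize ε = e
        revert e
        decide
      have hjY : jj ∉ Y' := fun hc => by
        have := (hY1 jj hc).1
        omega
      refine ⟨insert jj Y', fun k hk => ?_, fun R h1 h2 => ?_⟩
      · rw [mem_insert] at hk
        rcases hk with rfl | hk
        · exact ⟨by omega, hτj⟩
        · exact ⟨(hY1 k hk).1.trans (Nat.lt_succ_self j), (hY1 k hk).2⟩
      · have h3 := hY2 R h1 h2
        have h4 : z R = ((Y'.filter (fun k => R ⊆ F k)).card : ZMod 2) + chD n τ (F jj) R := by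
          rw [← h3, hε1, one_mul, add_assoc, CharTwo.add_self_eq_zero, add_zero]
        rw [h4, filter_insert]
        unfold chD
        by_cases h5 : R ⊆ F jj
        · rw [if_pos h5, if_pos ⟨h1, h2, h5⟩, card_insert_of_notMem, Nat.cast_add, Nat.cast_one]
          exact fun hc => hjY (mem_filter.1 hc).1
        · rw [if_neg h5, if_neg (fun hc => h5 hc.2.2), add_zero]

theorem rev_shell (h : ShS n m F) {i j : Fin m} (hij : j < i) :
    ∃ k, j < k ∧ ∃ x ∈ F j, (F j).erase x ⊆ F k ∧ F i ∩ F j ⊆ F k := by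
  by_contra hcon
  push Not at hcon
  obtain ⟨τ, hτ⟩ : ∃ τ, τ = F i ∩ F j := ⟨_, rfl⟩
  rw [← hτ] at hcon
  have hτi : τ ⊆ F i := by
    rw [hτ]
    exact inter_subset_left
  have hτj : τ ⊆ F j := by
    rw [hτ]
    exact inter_subset_right
  have hH : ∀ x ∈ F j, x ∉ τ → ∃ k, k < j ∧ (F j).erase x ⊆ F k := by
    intro x hx hxτ
    obtain ⟨k, ⟨hkj, hk⟩, -⟩ := h.ridge j x hx
    rcases lt_or_gt_of_ne hkj with h1 | h1
    · exact ⟨k, h1, hk⟩
    · refine absurd (fun y hy => hk (mem_erase.2 ⟨?_, hτj hy⟩)) (hcon k h1 x hx hk)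
      rintro rfl
      exact hxτ hy
  obtain ⟨Y, hY1, hY2⟩ := ridge_bd h τ j j.2.le (chD n τ (F j)) (fun R hR => by
      have hD : R.card + 1 = n ∧ τ ⊆ R ∧ R ⊆ F j := by
        by_contra hD
        apply hR
        unfold chD
        rw [if_neg hD]
      obtain ⟨hc, hτR, hRj⟩ := hD
      refine ⟨⟨hc, hτR⟩, ?_⟩
      obtain ⟨x, hx1, hx2, hx3⟩ := erase_of_ridge h hc hRj
      obtain ⟨k, hk1, hk2⟩ := hH x hx1 (fun hc => hx2 (hτR hc))
      exact ⟨k, hk1, hx3 ▸ hk2⟩) (fun σ hσ hτσ => chD_bd h τ j σ hσ hτσ)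
  have hjY : j ∉ Y := fun hc => lt_irrefl _ (hY1 j hc).1
  have hev : ∀ R : Finset ι, R.card + 1 = n → τ ⊆ R →
      (((insert j Y).filter (fun k => R ⊆ F k)).card : ZMod 2) = 0 := by
    intro R h1 h2
    have h3 := hY2 R h1 h2
    rw [filter_insert]
    unfold chD at h3
    by_cases h5 : R ⊆ F j
    · rw [if_pos h5, card_insert_of_notMem, Nat.cast_add, ← h3, if_pos ⟨h1, h2, h5⟩]
      · rfl
      · exact fun hc => hjY (mem_filter.1 hc).1
    · rw [if_neg h5, ← h3, if_neg (fun hc => h5 hc.2.2)]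
  have hstar : ∀ (k l : Fin m) (R : Finset ι), k ∈ insert j Y → k ≠ l → R.card + 1 = n → τ ⊆ R →
      R ⊆ F k → R ⊆ F l → l ∈ insert j Y := by
    intro k l R hk hkl hc hτR hRk hRl
    by_contra hl
    obtain ⟨x, hx1, hx2, hx3⟩ := erase_of_ridge h hc hRk
    obtain ⟨k', -, huniq⟩ := h.ridge k x hx1
    have hl' : l = k' := huniq l ⟨hkl.symm, hx3 ▸ hRl⟩
    have h1 : (insert j Y).filter (fun q => R ⊆ F q) = {k} := by
      ext q
      rw [mem_filter, mem_singleton]
      constructor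
      · rintro ⟨hq1, hq2⟩
        by_contra hqk
        have hq' : q = k' := huniq q ⟨hqk, hx3 ▸ hq2⟩
        apply hl
        rw [hl', ← hq']
        exact hq1
      · rintro rfl
        exact ⟨hk, hRk⟩
    have h2 := hev R hc hτR
    rw [h1, card_singleton] at h2
    revert h2
    decide
  have hne : (univ.filter (fun k : Fin m => τ ⊆ F k)).Nonempty := ⟨i, mem_filter.2 ⟨mem_univ _, hτi⟩⟩
  obtain ⟨k₀, hk₀⟩ : ∃ k₀, k₀ = (univ.filter (fun k : Fin m => τ ⊆ F k)).min' hne := ⟨_, rfl⟩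
  have hk₀τ : τ ⊆ F k₀ := by
    have h1 := min'_mem _ hne
    rw [← hk₀] at h1
    exact (mem_filter.1 h1).2
  have hk₀min : ∀ k, τ ⊆ F k → k₀ ≤ k := fun k hk => by
    rw [hk₀]
    exact min'_le _ k (mem_filter.2 ⟨mem_univ k, hk⟩)
  have hall : ∀ k : Fin m, τ ⊆ F k → (k ∈ insert j Y ↔ k₀ ∈ insert j Y) := by
    intro k
    induction k using WellFoundedLT.induction with
    | ind k ih =>
      intro hk
      rcases eq_or_lt_of_le (hk₀min k hk) with h1 | h1
      · rw [h1]
      · obtain ⟨l, hl, x, hx, hx1, hx2⟩ := h.shell k₀ k h1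
        have hxl : x ∉ F l := h.not_mem hl.ne hx1
        have hτl : τ ⊆ F l := fun y hy => hx2 (mem_inter.2 ⟨hk₀τ hy, hk hy⟩)
        have hRc : ((F k).erase x).card + 1 = n := by
          have h0 : 0 < (F k).card := card_pos.2 ⟨x, hx⟩
          rw [card_erase_of_mem hx]
          rw [h.card] at h0 ⊢
          omega
        have hτR : τ ⊆ (F k).erase x := fun y hy => mem_erase.2 ⟨by
          rintro rfl
          exact hxl (hτl hy), hk hy⟩
        rw [← ih l hl hτl]
        exact ⟨fun hc => hstar k l _ hc hl.ne' hRc hτR (erase_subset _ _) hx1,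
          fun hc => hstar l k _ hc hl.ne hRc hτR hx1 (erase_subset _ _)⟩
  have h1 : i ∈ insert j Y := (hall i hτi).2 ((hall j hτj).1 (mem_insert_self _ _))
  rw [mem_insert] at h1
  rcases h1 with h1 | h1
  · exact hij.ne' h1
  · have h2 := (hY1 i h1).1
    rw [Fin.lt_def] at hij
    omega

end SCS
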