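import Pool.Agent.SCS.JB
import Pool.Agent.SCS.Rev

/-!
# Project SCS (architect helper40), module ShR: the face poset of a shellable sphere is in the class `Rsh`

`fc F` is the set of all nonempty faces.  `M = univ.image F`, `r τ` = the index `i` with `F i = τ` (`0` if there is
none), so `r (F i) = i` (`ShS.inj`).
`PD (fc F) M r`: sub: `n` is odd, so `F i ≠ ∅`.  max: `F i ⊂ τ ⊆ F k` contradicts the cardinalities.
two: `τ ∈ fc F`, `τ ∉ M`: `τ ⊂ F i` for some `i`, let `x ∈ F i \ τ` and `k ≠ i` with `(F i).erase x ⊆ F k`: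
`τ ⊆ F k`, and `τ ≠ F k` as `|τ| < n`.  inj: clear.
`2 ≤ M.card`: `F 0` has an element `x` (`0 < m`), so there is `k ≠ 0`.
`TT (fc F) M r (F j) = JB R R'` for `R = {x ∈ F j | ∃ k < j, (F j).erase x ⊆ F k}`,
`R' = {x ∈ F j | ∃ k > j, (F j).erase x ⊆ F k}`; they are disjoint (uniqueness in `ShS.ridge`) and
`R ∪ R' = F j` (existence), so `|R| + |R'| = n` is odd.
* `τ` in the left side: `τ ⊂ F j`, `τ ⊂ F i` for some `i < j`: by `ShS.shell` there are `k < j`, `x ∈ F j` with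
  `(F j).erase x ⊆ F k`, `τ ⊆ F i ∩ F j ⊆ F k`; `x ∈ R`, and `x ∉ F k` (`ShS.not_mem`), so `x ∉ τ`.
  `τ ⊂ F i` for some `i > j`: the same with `rev_shell` and `R'`.  `τ` is nonempty.
* `τ ∈ JB R R'`: `∅ ≠ τ ⊆ F j`, `x ∈ R \ τ`: `τ ⊆ (F j).erase x ⊆ F k`, `k < j`, `τ ≠ F k` as
  `|τ| ≤ n - 1`; the same for `R'`; `τ ⊂ F j`.
If there is an earlier (a later) facet then `R ≠ ∅` (`R' ≠ ∅`) by `ShS.shell` (`rev_shell`).  So `rsh_JB`
applies.
-/

namespace SCS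

open SNG Finset

variable {ι : Type} [DecidableEq ι]

/-- The nonempty faces. -/
def fc {m : ℕ} (F : Fin m → Finset ι) : Finset (Finset ι) :=
  (univ.biUnion fun i => (F i).powerset).erase ∅

theorem mem_fc {m : ℕ} {F : Fin m → Finset ι} {τ : Finset ι} :
    τ ∈ fc F ↔ τ.Nonempty ∧ ∃ i, τ ⊆ F i := by
  unfold fc
  rw [mem_erase, mem_biUnion, nonempty_iff_ne_empty]
  simp

theorem rsh_fc {n m : ℕ} {F : Fin m → Finset ι} (h : ShS n m F) (hn : Odd n) (hm : 0 < m) :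
    Rsh (fc F) := by
  classical
  have hn1 : 0 < n := hn.pos
  obtain ⟨r, hr⟩ : ∃ r : Finset ι → ℕ, ∀ i, r (F i) = (i : ℕ) :=
    ⟨Function.extend F (fun i => (i : ℕ)) 0, fun i => h.inj.extend_apply _ _ i⟩
  have hMm : ∀ i, F i ∈ univ.image F := fun i => mem_image_of_mem F (mem_univ i)
  have hM : ∀ τ, τ ∈ univ.image F → ∃ i, F i = τ := fun τ hτ => by
    obtain ⟨i, -, hi⟩ := mem_image.1 hτ
    exact ⟨i, hi⟩
  refine Rsh.mk (fc F) (univ.image F) r ⟨?_, ?_, ?_, ?_⟩ ?_ ?_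
  · intro τ hτ
    obtain ⟨i, rfl⟩ := hM τ hτ
    exact mem_fc.2 ⟨card_pos.1 (by rw [h.card]; exact hn1), i, Subset.refl _⟩
  · intro G hG τ hτ hlt
    obtain ⟨i, rfl⟩ := hM G hG
    obtain ⟨-, k, hk⟩ := mem_fc.1 hτ
    have h1 := card_lt_card hlt
    have h2 := card_le_card hk
    rw [h.card] at h1 h2
    omega
  · intro τ hτ hτM
    obtain ⟨-, i, hi⟩ := mem_fc.1 hτ
    have hne : ∀ k, τ ≠ F k := fun k hk => hτM (by rw [hk]; exact hMm k)
    obtain ⟨x, hx, hxτ⟩ := exists_of_ssubset (Finset.ssubset_iff_subset_ne.2 ⟨hi, hne i⟩)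
    obtain ⟨k, ⟨hki, hk⟩, -⟩ := h.ridge i x hx
    have hτk : τ ⊆ F k := fun y hy => hk (mem_erase.2 ⟨fun e => hxτ (e ▸ hy), hi hy⟩)
    exact ⟨F i, hMm i, F k, hMm k, fun e => hki (h.inj e).symm,
      (Finset.ssubset_iff_subset_ne.2 ⟨hi, hne i⟩),
      (Finset.ssubset_iff_subset_ne.2 ⟨hτk, hne k⟩)⟩
  · intro G hG G' hG' he
    obtain ⟨i, rfl⟩ := hM G hG
    obtain ⟨k, rfl⟩ := hM G' hG'
    rw [hr, hr] at he
    rw [Fin.ext he]
  · rw [card_image_of_injective _ h.inj, card_univ, Fintype.card_fin]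
    obtain ⟨x, hx⟩ : (F ⟨0, hm⟩).Nonempty := card_pos.1 (by rw [h.card]; exact hn1)
    obtain ⟨k, ⟨hk, -⟩, -⟩ := h.ridge ⟨0, hm⟩ x hx
    have h1 : (k : ℕ) ≠ 0 := fun e => hk (Fin.ext e)
    have h2 := k.2
    omega
  · intro G hG h1 h2
    obtain ⟨j, rfl⟩ := hM G hG
    obtain ⟨G1, hG1, hlt1⟩ := h1
    obtain ⟨i1, rfl⟩ := hM G1 hG1
    obtain ⟨G2, hG2, hlt2⟩ := h2
    obtain ⟨i2, rfl⟩ := hM G2 hG2
    rw [hr, hr] at hlt1 hlt2
    obtain ⟨R, hR⟩ : ∃ R : Finset ι, ∀ x, x ∈ R ↔ x ∈ F j ∧ ∃ k, k < j ∧ (F j).erase x ⊆ F k :=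
      ⟨(F j).filter fun x => ∃ k, k < j ∧ (F j).erase x ⊆ F k, fun x => mem_filter⟩
    obtain ⟨R', hR'⟩ : ∃ R' : Finset ι, ∀ x, x ∈ R' ↔ x ∈ F j ∧ ∃ k, j < k ∧ (F j).erase x ⊆ F k :=
      ⟨(F j).filter fun x => ∃ k, j < k ∧ (F j).erase x ⊆ F k, fun x => mem_filter⟩
    have hU : R ∪ R' = F j := by
      ext x
      rw [mem_union, hR, hR']
      constructor
      · rintro (h | h)
        · exact h.1
        · exact h.1
      · intro hx
        obtain ⟨k, ⟨hk, hs⟩, -⟩ := h.ridge j x hx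
        rcases lt_or_gt_of_ne hk with h3 | h3
        · exact Or.inl ⟨hx, k, h3, hs⟩
        · exact Or.inr ⟨hx, k, h3, hs⟩
    have hd : Disjoint R R' := by
      rw [disjoint_left]
      intro x hx hx'
      obtain ⟨hxj, k, hk, hs⟩ := (hR x).1 hx
      obtain ⟨-, k', hk', hs'⟩ := (hR' x).1 hx'
      have h3 := (h.ridge j x hxj).unique ⟨hk.ne, hs⟩ ⟨hk'.ne', hs'⟩
      rw [h3] at hk
      exact lt_asymm hk hk'
    have hcard : R.card + R'.card = n := by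
      rw [← card_union_of_disjoint hd, hU, h.card]
    have hRne : R.Nonempty := by
      obtain ⟨k, hk, x, hx, hs, -⟩ := h.shell i1 j hlt1
      exact ⟨x, (hR x).2 ⟨hx, k, hk, hs⟩⟩
    have hRne' : R'.Nonempty := by
      obtain ⟨k, hk, x, hx, hs, -⟩ := rev_shell h (i := i2) (j := j) hlt2
      exact ⟨x, (hR' x).2 ⟨hx, k, hk, hs⟩⟩
    have hTm : ∀ τ, τ ∈ TT (fc F) (univ.image F) r (F j) ↔ τ ∈ fc F ∧ τ < F j ∧
        (∃ F' ∈ univ.image F, r F' < r (F j) ∧ τ < F') ∧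
        ∃ F' ∈ univ.image F, r (F j) < r F' ∧ τ < F' := by
      intro τ
      simp only [TT, Finset.mem_filter]
    have hTT : TT (fc F) (univ.image F) r (F j) = JB R R' := by
      ext τ
      rw [hTm τ]
      unfold JB
      rw [mem_filter, mem_powerset, hU, mem_fc]
      constructor
      · rintro ⟨⟨hne, -⟩, hτj, ⟨G1, hG1, hr1, hτ1⟩, G2, hG2, hr2, hτ2⟩
        obtain ⟨i, rfl⟩ := hM G1 hG1
        obtain ⟨i', rfl⟩ := hM G2 hG2
        rw [hr, hr] at hr1 hr2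
        have hτj' := hτj.1
        have hτ1' := hτ1.1
        have hτ2' := hτ2.1
        refine ⟨hτj', hne, ?_, ?_⟩
        · intro hsub
          obtain ⟨k, hk, x, hx, hs, hs2⟩ := h.shell i j hr1
          have hxτ := hsub ((hR x).2 ⟨hx, k, hk, hs⟩)
          exact h.not_mem hk.ne hs (hs2 (mem_inter.2 ⟨hτ1' hxτ, hx⟩))
        · intro hsub
          obtain ⟨k, hk, x, hx, hs, hs2⟩ := rev_shell h (i := i') (j := j) hr2
          have hxτ := hsub ((hR' x).2 ⟨hx, k, hk, hs⟩)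
          exact h.not_mem hk.ne' hs (hs2 (mem_inter.2 ⟨hτ2' hxτ, hx⟩))
      · rintro ⟨hτj, hne, hnR, hnR'⟩
        obtain ⟨x, hx, hxτ⟩ := not_subset.1 hnR
        obtain ⟨x', hx', hxτ'⟩ := not_subset.1 hnR'
        obtain ⟨hxj, k, hk, hs⟩ := (hR x).1 hx
        obtain ⟨hxj', k', hk', hs'⟩ := (hR' x').1 hx'
        have hlt : τ ⊂ F j := (ssubset_iff_of_subset hτj).2 ⟨x, hxj, hxτ⟩
        have hc := card_lt_card hlt
        rw [h.card] at hc
        have hb : ∀ (y : ι) (l : Fin m), y ∉ τ → (F j).erase y ⊆ F l → τ < F l := by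
          intro y l hy hsl
          refine (Finset.ssubset_iff_subset_ne.2 ⟨fun z hz =>
            hsl (mem_erase.2 ⟨fun e => hy (e ▸ hz), hτj hz⟩), fun e => ?_⟩)
          rw [e, h.card] at hc
          exact lt_irrefl _ hc
        refine ⟨⟨hne, j, hτj⟩, hlt, ⟨F k, hMm k, ?_, hb x k hxτ hs⟩,
          F k', hMm k', ?_, hb x' k' hxτ' hs'⟩
        · rw [hr, hr]; exact hk
        · rw [hr, hr]; exact hk'
    rw [hTT]
    exact rsh_JB R R' hd hRne hRne' (by rw [hcard]; exact hn)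

end SCS
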