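import Pool.Agent.SCS.Ops
import Pool.Agent.SCS.Calc
import Pool.Agent.SNG.Core

/-!
# Project SCS (architect helper40), module Chn: chains of the Davis complex as subspaces of `ℓ²`

`G` a finite graph on `V`, `W G` the right-angled Coxeter group, `sm G s` its generators.
`CC G S j`: the square summable `j`-chains of the subcomplex of the Davis complex with nerve the flag
complex of `G` restricted to `S` (functions `f (T, g)`, `T ⊆ S` a clique with `j` elements, alternating).
`bD G`: the boundary.  `HH G S j`: harmonic chains.  `bb G S j`: Betti numbers.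
`WS G S`: the subgroup generated by `S`.
-/

namespace SCS

open SNG Finset
open scoped InnerProductSpace

variable {V : Type} [Fintype V] [LinearOrder V]

/-- square summable functions on `Finset V × W G` -/
abbrev HW {V : Type} (G : SimpleGraph V) : Type := L2 (Finset V) (W G)

/-- The chains. -/
def CC (G : SimpleGraph V) (S : Finset V) (j : ℕ) : Submodule ℝ (HW G) where
  carrier := {f | (∀ T : Finset V, ¬ (T ⊆ S ∧ G.IsClique (T : Set V) ∧ T.card = j) →
      ∀ g, f (T, g) = 0) ∧ ∀ T : Finset V, ∀ s ∈ T, ∀ g, f (T, g * sm G s) = - f (T, g)}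
  add_mem' := by
    rintro f h ⟨hf1, hf2⟩ ⟨hh1, hh2⟩
    refine ⟨fun T hT g => ?_, fun T s hs g => ?_⟩
    · rw [ell_add, hf1 T hT, hh1 T hT, add_zero]
    · rw [ell_add, ell_add, hf2 T s hs, hh2 T s hs]
      ring
  zero_mem' := ⟨fun T _ g => rfl, fun T s _ g => by rw [ell_zero, ell_zero, neg_zero]⟩
  smul_mem' := by
    rintro a f ⟨hf1, hf2⟩
    refine ⟨fun T hT g => ?_, fun T s hs g => ?_⟩
    · rw [ell_smul, hf1 T hT, mul_zero]
    · rw [ell_smul, ell_smul, hf2 T s hs]
      ring

omit [Fintype V] [LinearOrder V] in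
theorem mem_CC {G : SimpleGraph V} {S : Finset V} {j : ℕ} {f : HW G} : f ∈ CC G S j ↔
    (∀ T : Finset V, ¬ (T ⊆ S ∧ G.IsClique (T : Set V) ∧ T.card = j) → ∀ g, f (T, g) = 0) ∧
      ∀ T : Finset V, ∀ s ∈ T, ∀ g, f (T, g * sm G s) = - f (T, g) := Iff.rfl

/-- The boundary operator. -/
noncomputable def bD (G : SimpleGraph V) : HW G →L[ℝ] HW G :=
  ∑ s : V, pull (fun q : Finset V × W G => (insert s q.1, q.2)) fun q => if s ∈ q.1 then 0 else sg q.1 s

omit [Fintype V] in
theorem abs_sg (T : Finset V) (s : V) : |sg T s| = 1 := by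
  unfold sg
  rw [abs_pow, abs_neg, abs_one, one_pow]

theorem bD_apply {G : SimpleGraph V} (f : HW G) (T : Finset V) (g : W G) :
    bD G f (T, g) = bdry (fun T g => f (T, g)) T g := by
  have hok : ∀ s : V, PullOk (fun q : Finset V × W G => (insert s q.1, q.2))
      (fun q => if s ∈ q.1 then (0 : ℝ) else sg q.1 s) := by
    intro s
    refine ⟨fun q => ?_, fun x y hx hy h => ?_⟩
    · change |if s ∈ q.1 then (0 : ℝ) else sg q.1 s| ≤ 1
      split_ifs
      · simp
      · exact (abs_sg _ _).le
    · have hx' : s ∉ x.1 := fun h1 => hx (if_pos h1)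
      have hy' : s ∉ y.1 := fun h1 => hy (if_pos h1)
      have h1 := congrArg Prod.fst h
      have h2 := congrArg Prod.snd h
      refine Prod.ext ?_ h2
      have h3 := congrArg (fun T : Finset V => T.erase s) h1
      simpa [Finset.erase_insert hx', Finset.erase_insert hy'] using h3
  unfold bD bdry
  rw [_root_.sum_apply, ell_sum, ← Finset.sum_add_sum_compl Tᶜ]
  have e : ∑ s ∈ Tᶜᶜ, pull (fun q : Finset V × W G => (insert s q.1, q.2))
      (fun q => if s ∈ q.1 then (0 : ℝ) else sg q.1 s) f (T, g) = 0 := by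
    refine Finset.sum_eq_zero fun s hs => ?_
    rw [pull_apply (hok s)]
    have h1 : s ∈ T := by simpa using hs
    simp [h1]
  rw [e, add_zero]
  refine Finset.sum_congr rfl fun s hs => ?_
  rw [pull_apply (hok s)]
  have h1 : s ∉ T := by simpa using hs
  simp [h1]

/-- Harmonic chains. -/
noncomputable def HH (G : SimpleGraph V) (S : Finset V) (j : ℕ) : Submodule ℝ (HW G) :=
  CC G S j ⊓ kr (bD G) ⊓ (im (bD G) (CC G S (j + 1)))ᗮ

/-- Betti numbers. -/
noncomputable def bb (G : SimpleGraph V) (S : Finset V) (j : ℕ) : ℝ := dm (HH G S j)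

/-- The subgroup generated by `S`. -/
noncomputable def WS {V : Type} (G : SimpleGraph V) (S : Finset V) : Subgroup (W G) :=
  Subgroup.closure (sm G '' (S : Set V))

/-- The kernel of the map from the harmonic chains of `A ∩ B` to those of `A` and of `B`. -/
noncomputable def KK (G : SimpleGraph V) (A B : Finset V) (j : ℕ) : Submodule ℝ (HW G) :=
  HH G (A ∩ B) j ⊓ kr (PP (HH G A j)) ⊓ kr (PP (HH G B j))

/-- No edges between `A \ B` and `B \ A`. -/
def NoE {V : Type} (G : SimpleGraph V) (A B : Finset V) : Prop :=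
  ∀ x ∈ A, x ∉ B → ∀ y ∈ B, y ∉ A → ¬ G.Adj x y

end SCS
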