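import Pool.Agent.SCS.Chn

/-!
# Project SCS (architect helper40), module Chn2: elementary properties of the chain spaces

* `eqv_bD`: `bD_apply`, `lam_apply`; the translation only acts on the group variable.
* `bD_bD`: `(bD (bD f)) (T, g) = ∑_{s ∉ T} ∑_{t ∉ T ∪ s} sg T s * sg (T ∪ s) t * f (T ∪ {s, t}, g)`
  and `sg T s * sg (insert s T) t = - sg T t * sg (insert t T) s` for `s ≠ t`, `s, t ∉ T`
  (for `s < t` the set `insert s T` has one more element below `t`, and `insert t T` has as many
  elements below `s` as `T`); `Finset.sum_involution` or swap of the double sum.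
* `bD_mem`: support: if `insert s T` is a clique in `S` with `j + 1` elements, `s ∉ T`, then `T` is a
  clique in `S` with `j` elements; alternating: `t ∈ T` is in `insert s T`.
* `bD_zero`: there is no `T` with `insert s T` of cardinality `0`.
* `closed_CC`: all conditions are closed conditions on coordinates (`ell_cont`); `inv_CC`:
  `lam g f (T, h * sm s) = f (T, g⁻¹ * (h * sm s))`.
* `CC_inf`: `T ⊆ A ∩ B ↔ T ⊆ A ∧ T ⊆ B` (for `f` in both spaces and `T` not a clique in `A ∩ B`: it is
  not a clique in `A` or not in `B`).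
* `CC_sup`: `≥` is `CC_mono`.  `≤`: `f₁ = pull id (indicator of {q | q.1 ⊆ A}) f ∈ CC A j` and
  `f₂ = f - f₁ ∈ CC B j`: if `f₂ (T, g) ≠ 0`, then `T ⊆ A ∪ B` is a clique not contained in `A`, there is
  `y ∈ T`, `y ∈ B`, `y ∉ A`, and every other `x ∈ T` is adjacent to `y`, so `x ∉ A \ B` by `NoE`,
  i.e. `x ∈ B`.
* `closed_HH`, `inv_HH`: `Inv.inf`, `Inv.orth`, `Eqv.invKr`, `Inv.map`; `Submodule.isClosed_orthogonal`.
* `cyc_eq`: for `f ∈ CC S j` with `bD f = 0` put
  `y = PP (im (bD) (CC S (j+1))) f`; `y` is in the closure of the image, which is contained in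
  `CC S j ⊓ ker bD` (closed; `bD_mem`, `bD_bD`), so `f - y ∈ HH`.
-/

namespace SCS

open SNG Finset
open scoped InnerProductSpace

variable {V : Type} [Fintype V] [LinearOrder V] {G : SimpleGraph V}

private theorem sg_insert69 {T : Finset V} {s t : V} (hs : s ∉ T) :
    sg (insert s T) t = if s < t then - sg T t else sg T t := by
  unfold sg
  rw [Finset.filter_insert]
  split_ifs with h
  · rw [Finset.card_insert_of_notMem (fun h1 => hs (Finset.mem_filter.1 h1).1), pow_succ]
    ring
  · rfl

private theorem sg_swap69 {T : Finset V} {s t : V} (hs : s ∉ T) (ht : t ∉ T) (hst : s ≠ t) :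
    sg T s * sg (insert s T) t = - (sg T t * sg (insert t T) s) := by
  rw [sg_insert69 hs, sg_insert69 ht]
  rcases lt_or_gt_of_ne hst with h | h
  · rw [if_pos h, if_neg (not_lt.2 h.le)]
    ring
  · rw [if_neg (not_lt.2 h.le), if_pos h]
    ring

private theorem bD_val69 (f : HW G) (T : Finset V) (g : W G) :
    bD G f (T, g) = ∑ s ∈ Tᶜ, sg T s * f (insert s T, g) := bD_apply f T g

theorem eqv_bD : Eqv (bD G) := by
  intro g x
  refine ell_ext fun q => ?_
  obtain ⟨T, h⟩ := q
  rw [lam_apply, bD_val69, bD_val69]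
  refine Finset.sum_congr rfl fun s _ => ?_
  rw [lam_apply]

theorem bD_bD (f : HW G) : bD G (bD G f) = 0 := by
  classical
  refine ell_ext fun q => ?_
  obtain ⟨T, g⟩ := q
  rw [ell_zero, bD_val69]
  let F : V → V → ℝ := fun s t => if s ∉ T ∧ t ∉ T ∧ s ≠ t then
    sg T s * sg (insert s T) t * f (insert t (insert s T), g) else 0
  have h1 : ∑ s ∈ Tᶜ, sg T s * bD G f (insert s T, g) = ∑ s : V, ∑ t : V, F s t := by
    rw [← Finset.sum_subset (Finset.subset_univ Tᶜ)]
    · refine Finset.sum_congr rfl fun s hs => ?_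
      have hs' : s ∉ T := by simpa using hs
      rw [bD_val69]
      rw [Finset.mul_sum, ← Finset.sum_subset (Finset.subset_univ (insert s T)ᶜ)]
      · refine Finset.sum_congr rfl fun t ht => ?_
        have ht' : t ≠ s ∧ t ∉ T := by simpa [not_or] using ht
        have h2 : s ∉ T ∧ t ∉ T ∧ s ≠ t := ⟨hs', ht'.2, ht'.1.symm⟩
        change _ = if _ then _ else _
        rw [if_pos h2]
        ring
      · intro t _ ht
        have ht' : t = s ∨ t ∈ T := by
          by_contra h3
          exact ht (by simpa [not_or] using h3)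
        change (if _ then _ else _) = (0 : ℝ)
        rw [if_neg]
        rintro ⟨_, h4, h5⟩
        rcases ht' with h6 | h6
        · exact h5 h6.symm
        · exact h4 h6
    · intro s _ hs
      have hs' : s ∈ T := by
        by_contra h3
        exact hs (by simpa using h3)
      refine Finset.sum_eq_zero fun t _ => ?_
      change (if _ then _ else _) = (0 : ℝ)
      rw [if_neg]
      exact fun h4 => h4.1 hs'
  have hFp : ∀ s t, (s ∉ T ∧ t ∉ T ∧ s ≠ t) →
      F s t = sg T s * sg (insert s T) t * f (insert t (insert s T), g) := fun s t h => if_pos h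
  have hFn : ∀ s t, ¬ (s ∉ T ∧ t ∉ T ∧ s ≠ t) → F s t = 0 := fun s t h => if_neg h
  have h2 : ∀ s t, F s t = - F t s := by
    intro s t
    by_cases h3 : s ∉ T ∧ t ∉ T ∧ s ≠ t
    · have h4 : t ∉ T ∧ s ∉ T ∧ t ≠ s := ⟨h3.2.1, h3.1, h3.2.2.symm⟩
      rw [hFp s t h3, hFp t s h4, sg_swap69 h3.1 h3.2.1 h3.2.2, Finset.insert_comm t s T]
      ring
    · have h4 : ¬ (t ∉ T ∧ s ∉ T ∧ t ≠ s) := fun h5 => h3 ⟨h5.2.1, h5.1, h5.2.2.symm⟩
      rw [hFn s t h3, hFn t s h4, neg_zero]
  have h3 : ∑ s : V, ∑ t : V, F s t = - ∑ s : V, ∑ t : V, F s t := by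
    conv_lhs => rw [Finset.sum_comm]
    rw [← Finset.sum_neg_distrib]
    refine Finset.sum_congr rfl fun s _ => ?_
    rw [← Finset.sum_neg_distrib]
    exact Finset.sum_congr rfl fun t _ => h2 t s
  rw [h1]
  linarith

theorem bD_mem {S : Finset V} {j : ℕ} {f : HW G} (hf : f ∈ CC G S (j + 1)) : bD G f ∈ CC G S j := by
  rw [mem_CC] at hf ⊢
  obtain ⟨hf1, hf2⟩ := hf
  refine ⟨fun T hT g => ?_, fun T s hs g => ?_⟩
  · rw [bD_val69]
    refine Finset.sum_eq_zero fun s hs => ?_
    have hs' : s ∉ T := by simpa using hs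
    rw [hf1 (insert s T), mul_zero]
    rintro ⟨h1, h2, h3⟩
    refine hT ⟨(Finset.subset_insert s T).trans h1, h2.subset ?_, ?_⟩
    · exact_mod_cast Finset.subset_insert s T
    · rw [Finset.card_insert_of_notMem hs'] at h3
      omega
  · rw [bD_val69, bD_val69]
    rw [← Finset.sum_neg_distrib]
    refine Finset.sum_congr rfl fun t _ => ?_
    rw [hf2 (insert t T) s (Finset.mem_insert_of_mem hs) g]
    ring

theorem bD_zero {S : Finset V} {f : HW G} (hf : f ∈ CC G S 0) : bD G f = 0 := by
  rw [mem_CC] at hf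
  refine ell_ext fun q => ?_
  obtain ⟨T, g⟩ := q
  rw [ell_zero, bD_val69]
  refine Finset.sum_eq_zero fun s _ => ?_
  rw [hf.1 (insert s T), mul_zero]
  rintro ⟨_, _, h3⟩
  rw [Finset.card_eq_zero] at h3
  exact Finset.insert_ne_empty s T h3

theorem closed_CC (S : Finset V) (j : ℕ) : IsClosed (CC G S j : Set (HW G)) := by
  have h : (CC G S j : Set (HW G)) =
      (⋂ T : Finset V, ⋂ (_ : ¬ (T ⊆ S ∧ G.IsClique (T : Set V) ∧ T.card = j)), ⋂ g : W G,
        {f : HW G | f (T, g) = 0}) ∩
      (⋂ T : Finset V, ⋂ s : V, ⋂ (_ : s ∈ T), ⋂ g : W G,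
        {f : HW G | f (T, g * sm G s) = - f (T, g)}) := by
    ext f
    simp only [SetLike.mem_coe, mem_CC, Set.mem_inter_iff, Set.mem_iInter, Set.mem_ofPred_eq]
  rw [h]
  refine IsClosed.inter ?_ ?_
  · refine isClosed_iInter fun T => isClosed_iInter fun _ => isClosed_iInter fun g => ?_
    exact isClosed_eq (ell_cont _) continuous_const
  · refine isClosed_iInter fun T => isClosed_iInter fun s => isClosed_iInter fun _ =>
      isClosed_iInter fun g => ?_
    exact isClosed_eq (ell_cont _) (ell_cont _).neg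

theorem inv_CC (S : Finset V) (j : ℕ) : Inv (CC G S j) := by
  intro g f hf
  rw [mem_CC] at hf ⊢
  obtain ⟨hf1, hf2⟩ := hf
  refine ⟨fun T hT h => ?_, fun T s hs h => ?_⟩
  · rw [lam_apply]
    exact hf1 T hT _
  · rw [lam_apply, lam_apply]
    have h1 := hf2 T s hs (g⁻¹ * h)
    rw [mul_assoc] at h1
    exact h1

theorem CC_mono {S S' : Finset V} (h : S ⊆ S') (j : ℕ) : CC G S j ≤ CC G S' j := by
  intro f hf
  rw [mem_CC] at hf ⊢
  exact ⟨fun T hT g => hf.1 T (fun h1 => hT ⟨h1.1.trans h, h1.2⟩) g, hf.2⟩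

theorem CC_inf (A B : Finset V) (j : ℕ) : CC G (A ∩ B) j = CC G A j ⊓ CC G B j := by
  apply le_antisymm
  · exact le_inf (CC_mono Finset.inter_subset_left j) (CC_mono Finset.inter_subset_right j)
  · rintro f ⟨hA, hB⟩
    rw [SetLike.mem_coe, mem_CC] at hA hB
    rw [mem_CC]
    refine ⟨fun T hT g => ?_, hA.2⟩
    by_cases h1 : T ⊆ A ∧ G.IsClique (T : Set V) ∧ T.card = j
    · exact hB.1 T (fun h2 => hT ⟨Finset.subset_inter h1.1 h2.1, h1.2⟩) g
    · exact hA.1 T h1 g

theorem CC_sup {A B : Finset V} (h : NoE G A B) (j : ℕ) :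
    CC G (A ∪ B) j = CC G A j ⊔ CC G B j := by
  classical
  apply le_antisymm
  · intro f hf
    rw [mem_CC] at hf
    obtain ⟨hf1, hf2⟩ := hf
    have hok : PullOk id (fun q : Finset V × W G => if q.1 ⊆ A then (1 : ℝ) else 0) := by
      refine pullOk_id fun x => ?_
      split_ifs <;> simp
    set f1 : HW G := pull id (fun q : Finset V × W G => if q.1 ⊆ A then (1 : ℝ) else 0) f with hf1d
    have hv : ∀ T g, f1 (T, g) = if T ⊆ A then f (T, g) else 0 := by
      intro T g
      rw [hf1d, pull_apply hok]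
      change (if T ⊆ A then (1 : ℝ) else 0) * f (T, g) = _
      split_ifs <;> simp
    have hw : ∀ T g, (f - f1) (T, g) = if T ⊆ A then 0 else f (T, g) := by
      intro T g
      rw [ell_sub, hv]
      split_ifs <;> simp
    rw [Submodule.mem_sup]
    refine ⟨f1, ?_, f - f1, ?_, add_sub_cancel _ _⟩
    · rw [mem_CC]
      refine ⟨fun T hT g => ?_, fun T s hs g => ?_⟩
      · rw [hv]
        split_ifs with h1
        · refine hf1 T (fun h2 => hT ⟨h1, h2.2⟩) g
        · rfl
      · rw [hv, hv]
        split_ifs with h1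
        · exact hf2 T s hs g
        · rw [neg_zero]
    · rw [mem_CC]
      refine ⟨fun T hT g => ?_, fun T s hs g => ?_⟩
      · rw [hw]
        split_ifs with h1
        · rfl
        · refine hf1 T (fun h2 => hT ⟨?_, h2.2⟩) g
          obtain ⟨y, hyT, hyA⟩ := Finset.not_subset.1 h1
          have hyB : y ∈ B := by
            rcases Finset.mem_union.1 (h2.1 hyT) with h3 | h3
            · exact absurd h3 hyA
            · exact h3
          intro x hxT
          by_contra hxB
          have hxA : x ∈ A := by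
            rcases Finset.mem_union.1 (h2.1 hxT) with h3 | h3
            · exact h3
            · exact absurd h3 hxB
          have hxy : x ≠ y := fun h3 => hyA (h3 ▸ hxA)
          exact h x hxA hxB y hyB hyA (h2.2.1 (Finset.mem_coe.2 hxT) (Finset.mem_coe.2 hyT) hxy)
      · rw [hw, hw]
        split_ifs with h1
        · rw [neg_zero]
        · exact hf2 T s hs g
  · exact sup_le (CC_mono Finset.subset_union_left j) (CC_mono Finset.subset_union_right j)

theorem closed_HH (S : Finset V) (j : ℕ) : IsClosed (HH G S j : Set (HW G)) := by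
  unfold HH
  exact ((closed_CC S j).inter (kr_closed _)).inter (Submodule.isClosed_orthogonal _)

theorem inv_HH (S : Finset V) (j : ℕ) : Inv (HH G S j) := by
  unfold HH
  exact ((inv_CC S j).inf eqv_bD.invKr).inf ((inv_CC S (j + 1)).map eqv_bD).orth

/-- The closure of the boundaries and the harmonic chains span the cycles. -/
theorem cyc_eq (S : Finset V) (j : ℕ) :
    CC G S j ⊓ kr (bD G) = (im (bD G) (CC G S (j + 1))).topologicalClosure ⊔ HH G S j := by
  have h1 : im (bD G) (CC G S (j + 1)) ≤ CC G S j ⊓ kr (bD G) := by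
    intro y hy
    obtain ⟨x, hx, rfl⟩ := mem_im.1 hy
    exact ⟨bD_mem hx, mem_kr.2 (bD_bD x)⟩
  have h2 : (im (bD G) (CC G S (j + 1))).topologicalClosure ≤ CC G S j ⊓ kr (bD G) :=
    Submodule.topologicalClosure_minimal _ h1 ((closed_CC S j).inter (kr_closed _))
  apply le_antisymm
  · intro f hf
    rw [Submodule.mem_sup]
    refine ⟨PP (im (bD G) (CC G S (j + 1))) f, PP_mem _ f,
      f - PP (im (bD G) (CC G S (j + 1))) f, ?_, add_sub_cancel _ _⟩
    unfold HH
    refine ⟨Submodule.sub_mem _ hf (h2 (PP_mem _ f)), ?_⟩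
    rw [SetLike.mem_coe, Submodule.mem_orthogonal']
    exact fun y hy => PP_sub _ f y hy
  · refine sup_le h2 ?_
    unfold HH
    exact inf_le_left

end SCS
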