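import Pool.Agent.SCS.Chn2

/-!
# Project SCS (architect helper40), module Chn3: harmonic chains in coordinates

`mem_HH`.  `bD f = 0` is the second condition by `bD_apply`.  Let `f ∈ CC S j`.  For `h ∈ CC S (j+1)`:

`⟪bD h, f⟫ = ∑'_(T,g) ∑_{s ∉ T} sg T s * h (insert s T, g) * f (T, g)
          = ∑_U ∑_{s ∈ U} ∑'_g sg (U.erase s) s * h (U, g) * f (U.erase s, g)`   (U = insert s T)

and for `s ∈ U`, since `h (U, g * s) = - h (U, g)` and `g ↦ g * s` is a bijection (an involution),
`∑'_g h (U, g) * f (U.erase s, g) = (1/2) ∑'_g h (U, g) * (f (U.erase s, g) - f (U.erase s, g * s))`.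
So `⟪bD h, f⟫ = (1/2) ∑_U ∑'_g h (U, g) * (cobd f U g)`.   (*)   (All sums over `g` are summable: products
of square summable functions.)

(⇐) if `cobd f U g = 0` for all cliques `U ⊆ S`, then (*) is `0` for all `h ∈ CC S (j+1)` (`h (U, ·) = 0`
for the other `U`), so `f ∈ (im bD (CC S (j+1)))ᗮ`.
(⇒) Let `h (U, g) = cobd f U g` if `U ⊆ S` is a clique with `j + 1` elements and `0` otherwise.  It is
square summable (finite sum of square summable functions), and alternating: for `s ∈ U`
(`sm s * sm s = 1`; `sm s * sm t = sm t * sm s` for adjacent `s, t`):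
the term `t = s` of `cobd f U (g * s)` is `± (f (U - s, g s) - f (U - s, g))`, the term `t ≠ s` is
`± (f (U - t, g s) - f (U - t, g s t)) = ∓ (f (U - t, g) - f (U - t, g t))` as `s ∈ U - t`.
So `h ∈ CC S (j+1)` and (*) gives `0 = ⟪bD h, f⟫ = (1/2) ‖h‖²`, `h = 0`.  For cliques `U ⊆ S` with a
number of elements different from `j + 1` all `f (U.erase s, ·)` vanish (wrong cardinality).

`sm_mul_self`, `sm_comm`: relations of the Coxeter group (`(raM G).toCoxeterSystem.simple_mul_simple_self`,
and `(sm s * sm t) ^ 2 = 1` because `raM G s t = 2`).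
-/

namespace SCS

open SNG Finset
open scoped InnerProductSpace

variable {V : Type} {G : SimpleGraph V}

theorem sm_mul_self (s : V) : sm G s * sm G s = 1 :=
  (raM G).toCoxeterSystem.simple_mul_simple_self s

theorem sm_comm {s t : V} (h : G.Adj s t) : sm G s * sm G t = sm G t * sm G s := by
  have h1 : (sm G s * sm G t) ^ (raM G s t) = 1 := (raM G).toCoxeterSystem.simple_mul_simple_pow s t
  have h2 : raM G s t = 2 := by
    have e : (raM G).M s t = 2 := by
      simp [raM, h, G.ne_of_adj h]
    exact e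
  rw [h2, pow_two] at h1
  have hs := sm_mul_self (G := G) s
  have ht := sm_mul_self (G := G) t
  calc sm G s * sm G t = sm G s * sm G t * (sm G s * (sm G t * sm G t) * sm G s) := by
        rw [ht, mul_one, hs, mul_one]
    _ = (sm G s * sm G t * (sm G s * sm G t)) * (sm G t * sm G s) := by
        simp only [mul_assoc]
    _ = sm G t * sm G s := by rw [h1, one_mul]

/-- products of rows of square summable functions are summable -/
theorem row_summable (x y : HW G) (U T : Finset V) (u : W G) :
    Summable fun g => x (U, g) * y (T, g * u) := by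
  have hx : Summable fun g => x (U, g) ^ 2 := (ell_summable x).prod_factor U
  have hy : Summable fun g => y (T, g) ^ 2 := (ell_summable y).prod_factor T
  have hy' : Summable fun g => y (T, g * u) ^ 2 := (Equiv.mulRight u).summable_iff.2 hy
  refine Summable.of_norm_bounded (hx.add hy') fun g => ?_
  rw [Real.norm_eq_abs, abs_mul]
  nlinarith [sq_nonneg (|x (U, g)| - |y (T, g * u)|), sq_abs (x (U, g)), sq_abs (y (T, g * u)),
    abs_nonneg (x (U, g)), abs_nonneg (y (T, g * u))]

theorem row_summable' (x y : HW G) (U T : Finset V) :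
    Summable fun g => x (U, g) * y (T, g) := by
  have h := row_summable x y U T 1
  simpa using h

variable [Fintype V] [LinearOrder V]

omit [LinearOrder V] in
theorem inner_rows (x y : HW G) : ⟪x, y⟫_ℝ = ∑ T : Finset V, ∑' g, x (T, g) * y (T, g) := by
  rw [ell_inner, (ell_hasSum x y).summable.tsum_prod, tsum_fintype]

/-- the row pairing -/
noncomputable def rw2 (x y : HW G) (U T : Finset V) : ℝ := ∑' g, x (U, g) * y (T, g)

theorem sum_flip (F : Finset V → V → ℝ) :
    ∑ T : Finset V, ∑ s ∈ Tᶜ, F T s = ∑ U : Finset V, ∑ s ∈ U, F (U.erase s) s := by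
  rw [Finset.sum_sigma', Finset.sum_sigma']
  refine Finset.sum_bij' (fun a _ => ⟨insert a.2 a.1, a.2⟩) (fun a _ => ⟨a.1.erase a.2, a.2⟩) ?_ ?_ ?_ ?_ ?_
  · rintro ⟨T, s⟩ h
    simp
  · rintro ⟨T, s⟩ h
    simp
  · rintro ⟨T, s⟩ h
    have h1 : s ∉ T := by simpa using h
    simp [Finset.erase_insert h1]
  · rintro ⟨T, s⟩ h
    have h1 : s ∈ T := by simpa using h
    simp [Finset.insert_erase h1]
  · rintro ⟨T, s⟩ h
    have h1 : s ∉ T := by simpa using h
    simp [Finset.erase_insert h1]

theorem inner_bD (h f : HW G) :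
    ⟪bD G h, f⟫_ℝ = ∑ U : Finset V, ∑ s ∈ U, sg (U.erase s) s * rw2 h f U (U.erase s) := by
  have e : ∀ T : Finset V, ∑' g, bD G h (T, g) * f (T, g) =
      ∑ s ∈ Tᶜ, sg T s * rw2 h f (insert s T) T := by
    intro T
    have e1 : ∀ g, bD G h (T, g) * f (T, g) =
        ∑ s ∈ Tᶜ, sg T s * (h (insert s T, g) * f (T, g)) := by
      intro g
      rw [bD_apply, bdry, Finset.sum_mul]
      exact Finset.sum_congr rfl fun s _ => by ring
    simp_rw [e1]
    rw [Summable.tsum_finsetSum fun s _ => (row_summable' h f (insert s T) T).mul_left _]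
    refine Finset.sum_congr rfl fun s _ => ?_
    rw [tsum_mul_left, rw2]
  rw [inner_rows]
  simp_rw [e]
  rw [sum_flip fun T s => sg T s * rw2 h f (insert s T) T]
  refine Finset.sum_congr rfl fun U _ => Finset.sum_congr rfl fun s hs => ?_
  rw [Finset.insert_erase hs]

omit [Fintype V] [LinearOrder V] in
theorem rw2_half {S : Finset V} {i : ℕ} {h : HW G} (hh : h ∈ CC G S i) (f : HW G) (U T : Finset V)
    {s : V} (hs : s ∈ U) :
    rw2 h f U T = (1 / 2) * ∑' g, h (U, g) * (f (T, g) - f (T, g * sm G s)) := by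
  have h1 : rw2 h f U T = - ∑' g, h (U, g) * f (T, g * sm G s) := by
    have e : ∀ g, h (U, g * sm G s) * f (T, g * sm G s) = - (h (U, g) * f (T, g * sm G s)) := by
      intro g
      rw [hh.2 U s hs]
      ring
    rw [rw2, ← (Equiv.mulRight (sm G s)).tsum_eq, ← tsum_neg]
    exact tsum_congr e
  have h2 : ∑' g, h (U, g) * (f (T, g) - f (T, g * sm G s)) =
      rw2 h f U T - ∑' g, h (U, g) * f (T, g * sm G s) := by
    rw [rw2, ← Summable.tsum_sub (row_summable' h f U T) (row_summable h f U T _)]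
    exact tsum_congr fun g => by ring
  rw [h2]
  linarith

/-- `(*)` -/
theorem inner_bD_cobd {S : Finset V} {i : ℕ} {h : HW G} (hh : h ∈ CC G S i) (f : HW G) :
    ⟪bD G h, f⟫_ℝ = (1 / 2) * ∑ U : Finset V, ∑' g, h (U, g) *
      cobd (sm G) (fun T g => f (T, g)) U g := by
  rw [inner_bD, Finset.mul_sum]
  refine Finset.sum_congr rfl fun U _ => ?_
  have e1 : ∀ g, h (U, g) * cobd (sm G) (fun T g => f (T, g)) U g =
      ∑ s ∈ U, sg (U.erase s) s * (h (U, g) * (f (U.erase s, g) - f (U.erase s, g * sm G s))) := by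
    intro g
    rw [cobd, Finset.mul_sum]
    exact Finset.sum_congr rfl fun s _ => by ring
  simp_rw [e1]
  rw [Summable.tsum_finsetSum, Finset.mul_sum]
  · refine Finset.sum_congr rfl fun s hs => ?_
    rw [tsum_mul_left, rw2_half hh f U _ hs]
    ring
  · intro s _
    refine Summable.mul_left _ ?_
    have h3 := (row_summable' h f U (U.erase s)).sub (row_summable h f U (U.erase s) (sm G s))
    refine h3.congr fun g => ?_
    ring

open Classical in
/-- The coboundary, restricted to the cliques of `S` with `i` elements. -/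
noncomputable def cB (G : SimpleGraph V) (S : Finset V) (i : ℕ) (f : HW G) : HW G :=
  ∑ s : V, pull (fun q : Finset V × W G => (q.1.erase s, q.2))
    (fun q => if s ∈ q.1 ∧ q.1 ⊆ S ∧ G.IsClique (q.1 : Set V) ∧ q.1.card = i
      then sg (q.1.erase s) s else 0) (f - rt (sm G s) f)

open Classical in
theorem cB_apply (S : Finset V) (i : ℕ) (f : HW G) (U : Finset V) (g : W G) :
    cB G S i f (U, g) = if U ⊆ S ∧ G.IsClique (U : Set V) ∧ U.card = i then
      cobd (sm G) (fun T g => f (T, g)) U g else 0 := by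
  have hok : ∀ s : V, PullOk (fun q : Finset V × W G => (q.1.erase s, q.2))
      (fun q => if s ∈ q.1 ∧ q.1 ⊆ S ∧ G.IsClique (q.1 : Set V) ∧ q.1.card = i
        then sg (q.1.erase s) s else 0) := by
    intro s
    refine ⟨fun q => ?_, fun x y hx hy h => ?_⟩
    · dsimp only
      split_ifs
      · exact (abs_sg _ _).le
      · simp
    · have hx' : s ∈ x.1 := by
        by_contra h1
        exact hx (if_neg fun h2 => h1 h2.1)
      have hy' : s ∈ y.1 := by
        by_contra h1
        exact hy (if_neg fun h2 => h1 h2.1)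
      have h1 := congrArg Prod.fst h
      have h2 := congrArg Prod.snd h
      refine Prod.ext ?_ h2
      have h3 := congrArg (fun T : Finset V => insert s T) h1
      simpa [Finset.insert_erase hx', Finset.insert_erase hy'] using h3
  rw [cB, ell_sum, ← Finset.sum_add_sum_compl U]
  have e : ∑ s ∈ Uᶜ, pull (fun q : Finset V × W G => (q.1.erase s, q.2))
      (fun q => if s ∈ q.1 ∧ q.1 ⊆ S ∧ G.IsClique (q.1 : Set V) ∧ q.1.card = i
        then sg (q.1.erase s) s else 0) (f - rt (sm G s) f) (U, g) = 0 := by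
    refine Finset.sum_eq_zero fun s hs => ?_
    rw [pull_apply (hok s)]
    have h1 : s ∉ U := by simpa using hs
    simp [h1]
  rw [e, add_zero]
  by_cases hU : U ⊆ S ∧ G.IsClique (U : Set V) ∧ U.card = i
  · rw [if_pos hU, cobd]
    refine Finset.sum_congr rfl fun s hs => ?_
    rw [pull_apply (hok s)]
    dsimp only
    rw [if_pos ⟨hs, hU⟩, ell_sub, rt_apply]
  · rw [if_neg hU]
    refine Finset.sum_eq_zero fun s hs => ?_
    rw [pull_apply (hok s)]
    dsimp only
    rw [if_neg fun h2 => hU h2.2, zero_mul]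

omit [Fintype V] in
theorem cobd_alt {S : Finset V} {j : ℕ} {f : HW G} (hf : f ∈ CC G S j) {U : Finset V}
    (hU : G.IsClique (U : Set V)) {s : V} (hs : s ∈ U) (g : W G) :
    cobd (sm G) (fun T g => f (T, g)) U (g * sm G s) =
      - cobd (sm G) (fun T g => f (T, g)) U g := by
  rw [cobd, cobd, ← Finset.sum_neg_distrib]
  refine Finset.sum_congr rfl fun t ht => ?_
  by_cases hst : t = s
  · subst hst
    have e : g * sm G t * sm G t = g := by rw [mul_assoc, sm_mul_self, mul_one]
    rw [e]
    ring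
  · have hs' : s ∈ U.erase t := Finset.mem_erase.2 ⟨fun h => hst h.symm, hs⟩
    have hadj : G.Adj s t := hU (Finset.mem_coe.2 hs) (Finset.mem_coe.2 ht) fun h => hst h.symm
    have e : g * sm G s * sm G t = g * sm G t * sm G s := by
      rw [mul_assoc, sm_comm hadj, mul_assoc]
    rw [e, hf.2 (U.erase t) s hs' g, hf.2 (U.erase t) s hs' (g * sm G t)]
    ring

theorem cB_mem {S : Finset V} {j : ℕ} {f : HW G} (hf : f ∈ CC G S j) (i : ℕ) :
    cB G S i f ∈ CC G S i := by
  classical
  refine mem_CC.2 ⟨fun T hT g => ?_, fun T s hs g => ?_⟩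
  · rw [cB_apply, if_neg hT]
  · rw [cB_apply, cB_apply]
    split_ifs with h
    · exact cobd_alt hf h.2.1 hs g
    · rw [neg_zero]

theorem mem_HH {S : Finset V} {j : ℕ} {f : HW G} : f ∈ HH G S j ↔ f ∈ CC G S j ∧
    (∀ T g, bdry (fun T g => f (T, g)) T g = 0) ∧
    ∀ T : Finset V, T ⊆ S → G.IsClique (T : Set V) → ∀ g,
      cobd (sm G) (fun T g => f (T, g)) T g = 0 := by
  classical
  constructor
  · rintro ⟨⟨hf, hk⟩, ho⟩
    refine ⟨hf, fun T g => ?_, fun T hTS hT g => ?_⟩
    · rw [← bD_apply, mem_kr.1 hk, ell_zero]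
    · by_cases hc : T.card = j + 1
      · have h1 := cB_mem hf (j + 1)
        have h2 : ⟪bD G (cB G S (j + 1) f), f⟫_ℝ = 0 := by
          exact (Submodule.mem_orthogonal _ _).1 ho _ (mem_im.2 ⟨_, h1, rfl⟩)
        rw [inner_bD_cobd h1] at h2
        have h3 : ∑ U : Finset V, ∑' g, cB G S (j + 1) f (U, g) *
            cobd (sm G) (fun T g => f (T, g)) U g = ‖cB G S (j + 1) f‖ ^ 2 := by
          rw [← real_inner_self_eq_norm_sq, inner_rows]
          refine Finset.sum_congr rfl fun U _ => tsum_congr fun g => ?_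
          rw [cB_apply]
          split_ifs <;> simp
        rw [h3] at h2
        have h4 : cB G S (j + 1) f = 0 := by
          have h5 : ‖cB G S (j + 1) f‖ ^ 2 = 0 := by linarith
          exact norm_eq_zero.1 (pow_eq_zero_iff (two_ne_zero)|>.1 h5)
        have h5 := cB_apply S (j + 1) f T g
        rw [h4, ell_zero, if_pos ⟨hTS, hT, hc⟩] at h5
        exact h5.symm
      · rw [cobd]
        refine Finset.sum_eq_zero fun s hs => ?_
        have h1 : ¬ (T.erase s ⊆ S ∧ G.IsClique ((T.erase s : Finset V) : Set V) ∧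
            (T.erase s).card = j) := by
          rintro ⟨_, _, h3⟩
          rw [Finset.card_erase_of_mem hs] at h3
          have h4 : 0 < T.card := Finset.card_pos.2 ⟨s, hs⟩
          omega
        rw [hf.1 _ h1, hf.1 _ h1]
        ring
  · rintro ⟨hf, hb, hc⟩
    refine ⟨⟨hf, mem_kr.2 (ell_ext ?_)⟩, ?_⟩
    · rintro ⟨T, g⟩
      rw [bD_apply, hb, ell_zero]
    · refine (Submodule.mem_orthogonal _ _).2 ?_
      rintro _ ⟨h, hh, rfl⟩
      change ⟪bD G h, f⟫_ℝ = 0
      rw [inner_bD_cobd hh]
      have h1 : ∀ U : Finset V, ∑' g, h (U, g) * cobd (sm G) (fun T g => f (T, g)) U g = 0 := by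
        intro U
        have h2 : ∀ g, h (U, g) * cobd (sm G) (fun T g => f (T, g)) U g = 0 := by
          intro g
          by_cases hU : U ⊆ S ∧ G.IsClique (U : Set V) ∧ U.card = j + 1
          · rw [hc U hU.1 hU.2.1 g, mul_zero]
          · rw [hh.1 U hU g, zero_mul]
        simp [h2]
      simp [h1]

end SCS
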