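import Pool.Agent.SCS.Loc

/-!
# Project SCS (architect helper40), module Cone1: harmonic chains of cones

Let `c ∉ Y` be adjacent to all elements of `Y`, `cY = insert c Y`, `R = rt (sm G c)` (`R² = 1`, `R`
symmetric by `rt_inner`, `(sm c)⁻¹ = sm c`).

`hh_cone_iff` (use `mem_HH` for `cY` and for `Y`).
(⇐) Let `f ∈ HH Y j`, `R f = f`.  `f ∈ CC cY j` (`CC_mono`), `bdry f = 0`.  Let `T ⊆ cY` be a clique.  If
`c ∉ T`, `T ⊆ Y` and `cobd f T = 0`.  If `c ∈ T`: for `s ∈ T`, `s ≠ c` the set `T.erase s` contains `c ∉ Y`,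
so `f (T.erase s, ·) = 0`; the term `s = c` is `± (f (T.erase c, g) - f (T.erase c, g * sm c)) = 0`.
(⇒) Let `f ∈ HH cY j`.  Claim `f = R f`.  Put `h = f - R f`.
 - `h (U, g) = 2 f (U, g)` for `c ∈ U` (alternating), `f` is alternating, so `h ∈ CC cY j`, and
   `bdry h = 0` (`bdry (R f) T g = bdry f T (g * sm c)`).  `cobd h T g = 0` for cliques `T ⊆ cY`
   (`cobd (R f) T g = cobd f T (g * sm c)`, because `sm c` commutes with `sm s` for `s ∈ T`).  So
   `h ∈ HH cY j`.
 - Let `k (U, g) = if c ∈ U then sg (U.erase c) c * (1/2) * (f (U.erase c, g) - f (U.erase c, g * sm c)) else 0`.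
   `k ∈ CC cY (j+1)` (support: if `k (U, ·) ≠ 0`, `U.erase c` is a clique in `cY`, without `c`, so in `Y`,
   so `U` is a clique with `j + 1` elements; alternating under `sm c` and, for `s ∈ U.erase c`, since
   `sm c, sm s` commute).  Claim `bD k = (1/2) • h`.
   At `T ∌ c`: the terms `s ≠ c` of `bdry k T g` vanish (`c ∉ insert s T`), the term `s = c` is
   `sg T c * sg T c * (1/2) (f (T, g) - f (T, g * sm c)) = (1/2) h (T, g)`.
   At `T ∋ c`, `T = insert c T'`, `T' = T.erase c`: `bdry k T g = ∑_{s ∉ T} sg T s * sg (insert s T') c *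
   (1/2) (f (insert s T', g) - f (insert s T', g * sm c))`, and
   `sg (insert c T') s * sg (insert s T') c = - sg T' s * sg T' c` for `s ≠ c`.  As `bdry f T' g = 0`:
   `∑_{s ∉ T} sg T' s * f (insert s T', g) = - sg T' c * f (T, g)` (the term `s = c`), so
   `bdry k T g = (1/2) (f (T, g) - f (T, g * sm c)) = (1/2) h (T, g)`.
 - So `h = 2 • bD k ∈ im bD (CC cY (j+1))` is orthogonal to itself, `h = 0`.
 Now `R f = f`, and for `c ∈ U` `f (U, g) = f (U, g * sm c) = - f (U, g)`, so `f (U, ·) = 0`.  So
 `f ∈ CC Y j`, and the other conditions of `mem_HH` for `Y` are part of those for `cY`.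
-/

namespace SCS

open SNG Finset
open scoped InnerProductSpace

variable {V : Type} [Fintype V] [LinearOrder V] {G : SimpleGraph V}

omit [Fintype V] in
private theorem sg_insert' {T : Finset V} {x s : V} (hx : x ∉ T) :
    sg (insert x T) s = if x < s then - sg T s else sg T s := by
  unfold sg
  rw [Finset.filter_insert]
  split_ifs with h
  · rw [Finset.card_insert_of_notMem (fun h1 => hx (Finset.mem_filter.1 h1).1), pow_succ]
    ring
  · rfl

omit [Fintype V] in
private theorem sg_sq' (T : Finset V) (s : V) : sg T s * sg T s = 1 := by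
  unfold sg
  rw [← pow_add, ← two_mul, pow_mul]
  norm_num

omit [Fintype V] in
private theorem sg_swap' {T' : Finset V} {s c : V} (hs : s ∉ T') (hc : c ∉ T') (hsc : s ≠ c) :
    sg (insert c T') s * sg (insert s T') c = - (sg T' s * sg T' c) := by
  rw [sg_insert' hc, sg_insert' hs]
  rcases lt_or_gt_of_ne hsc with h | h
  · rw [if_neg (not_lt.2 h.le), if_pos h]
    ring
  · rw [if_pos h, if_neg (not_lt.2 h.le)]
    ring

/-- the homotopy -/
private theorem hom_ok (c : V) : PullOk (fun q : Finset V × W G => (q.1.erase c, q.2))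
    (fun q => if c ∈ q.1 then sg (q.1.erase c) c else 0) := by
  refine ⟨fun q => ?_, fun x y hx hy h => ?_⟩
  · change |if c ∈ q.1 then sg (q.1.erase c) c else 0| ≤ 1
    split_ifs
    · exact (abs_sg _ _).le
    · simp
  · have hx' : c ∈ x.1 := by
      by_contra h1
      exact hx (if_neg h1)
    have hy' : c ∈ y.1 := by
      by_contra h1
      exact hy (if_neg h1)
    change (x.1.erase c, x.2) = (y.1.erase c, y.2) at h
    obtain ⟨h1, h2⟩ := Prod.mk.injEq .. ▸ h
    refine Prod.ext ?_ h2
    rw [← Finset.insert_erase hx', ← Finset.insert_erase hy', h1]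

private theorem diff_mem {Y : Finset V} {c : V} (hc : ∀ y ∈ Y, G.Adj c y) {j : ℕ}
    {f : HW G} (hf : f ∈ HH G (insert c Y) j) : f - rt (sm G c) f ∈ HH G (insert c Y) j := by
  obtain ⟨h1, h2, h3⟩ := mem_HH.1 hf
  obtain ⟨a1, a2⟩ := mem_CC.1 h1
  have hcomm : ∀ s ∈ insert c Y, sm G s * sm G c = sm G c * sm G s := by
    intro s hs
    rcases Finset.mem_insert.1 hs with rfl | hs
    · rfl
    · exact (sm_comm (hc s hs)).symm
  refine mem_HH.2 ⟨mem_CC.2 ⟨?_, ?_⟩, ?_, ?_⟩
  · intro T hT g
    rw [ell_sub, rt_apply, a1 T hT, a1 T hT, sub_zero]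
  · intro T s hs g
    by_cases hT : T ⊆ insert c Y ∧ G.IsClique (T : Set V) ∧ T.card = j
    · rw [ell_sub, ell_sub, rt_apply, rt_apply, a2 T s hs]
      show - f (T, g) - f (T, g * sm G s * sm G c) = - (f (T, g) - f (T, g * sm G c))
      rw [mul_assoc, hcomm s (hT.1 hs), ← mul_assoc, a2 T s hs]
      ring
    · rw [ell_sub, ell_sub, rt_apply, rt_apply, a1 T hT, a1 T hT, a1 T hT, a1 T hT]
      ring
  · intro T g
    have e1 := h2 T g
    have e2 := h2 T (g * sm G c)
    unfold bdry at e1 e2 ⊢
    have e3 : ∀ s ∈ Tᶜ, sg T s * (f - rt (sm G c) f) (insert s T, g) =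
        sg T s * f (insert s T, g) - sg T s * f (insert s T, g * sm G c) := by
      intro s _
      rw [ell_sub, rt_apply]
      ring
    rw [Finset.sum_congr rfl e3, Finset.sum_sub_distrib, e1, e2, sub_zero]
  · intro T hT hTc g
    have e1 := h3 T hT hTc g
    have e2 := h3 T hT hTc (g * sm G c)
    unfold cobd at e1 e2 ⊢
    have e3 : ∀ s ∈ T, sg (T.erase s) s * ((f - rt (sm G c) f) (T.erase s, g) -
        (f - rt (sm G c) f) (T.erase s, g * sm G s)) =
        sg (T.erase s) s * (f (T.erase s, g) - f (T.erase s, g * sm G s)) -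
        sg (T.erase s) s * (f (T.erase s, g * sm G c) -
          f (T.erase s, g * sm G c * sm G s)) := by
      intro s hs
      rw [ell_sub, ell_sub, rt_apply, rt_apply]
      show sg (T.erase s) s * (f (T.erase s, g) - f (T.erase s, g * sm G c) -
        (f (T.erase s, g * sm G s) - f (T.erase s, g * sm G s * sm G c))) = _
      rw [mul_assoc g (sm G s), hcomm s (hT hs), ← mul_assoc g (sm G c)]
      ring
    rw [Finset.sum_congr rfl e3, Finset.sum_sub_distrib, e1, e2, sub_zero]

private theorem diff_zero {Y : Finset V} {c : V} (hcY : c ∉ Y) (hc : ∀ y ∈ Y, G.Adj c y) {j : ℕ}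
    {f : HW G} (hf : f ∈ HH G (insert c Y) j) : f - rt (sm G c) f = 0 := by
  obtain ⟨h, hh⟩ : ∃ h : HW G, h = f - rt (sm G c) f := ⟨_, rfl⟩
  have hH : h ∈ HH G (insert c Y) j := by
    rw [hh]
    exact diff_mem hc hf
  obtain ⟨h1, h2, -⟩ := mem_HH.1 hH
  obtain ⟨a1, a2⟩ := mem_CC.1 h1
  -- behaviour under `c`
  have hcc : ∀ T g, h (T, g * sm G c) = - h (T, g) := by
    intro T g
    rw [hh, ell_sub, ell_sub, rt_apply, rt_apply]
    show f (T, g * sm G c) - f (T, g * sm G c * sm G c) = - (f (T, g) - f (T, g * sm G c))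
    rw [mul_assoc, sm_mul_self, mul_one]
    ring
  obtain ⟨k, hk⟩ : ∃ k : HW G, ∀ U g, k (U, g) =
      if c ∈ U then sg (U.erase c) c * h (U.erase c, g) else 0 := by
    refine ⟨pull (fun q : Finset V × W G => (q.1.erase c, q.2))
      (fun q => if c ∈ q.1 then sg (q.1.erase c) c else 0) h, fun U g => ?_⟩
    rw [pull_apply (hom_ok c)]
    split_ifs with hU
    · rfl
    · exact zero_mul _
  have hkC : k ∈ CC G (insert c Y) (j + 1) := by
    refine mem_CC.2 ⟨?_, ?_⟩
    · intro U hU g
      rw [hk]
      split_ifs with hcU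
      · rw [a1 (U.erase c), mul_zero]
        rintro ⟨b1, b2, b3⟩
        apply hU
        have b4 : U.erase c ⊆ Y := by
          intro x hx
          rcases Finset.mem_insert.1 (b1 hx) with h4 | h4
          · exact absurd h4 (Finset.ne_of_mem_erase hx)
          · exact h4
        refine ⟨?_, ?_, ?_⟩
        · rw [← Finset.insert_erase hcU]
          exact Finset.insert_subset_insert c b4
        · rw [← Finset.insert_erase hcU, Finset.coe_insert, SimpleGraph.isClique_insert]
          exact ⟨b2, fun x hx _ => hc x (b4 (Finset.mem_coe.1 hx))⟩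
        · rw [← Finset.insert_erase hcU, Finset.card_insert_of_notMem (Finset.notMem_erase _ _), b3]
      · rfl
    · intro U s hs g
      rw [hk, hk]
      split_ifs with hcU
      · by_cases hsc : s = c
        · rw [hsc, hcc]
          ring
        · rw [a2 (U.erase c) s (Finset.mem_erase.2 ⟨hsc, hs⟩)]
          ring
      · rw [neg_zero]
  have hbk : bD G k = h := by
    refine ell_ext fun q => ?_
    obtain ⟨T, g⟩ := q
    rw [bD_apply]
    unfold bdry
    by_cases hcT : c ∈ T
    · have hT : insert c (T.erase c) = T := Finset.insert_erase hcT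
      have hcT' : c ∉ T.erase c := Finset.notMem_erase _ _
      have e1 : ∀ s ∈ Tᶜ, sg T s * k (insert s T, g) =
          - sg (T.erase c) c * (sg (T.erase c) s * h (insert s (T.erase c), g)) := by
        intro s hs
        have hsT : s ∉ T := Finset.mem_compl.1 hs
        have hsc : s ≠ c := fun h4 => hsT (h4 ▸ hcT)
        have hsT' : s ∉ T.erase c := fun h4 => hsT (Finset.mem_of_mem_erase h4)
        have e2 : (insert s T).erase c = insert s (T.erase c) :=
          Finset.erase_insert_of_ne hsc
        rw [hk, if_pos (Finset.mem_insert_of_mem hcT), e2]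
        have e3 := sg_swap' hsT' hcT' hsc
        rw [hT] at e3
        calc sg T s * (sg (insert s (T.erase c)) c * h (insert s (T.erase c), g))
            = (sg T s * sg (insert s (T.erase c)) c) * h (insert s (T.erase c), g) := by ring
          _ = _ := by rw [e3]; ring
      rw [Finset.sum_congr rfl e1, ← Finset.mul_sum]
      have e4 := h2 (T.erase c) g
      unfold bdry at e4
      have e5 : (T.erase c)ᶜ = insert c Tᶜ := by
        rw [Finset.compl_erase]
      rw [e5, Finset.sum_insert (by simpa using hcT), hT] at e4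
      have e6 : ∑ s ∈ Tᶜ, sg (T.erase c) s * h (insert s (T.erase c), g) =
          - (sg (T.erase c) c * h (T, g)) := by linarith
      rw [e6]
      calc - sg (T.erase c) c * - (sg (T.erase c) c * h (T, g))
          = (sg (T.erase c) c * sg (T.erase c) c) * h (T, g) := by ring
        _ = h (T, g) := by rw [sg_sq', one_mul]
    · rw [Finset.sum_eq_single c]
      · show sg T c * k (insert c T, g) = h (T, g)
        rw [hk, if_pos (Finset.mem_insert_self _ _), Finset.erase_insert hcT, ← mul_assoc, sg_sq',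
          one_mul]
      · intro s _ hsc
        show sg T s * k (insert s T, g) = 0
        rw [hk, if_neg, mul_zero]
        intro h4
        rcases Finset.mem_insert.1 h4 with h4 | h4
        · exact hsc h4.symm
        · exact hcT h4
      · intro h4
        exact absurd (Finset.mem_compl.2 hcT) h4
  have horth : ⟪bD G k, h⟫_ℝ = 0 := (Submodule.mem_orthogonal _ _).1 hH.2 _ ⟨k, hkC, rfl⟩
  rw [hbk] at horth
  rw [← hh]
  exact inner_self_eq_zero.1 horth

theorem hh_cone_iff {Y : Finset V} {c : V} (hcY : c ∉ Y) (hc : ∀ y ∈ Y, G.Adj c y) {j : ℕ}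
    {f : HW G} : f ∈ HH G (insert c Y) j ↔ f ∈ HH G Y j ∧ rt (sm G c) f = f := by
  constructor
  · intro hf
    have hR : rt (sm G c) f = f := (sub_eq_zero.1 (diff_zero hcY hc hf)).symm
    refine ⟨?_, hR⟩
    obtain ⟨h1, h2, h3⟩ := mem_HH.1 hf
    obtain ⟨a1, a2⟩ := mem_CC.1 h1
    refine mem_HH.2 ⟨mem_CC.2 ⟨?_, a2⟩, h2, fun T hT => h3 T (hT.trans (Finset.subset_insert _ _))⟩
    intro T hT g
    by_cases hT2 : T ⊆ insert c Y ∧ G.IsClique (T : Set V) ∧ T.card = j
    · have hcT : c ∈ T := by
        by_contra hcT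
        apply hT
        refine ⟨fun x hx => ?_, hT2.2⟩
        rcases Finset.mem_insert.1 (hT2.1 hx) with h4 | h4
        · exact absurd (h4 ▸ hx) hcT
        · exact h4
      have e1 := a2 T c hcT g
      have e2 : f (T, g * sm G c) = f (T, g) := by
        have e3 := rt_apply (sm G c) f (T, g)
        rw [hR] at e3
        exact e3.symm
      rw [e2] at e1
      linarith
    · exact a1 T hT2 g
  · rintro ⟨hf, hR⟩
    obtain ⟨h1, h2, h3⟩ := mem_HH.1 hf
    obtain ⟨a1, a2⟩ := mem_CC.1 h1
    refine mem_HH.2 ⟨CC_mono (Finset.subset_insert _ _) j h1, h2, ?_⟩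
    intro T hT hTc g
    by_cases hcT : c ∈ T
    · unfold cobd
      refine Finset.sum_eq_zero fun s hs => ?_
      show sg (T.erase s) s * (f (T.erase s, g) - f (T.erase s, g * sm G s)) = 0
      by_cases hsc : s = c
      · have e2 : f (T.erase s, g * sm G s) = f (T.erase s, g) := by
          have e3 := rt_apply (sm G c) f (T.erase s, g)
          rw [hR] at e3
          rw [hsc] at e3 ⊢
          exact e3.symm
        rw [e2, sub_self, mul_zero]
      · have hn : ¬ (T.erase s ⊆ Y ∧ G.IsClique ((T.erase s : Finset V) : Set V) ∧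
            (T.erase s).card = j) := fun h4 =>
          hcY (h4.1 (Finset.mem_erase.2 ⟨Ne.symm hsc, hcT⟩))
        rw [a1 _ hn, a1 _ hn, sub_zero, mul_zero]
    · refine h3 T (fun x hx => ?_) hTc g
      rcases Finset.mem_insert.1 (hT hx) with h4 | h4
      · exact absurd (h4 ▸ hx) hcT
      · exact h4

end SCS
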