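import Pool.Agent.SCS.MinMax
import Pool.Agent.SCS.Cone

/-!
# Project SCS (architect helper40), module Csum: the connected sum theorem in the ambient group

`V = A ∪ B ∪ {c}`, `E = A ∩ B`, no edges between `A \ E` and `B \ E`, `c` is adjacent exactly to `E`.

`half` (one side).  `insert c A = A ∪ insert c E`, `A ∩ insert c E = E` (`c ∉ A`), and there are no edges
between `A \ E` and `c`: `NoE G A (insert c E)`.  By `mv_iff` and the hypothesis:
`KK A (insert c E) j = ⊥` and `bb A j + bb (insert c E) j = bb E j` for all `j`; with `bb_cone`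
`bb A j = bb E j / 2`.  Let `X ≤ HH E j` be closed, invariant, stable under `rt (sm c)` and `mu (WS G E)`.
`dm X = dm (X ⊓ kr P_A) + dm (im P_A X)`, and with `P_c = PP (HH (insert c E) j)`, `X' = X ⊓ kr P_A`:
`dm X' = dm (X' ⊓ kr P_c) + dm (im P_c X') ≤ 0 + dm (im P_c X) = dm X / 2`, because
`X' ⊓ kr P_c ≤ KK A (insert c E) j = ⊥` (`dm_rn`, `dm_mono`, `dm_bot`, `dm_cone`).
So `dm X / 2 ≤ dm (im P_A X)`.

`csum_hh`: with `X = XX A B j` (`XX_le`, `inv_XX`, `XX_closed`, `rt_XX`, `mu_XX`, `rinv_WS`) and `half` for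
`(A, B)` and for `(B, A)` (`A ∩ B = B ∩ A`, `NoE` is symmetric), `min_max` gives
`dm X ≥ dm (KK A B j) + dm X / 2 + dm X / 2`, so `dm (KK A B j) ≤ 0`, `KK A B j = ⊥` (`dm_eq_bot`, `inv_KK`).
Moreover `bb A j + bb B j = bb E j / 2 + bb E j / 2 = bb E j`.  By `mv_iff` (⇐) `HH (A ∪ B) j = ⊥`.
-/

namespace SCS

open SNG Finset
open scoped InnerProductSpace

variable {V : Type} [Fintype V] [LinearOrder V] {G : SimpleGraph V}

theorem half {A E : Finset V} {c : V} (hE : E ⊆ A) (hcA : c ∉ A)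
    (hc : ∀ x ∈ A, G.Adj c x ↔ x ∈ E) (h : ∀ j, HH G (insert c A) j = ⊥) (j : ℕ) :
    bb G A j = bb G E j / 2 ∧ ∀ X : Submodule ℝ (HW G), X ≤ HH G E j →
      IsClosed (X : Set (HW G)) → Inv X → (∀ x ∈ X, rt (sm G c) x ∈ X) →
      (∀ x ∈ X, mu (WS G E : Set (W G)) x ∈ X) → dm X / 2 ≤ dm (im (PP (HH G A j)) X) := by
  have hcE : c ∉ E := fun h1 => hcA (hE h1)
  have hcE' : ∀ y ∈ E, G.Adj c y := fun y hy => (hc y (hE hy)).2 hy
  have hun : A ∪ insert c E = insert c A := by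
    ext x
    simp only [mem_union, mem_insert]
    constructor
    · rintro (h1 | h1 | h1)
      · exact Or.inr h1
      · exact Or.inl h1
      · exact Or.inr (hE h1)
    · rintro (h1 | h1)
      · exact Or.inr (Or.inl h1)
      · exact Or.inl h1
  have hin : A ∩ insert c E = E := by
    ext x
    simp only [mem_inter, mem_insert]
    constructor
    · rintro ⟨h1, h2 | h2⟩
      · exact absurd (h2 ▸ h1) hcA
      · exact h2
    · intro h1
      exact ⟨hE h1, Or.inr h1⟩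
  have hno : NoE G A (insert c E) := by
    intro x hx hx' y hy hy' hxy
    rw [mem_insert] at hy hx'
    push Not at hx'
    rcases hy with rfl | hy
    · exact hx'.2 ((hc x hx).1 hxy.symm)
    · exact hy' (hE hy)
  have hmv := (mv_iff hno).1 (by
    intro j
    rw [hun]
    exact h j)
  have hb := (hmv j).2
  rw [hin, bb_cone hcE hcE' j] at hb
  refine ⟨by linarith, ?_⟩
  intro X hX hcl hinv hR hM
  have hPA : Eqv (PP (HH G A j)) := eqv_PP (inv_HH A j)
  have hPc : Eqv (PP (HH G (insert c E) j)) := eqv_PP (inv_HH (insert c E) j)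
  have e1 := dm_rn hPA hinv hcl
  have hinv' : Inv (X ⊓ kr (PP (HH G A j))) := hinv.inf hPA.invKr
  have hcl' : IsClosed ((X ⊓ kr (PP (HH G A j)) : Submodule ℝ (HW G)) : Set (HW G)) := by
    have e : ((X ⊓ kr (PP (HH G A j)) : Submodule ℝ (HW G)) : Set (HW G)) =
        (X : Set (HW G)) ∩ (kr (PP (HH G A j)) : Set (HW G)) := rfl
    rw [e]
    exact hcl.inter (kr_closed _)
  have e2 := dm_rn hPc hinv' hcl'
  have e3 : X ⊓ kr (PP (HH G A j)) ⊓ kr (PP (HH G (insert c E) j)) ≤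
      (⊥ : Submodule ℝ (HW G)) := by
    rw [← (hmv j).1]
    unfold KK
    rw [hin]
    exact inf_le_inf_right _ (inf_le_inf_right _ hX)
  have e4 : dm (X ⊓ kr (PP (HH G A j)) ⊓ kr (PP (HH G (insert c E) j))) ≤ 0 := by
    have := dm_mono e3
    rwa [dm_bot] at this
  have e5 : dm (im (PP (HH G (insert c E) j)) (X ⊓ kr (PP (HH G A j)))) ≤
      dm (im (PP (HH G (insert c E) j)) X) := dm_mono (Submodule.map_mono inf_le_left)
  have e6 := dm_cone hcE hcE' hX hcl hR hM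
  linarith

theorem csum_hh {A B : Finset V} {c : V} (hu : ∀ x, x = c ∨ x ∈ A ∨ x ∈ B) (hcA : c ∉ A)
    (hcB : c ∉ B) (hc : ∀ x, G.Adj c x ↔ x ∈ A ∧ x ∈ B) (hn : NoE G A B)
    (h1 : ∀ j, HH G (insert c A) j = ⊥) (h2 : ∀ j, HH G (insert c B) j = ⊥) (j : ℕ) :
    HH G (A ∪ B) j = ⊥ := by
  have hA : ∀ x ∈ A, G.Adj c x ↔ x ∈ A ∩ B := fun x _ => by rw [hc, mem_inter]
  have hB : ∀ x ∈ B, G.Adj c x ↔ x ∈ A ∩ B := fun x _ => by rw [hc, mem_inter]
  have hAB : ∀ y ∈ A ∩ B, G.Adj c y := fun y hy => (hc y).2 (mem_inter.1 hy)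
  refine (mv_iff hn).2 ?_ j
  intro j
  have hhA := half (E := A ∩ B) inter_subset_left hcA hA h1 j
  have hhB := half (E := A ∩ B) inter_subset_right hcB hB h2 j
  refine ⟨?_, by rw [hhA.1, hhB.1]; ring⟩
  apply dm_eq_bot (inv_KK A B j)
  have m := min_max hu (fun x _ hx => ((hc x).1 hx).2) hn j
  have a := hhA.2 (XX G A B j) (XX_le A B j) (XX_closed A B j) (inv_XX A B j)
    (fun x hx => rt_XX hAB hx) (fun x hx => mu_XX (rinv_WS G (A ∩ B)) hx)
  have b := hhB.2 (XX G A B j) (XX_le A B j) (XX_closed A B j) (inv_XX A B j)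
    (fun x hx => rt_XX hAB hx) (fun x hx => mu_XX (rinv_WS G (A ∩ B)) hx)
  linarith

end SCS
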