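import Pool.Agent.SCS.Loc
import Pool.Agent.SNG.Coc

/-!
# Project SCS (architect helper40), module Cut: the cut function

Let every vertex be `c` or in `A` or in `B`, `E = A ∩ B`, no edges between `A \ E` and `B \ E`, no edges
between `c` and `A \ E`.  Write `χ_E` for the characteristic function of `WS G E` (`ℤ`-valued).
For every vertex `s` define the permutation `π_s` of `W G × ℤ`:
`π_s (g, k) = (g * sm s, k + χ_E g - χ_E (g * sm s))` if `s ∈ A`, `s ∉ B`;
`π_s (g, k) = (g * sm s, k)` otherwise.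
Relations.  `π_s ∘ π_s = 1` (`sm_mul_self`; the two increments cancel).  For adjacent `s, t`:
`π_s ∘ π_t = π_t ∘ π_s` (`sm_comm`): clear if both or none are in `A \ B` (both: the total increment is
`χ_E g - χ_E (g * sm s * sm t)`); if `s ∈ A \ B`, `t ∉ A \ B`, then `t ∈ E` (`t ∈ B \ A` and `t = c` are not
adjacent to `s`), so `χ_E (x * sm t) = χ_E x` (`rinv_WS`) and both orders have increment
`χ_E g - χ_E (g * sm s)`.  So there is a homomorphism `ρ : W G →* Equiv.Perm (W G × ℤ)` with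
`ρ (sm s) = π_s` (`SNG.exists_lift` in module Coc, or `CoxeterSystem.lift`).
Put `χ w = (ρ w⁻¹ (1, 0)).2`.  `ρ w⁻¹ (1, 0) = (w, χ w)` (the first coordinate of `ρ u (g, k)` is
`g * u⁻¹`, induction on `u`), and `ρ (w * sm s)⁻¹ = π_s ∘ ρ w⁻¹`, hence:
(1) `χ (w * sm s) = χ w + χ_E w - χ_E (w * sm s)` for `s ∈ A \ B`, `χ (w * sm s) = χ w` for other `s`.
(2) `χ = 0` on `WS G E` (`Subgroup.closure_induction_right` or `closure_induction'' `: `χ 1 = 0` and
    `χ (w * sm s) = χ w` for `s ∈ E`).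
`Ω = {w | 1 ≤ χ w}`.
* `RInv G B Ω`: (1), `s ∈ B` is not in `A \ B`.
* disjoint from `WS G E`: (2).
* `RInv G A (Ω ∪ WS G E)`: for `s ∈ E` both parts are invariant.  For `s ∈ A \ B` it suffices (as
  `sm s * sm s = 1`) that `w ∈ Ω ∪ WS G E` implies `w * sm s ∈ Ω ∪ WS G E`.  Assume `w * sm s ∉ WS G E`;
  then `χ (w * sm s) = χ w + χ_E w`, which is `≥ 1` if `w ∈ Ω`, and `= 0 + 1` if `w ∈ WS G E`.
-/

namespace SCS

open SNG Finset

section cutaux

variable {V : Type} [DecidableEq V] {G : SimpleGraph V}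

open Classical in
/-- characteristic function of the subgroup -/
private noncomputable def chE (G : SimpleGraph V) (E : Finset V) (g : W G) : ℤ :=
  if g ∈ WS G E then 1 else 0

omit [DecidableEq V] in
private theorem chE_mul {E : Finset V} {t : V} (ht : t ∈ E) (g : W G) :
    chE G E (g * sm G t) = chE G E g := by
  unfold chE
  have h := rinv_WS G E t ht g
  rw [SetLike.mem_coe, SetLike.mem_coe] at h
  by_cases hg : g ∈ WS G E
  · rw [if_pos hg, if_pos (h.2 hg)]
  · rw [if_neg hg, if_neg fun h1 => hg (h.1 h1)]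

/-- increments -/
private noncomputable def inc (G : SimpleGraph V) (A B : Finset V) (s : V) (g : W G) : ℤ :=
  if s ∈ A ∧ s ∉ B then chE G (A ∩ B) g - chE G (A ∩ B) (g * sm G s) else 0

private theorem inc_pos {A B : Finset V} {s : V} (h : s ∈ A ∧ s ∉ B) (g : W G) :
    inc G A B s g = chE G (A ∩ B) g - chE G (A ∩ B) (g * sm G s) := if_pos h

private theorem inc_neg {A B : Finset V} {s : V} (h : ¬ (s ∈ A ∧ s ∉ B)) (g : W G) :
    inc G A B s g = 0 := if_neg h

private theorem inc_mul (A B : Finset V) (s : V) (g : W G) :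
    inc G A B s g + inc G A B s (g * sm G s) = 0 := by
  by_cases h : s ∈ A ∧ s ∉ B
  · rw [inc_pos h, inc_pos h, mul_assoc, sm_mul_self, mul_one]
    ring
  · rw [inc_neg h, inc_neg h, add_zero]

private theorem inc_comm1 {A B : Finset V} {c : V} (hu : ∀ x, x = c ∨ x ∈ A ∨ x ∈ B)
    (hc : ∀ x ∈ A, G.Adj c x → x ∈ B) (hn : NoE G A B) {s t : V} (hst : G.Adj s t)
    (hs : s ∈ A ∧ s ∉ B) (g : W G) :
    inc G A B t g + inc G A B s (g * sm G t) = inc G A B s g + inc G A B t (g * sm G s) := by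
  have hcm : g * sm G t * sm G s = g * sm G s * sm G t := by
    rw [mul_assoc, mul_assoc, sm_comm hst]
  by_cases ht : t ∈ A ∧ t ∉ B
  · rw [inc_pos ht, inc_pos hs, inc_pos hs, inc_pos ht, hcm]
    ring
  · have htE : t ∈ A ∩ B := by
      rw [mem_inter]
      rcases hu t with rfl | h | h
      · exact absurd (hc s hs.1 hst.symm) hs.2
      · by_contra h1
        exact ht ⟨h, fun h2 => h1 ⟨h, h2⟩⟩
      · by_contra h1
        exact hn s hs.1 hs.2 t h (fun h2 => h1 ⟨h2, h⟩) hst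
    rw [inc_neg ht, inc_neg ht, inc_pos hs, inc_pos hs, hcm, chE_mul htE, chE_mul htE]
    ring

private theorem inc_comm {A B : Finset V} {c : V} (hu : ∀ x, x = c ∨ x ∈ A ∨ x ∈ B)
    (hc : ∀ x ∈ A, G.Adj c x → x ∈ B) (hn : NoE G A B) {s t : V} (hst : G.Adj s t) (g : W G) :
    inc G A B t g + inc G A B s (g * sm G t) = inc G A B s g + inc G A B t (g * sm G s) := by
  by_cases hs : s ∈ A ∧ s ∉ B
  · exact inc_comm1 hu hc hn hst hs g
  · by_cases ht : t ∈ A ∧ t ∉ B
    · exact (inc_comm1 hu hc hn hst.symm ht g).symm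
    · rw [inc_neg hs, inc_neg ht, inc_neg hs, inc_neg ht]

/-- the permutations -/
private noncomputable def pr (G : SimpleGraph V) (A B : Finset V) (s : V) :
    Equiv.Perm (W G × ℤ) where
  toFun x := (x.1 * sm G s, x.2 + inc G A B s x.1)
  invFun x := (x.1 * sm G s, x.2 + inc G A B s x.1)
  left_inv x := by
    refine Prod.ext ?_ ?_
    · change x.1 * sm G s * sm G s = x.1
      rw [mul_assoc, sm_mul_self, mul_one]
    · change x.2 + inc G A B s x.1 + inc G A B s (x.1 * sm G s) = x.2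
      rw [add_assoc, inc_mul, add_zero]
  right_inv x := by
    refine Prod.ext ?_ ?_
    · change x.1 * sm G s * sm G s = x.1
      rw [mul_assoc, sm_mul_self, mul_one]
    · change x.2 + inc G A B s x.1 + inc G A B s (x.1 * sm G s) = x.2
      rw [add_assoc, inc_mul, add_zero]

private theorem pr_apply (A B : Finset V) (s : V) (g : W G) (k : ℤ) :
    pr G A B s (g, k) = (g * sm G s, k + inc G A B s g) := rfl

private theorem pr_sq (A B : Finset V) (s : V) : pr G A B s * pr G A B s = 1 := by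
  refine Equiv.ext fun x => ?_
  obtain ⟨g, k⟩ := x
  rw [Equiv.Perm.mul_apply, pr_apply, pr_apply, mul_assoc, sm_mul_self, mul_one, add_assoc,
    inc_mul, add_zero]
  rfl

private theorem pr_comm {A B : Finset V} {c : V} (hu : ∀ x, x = c ∨ x ∈ A ∨ x ∈ B)
    (hc : ∀ x ∈ A, G.Adj c x → x ∈ B) (hn : NoE G A B) {s t : V} (hst : G.Adj s t) :
    pr G A B s * pr G A B t = pr G A B t * pr G A B s := by
  refine Equiv.ext fun x => ?_
  obtain ⟨g, k⟩ := x
  rw [Equiv.Perm.mul_apply, Equiv.Perm.mul_apply, pr_apply, pr_apply, pr_apply, pr_apply,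
    mul_assoc, mul_assoc, sm_comm hst, add_assoc, add_assoc, inc_comm hu hc hn hst]

private theorem exists_chi {A B : Finset V} {c : V} (hu : ∀ x, x = c ∨ x ∈ A ∨ x ∈ B)
    (hc : ∀ x ∈ A, G.Adj c x → x ∈ B) (hn : NoE G A B) :
    ∃ χ : W G → ℤ, χ 1 = 0 ∧ ∀ w s, χ (w * sm G s) = χ w + inc G A B s w := by
  obtain ⟨ρ, hρ⟩ := exists_lift G (pr G A B) (pr_sq A B) fun v w h => pr_comm hu hc hn h
  have h1 : ∀ (u : W G) (x : W G × ℤ), (ρ u x).1 = x.1 * u⁻¹ := by
    intro u
    refine (raM G).toCoxeterSystem.simple_induction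
      (p := fun u : W G => ∀ x : W G × ℤ, (ρ u x).1 = x.1 * u⁻¹) u (fun s x => ?_) (fun x => ?_)
      fun u v hu hv x => ?_
    · change (ρ (sm G s) x).1 = x.1 * (sm G s)⁻¹
      rw [hρ, inv_eq_of_mul_eq_one_right (sm_mul_self s)]
      rfl
    · rw [map_one, inv_one, mul_one]
      rfl
    · rw [map_mul, Equiv.Perm.mul_apply, hu, hv, mul_inv_rev, mul_assoc]
  refine ⟨fun w => (ρ w⁻¹ (1, 0)).2, ?_, fun w s => ?_⟩
  · change (ρ (1 : W G)⁻¹ (1, 0)).2 = 0
    rw [inv_one, map_one]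
    rfl
  · change (ρ (w * sm G s)⁻¹ (1, 0)).2 = (ρ w⁻¹ (1, 0)).2 + inc G A B s w
    rw [mul_inv_rev, inv_eq_of_mul_eq_one_right (sm_mul_self s), map_mul, Equiv.Perm.mul_apply, hρ]
    have h2 : (ρ w⁻¹ (1, 0)).1 = w := by
      rw [h1, one_mul, inv_inv]
    change (ρ w⁻¹ (1, 0)).2 + inc G A B s (ρ w⁻¹ (1, 0)).1 = _
    rw [h2]

end cutaux

variable {V : Type} [DecidableEq V] {G : SimpleGraph V}

theorem exists_cut {A B : Finset V} {c : V} (hu : ∀ x, x = c ∨ x ∈ A ∨ x ∈ B)
    (hc : ∀ x ∈ A, G.Adj c x → x ∈ B) (hn : NoE G A B) :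
    ∃ Ω : Set (W G), RInv G B Ω ∧ RInv G A (Ω ∪ (WS G (A ∩ B) : Set (W G))) ∧
      Disjoint Ω (WS G (A ∩ B) : Set (W G)) := by
  obtain ⟨χ, h1, hχ⟩ := exists_chi hu hc hn
  have hB : ∀ w, ∀ s ∈ B, χ (w * sm G s) = χ w := by
    intro w s hs
    rw [hχ, inc_neg fun h => h.2 hs, add_zero]
  have h0 : ∀ w ∈ WS G (A ∩ B), χ w = 0 := by
    intro w hw
    induction hw using Subgroup.closure_induction_right with
    | one => exact h1
    | mul_right x hx y hy ih =>
      obtain ⟨s, hs, rfl⟩ := hy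
      rw [hB x s (mem_inter.1 (mem_coe.1 hs)).2, ih]
    | mul_inv_cancel x hx y hy ih =>
      obtain ⟨s, hs, rfl⟩ := hy
      rw [inv_eq_of_mul_eq_one_right (sm_mul_self s), hB x s (mem_inter.1 (mem_coe.1 hs)).2, ih]
  refine ⟨{w | 1 ≤ χ w}, fun s hs g => ?_, ?_, ?_⟩
  · change 1 ≤ χ (g * sm G s) ↔ 1 ≤ χ g
    rw [hB g s hs]
  · have key : ∀ s ∈ A, ∀ g : W G, g ∈ {w | 1 ≤ χ w} ∪ (WS G (A ∩ B) : Set (W G)) →
        g * sm G s ∈ {w | 1 ≤ χ w} ∪ (WS G (A ∩ B) : Set (W G)) := by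
      intro s hs g hg
      by_cases hsB : s ∈ B
      · rcases hg with hg | hg
        · left
          change 1 ≤ χ (g * sm G s)
          rw [hB g s hsB]
          exact hg
        · right
          exact (rinv_WS G (A ∩ B) s (mem_inter.2 ⟨hs, hsB⟩) g).2 hg
      · by_cases hm : g * sm G s ∈ WS G (A ∩ B)
        · exact Or.inr hm
        · left
          change 1 ≤ χ (g * sm G s)
          rw [hχ, inc_pos ⟨hs, hsB⟩]
          have e1 : chE G (A ∩ B) (g * sm G s) = 0 := if_neg hm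
          rw [e1, sub_zero]
          rcases hg with hg | hg
          · have e2 : 0 ≤ chE G (A ∩ B) g := by
              unfold chE
              split_ifs <;> norm_num
            have e3 : 1 ≤ χ g := hg
            linarith
          · have e2 : chE G (A ∩ B) g = 1 := if_pos hg
            rw [h0 g hg, e2]
            norm_num
    intro s hs g
    refine ⟨fun h => ?_, key s hs g⟩
    have h2 := key s hs _ h
    rw [mul_assoc, sm_mul_self, mul_one] at h2
    exact h2
  · rw [Set.disjoint_left]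
    intro w hw hw'
    have h2 : 1 ≤ χ w := hw
    rw [h0 w hw'] at h2
    norm_num at h2

end SCS
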