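import Pool.Agent.SCS.Pull

/-!
# Project SCS (architect helper40), module Dim: definitions for von Neumann dimension

`L2 I Γ = ℓ²(I × Γ)`, `Γ` a group acting by left translations `lam`.
`tr T = ∑_i ⟨T δ_(i,1), δ_(i,1)⟩`, `PP X` the orthogonal projection onto the closure of `X`,
`dm X = tr (PP X)`.
-/

namespace SCS

open scoped InnerProductSpace

/-- `ℓ²(I × Γ)` -/
abbrev L2 (I Γ : Type) : Type := Ell (I × Γ)

variable {I Γ : Type} [Group Γ]

/-- Left translation by `g`. -/
noncomputable def lam (g : Γ) : L2 I Γ →L[ℝ] L2 I Γ := pull (fun q => (q.1, g⁻¹ * q.2)) fun _ => 1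

theorem lam_apply (g : Γ) (f : L2 I Γ) (q : I × Γ) : lam g f q = f (q.1, g⁻¹ * q.2) := by
  unfold lam
  rw [pull_apply, one_mul]
  refine pullOk_one fun x y h => ?_
  have h1 := congrArg Prod.fst h
  have h2 := congrArg Prod.snd h
  exact Prod.ext h1 (mul_left_cancel h2)

/-- Bounded operators commuting with the left translations. -/
def Eqv (T : L2 I Γ →L[ℝ] L2 I Γ) : Prop := ∀ g x, T (lam g x) = lam g (T x)

/-- Subspaces invariant under the left translations. -/
def Inv (X : Submodule ℝ (L2 I Γ)) : Prop := ∀ g, ∀ x ∈ X, lam g x ∈ X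

open Classical in
/-- The basis vector at `(i, g)`. -/
noncomputable def dl (i : I) (g : Γ) : L2 I Γ := lp.single 2 (i, g) (1 : ℝ)

/-- The orthogonal projection onto the closure of `X`. -/
noncomputable def PP {α : Type} (X : Submodule ℝ (Ell α)) : Ell α →L[ℝ] Ell α :=
  X.topologicalClosure.starProjection

/-- The trace. -/
noncomputable def tr [Fintype I] (T : L2 I Γ →L[ℝ] L2 I Γ) : ℝ := ∑ i, T (dl i 1) (i, 1)

/-- The von Neumann dimension of (the closure of) `X`. -/
noncomputable def dm [Fintype I] (X : Submodule ℝ (L2 I Γ)) : ℝ := tr (PP X)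

/-! ### first properties -/

open Classical in
omit [Group Γ] in
theorem dl_apply (i : I) (g : Γ) (q : I × Γ) : dl i g q = if q = (i, g) then 1 else 0 := by
  unfold dl
  rw [lp.single_apply]
  split_ifs with h
  · subst h
    simp
  · simp [h]

omit [Group Γ] in
theorem inner_dl (f : L2 I Γ) (i : I) (g : Γ) : ⟪f, dl i g⟫_ℝ = f (i, g) := by
  classical
  unfold dl
  rw [lp.inner_single_right]
  simp

omit [Group Γ] in
theorem dl_inner (f : L2 I Γ) (i : I) (g : Γ) : ⟪dl i g, f⟫_ℝ = f (i, g) := by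
  rw [real_inner_comm, inner_dl]

theorem lam_mul (g h : Γ) (f : L2 I Γ) : lam (g * h) f = lam g (lam h f) := by
  refine ell_ext fun q => ?_
  rw [lam_apply, lam_apply, lam_apply, mul_inv_rev, mul_assoc]

theorem lam_one (f : L2 I Γ) : lam (1 : Γ) f = f := by
  refine ell_ext fun q => ?_
  rw [lam_apply, inv_one, one_mul]

theorem lam_inner (g : Γ) (f h : L2 I Γ) : ⟪lam g f, lam g h⟫_ℝ = ⟪f, h⟫_ℝ := by
  rw [ell_inner, ell_inner]
  simp only [lam_apply]
  exact Equiv.tsum_eq ((Equiv.refl I).prodCongr (Equiv.mulLeft g⁻¹)) fun q : I × Γ => f q * h q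

theorem lam_inner_left (g : Γ) (f h : L2 I Γ) : ⟪lam g f, h⟫_ℝ = ⟪f, lam g⁻¹ h⟫_ℝ := by
  rw [← lam_inner g⁻¹ (lam g f) h, ← lam_mul, inv_mul_cancel, lam_one]

theorem lam_dl (g h : Γ) (i : I) : lam g (dl i h) = dl i (g * h) := by
  refine ell_ext fun q => ?_
  rw [lam_apply, dl_apply, dl_apply]
  congr 1
  rw [Prod.ext_iff, Prod.ext_iff]
  simp only [eq_iff_iff, and_congr_right_iff]
  intro _
  exact inv_mul_eq_iff_eq_mul

theorem PP_mem {α : Type} (X : Submodule ℝ (Ell α)) (x : Ell α) :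
    PP X x ∈ X.topologicalClosure := Submodule.starProjection_apply_mem _ _

theorem PP_symm {α : Type} (X : Submodule ℝ (Ell α)) (x y : Ell α) :
    ⟪PP X x, y⟫_ℝ = ⟪x, PP X y⟫_ℝ := Submodule.inner_starProjection_left_eq_right _ _ _

theorem PP_self {α : Type} {X : Submodule ℝ (Ell α)} {x : Ell α} (h : x ∈ X) : PP X x = x :=
  Submodule.starProjection_eq_self_iff.2 (X.le_topologicalClosure h)

theorem PP_sub {α : Type} (X : Submodule ℝ (Ell α)) (x y : Ell α) (h : y ∈ X) :
    ⟪x - PP X x, y⟫_ℝ = 0 :=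
  Submodule.starProjection_inner_eq_zero _ _ (X.le_topologicalClosure h)

/-- Characterisation of the projection. -/
theorem PP_eq {α : Type} {X : Submodule ℝ (Ell α)} {x y : Ell α} (h1 : y ∈ X.topologicalClosure)
    (h2 : ∀ z ∈ X, ⟪x - y, z⟫_ℝ = 0) : PP X x = y := by
  refine Submodule.eq_starProjection_of_mem_of_inner_eq_zero h1 ?_
  intro z hz
  have h3 : X ≤ (Submodule.span ℝ {x - y})ᗮ := by
    intro w hw
    rw [Submodule.mem_orthogonal_singleton_iff_inner_right]
    exact h2 w hw
  have h4 : X.topologicalClosure ≤ (Submodule.span ℝ {x - y})ᗮ :=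
    Submodule.topologicalClosure_minimal _ h3 (Submodule.isClosed_orthogonal _)
  have h5 := h4 hz
  rwa [Submodule.mem_orthogonal_singleton_iff_inner_right] at h5

theorem PP_closure {α : Type} (X : Submodule ℝ (Ell α)) : PP X.topologicalClosure = PP X := by
  ext1 x
  refine PP_eq ?_ ?_
  · exact Submodule.le_topologicalClosure _ (PP_mem X x)
  · intro z hz
    exact Submodule.starProjection_inner_eq_zero _ _ hz

theorem PP_zero_iff {α : Type} {X : Submodule ℝ (Ell α)} {x : Ell α} : PP X x = 0 ↔ x ∈ Xᗮ := by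
  constructor
  · intro h
    rw [Submodule.mem_orthogonal']
    intro y hy
    have h1 := PP_sub X x y hy
    rwa [h, sub_zero] at h1
  · intro h
    rw [Submodule.mem_orthogonal'] at h
    exact PP_eq (Submodule.zero_mem _) fun z hz => by rw [sub_zero]; exact h z hz

end SCS
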