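import Pool.Agent.SCS.Dim

/-!
# Project SCS (architect helper40), module Dim2: invariant subspaces, first rules for `dm`

Notation: `kr T` the kernel, `im T X` the image of the subspace `X` under `T`.

* `Inv` is stable under `⊓`, `⊔`, closure (`lam g` is continuous), `ᗮ` (`lam_inner_left`), images and
  kernels of equivariant operators.
* `eqv_PP`: `PP X (lam g x) = lam g (PP X x)`: use `PP_eq`: `lam g (PP X x)` is in the closure (closure
  of `X` is invariant), and for `z ∈ X`: `⟪lam g x - lam g (PP X x), z⟫ = ⟪x - PP X x, lam g⁻¹ z⟫ = 0`.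
* `eqv_adj`: adjoint of an equivariant operator: `lam g⁻¹` is the adjoint of `lam g` (`lam_inner_left`).
* `PP_diag`: `(PP X (dl i 1)) (i, 1) = ⟪PP X δ, δ⟫ = ‖PP X δ‖ ^ 2` (`inner_dl`, `PP_symm`, `PP (PP x) = PP x`).
* `dm_mono`: `‖PP X δ‖ ≤ ‖PP Y δ‖` since `PP X δ = PP X (PP Y δ)` for `X ≤ Y`
  (closure of `X` in closure of `Y`; `PP X (δ - PP Y δ) = 0` as it is orthogonal to `X`).
* `dm_eq_bot`: if `dm X ≤ 0` all `PP X (dl i 1) = 0`, so (equivariance, `lam_dl`) `PP X (dl i g) = 0`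
  for all `i, g`; for `x ∈ X`: `x (i, g) = ⟪x, dl i g⟫ = ⟪PP X x, dl i g⟫ = ⟪x, PP X (dl i g)⟫ = 0`.
* `dm_add`: for orthogonal `X, Y`: `PP (X ⊔ Y) = PP X + PP Y` (by `PP_eq`: closures of `X` and of `Y`
  are in the closure of `X ⊔ Y`; for `z = z₁ + z₂`, `⟪x - PP X x - PP Y x, z₁⟫ = 0` because
  `PP Y x ⟂ X`).
* `dm_orth`: `PP Xᗮ x = x - PP X x`, `tr 1 = card I`.
-/

namespace SCS

open scoped InnerProductSpace

/-- kernel -/
noncomputable abbrev kr {α : Type} (T : Ell α →L[ℝ] Ell α) : Submodule ℝ (Ell α) :=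
  LinearMap.ker (T : Ell α →ₗ[ℝ] Ell α)

/-- image of a subspace -/
noncomputable abbrev im {α : Type} (T : Ell α →L[ℝ] Ell α) (X : Submodule ℝ (Ell α)) : Submodule ℝ (Ell α) :=
  X.map (T : Ell α →ₗ[ℝ] Ell α)

theorem mem_kr {α : Type} {T : Ell α →L[ℝ] Ell α} {x : Ell α} : x ∈ kr T ↔ T x = 0 := Iff.rfl

theorem mem_im {α : Type} {T : Ell α →L[ℝ] Ell α} {X : Submodule ℝ (Ell α)} {y : Ell α} :
    y ∈ im T X ↔ ∃ x ∈ X, T x = y := Iff.rfl

theorem kr_closed {α : Type} (T : Ell α →L[ℝ] Ell α) : IsClosed (kr T : Set (Ell α)) :=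
  isClosed_singleton.preimage T.continuous

variable {I Γ : Type} [Group Γ]

theorem Inv.inf {X Y : Submodule ℝ (L2 I Γ)} (hX : Inv X) (hY : Inv Y) : Inv (X ⊓ Y) :=
  fun g x hx => ⟨hX g x hx.1, hY g x hx.2⟩

theorem Inv.sup {X Y : Submodule ℝ (L2 I Γ)} (hX : Inv X) (hY : Inv Y) : Inv (X ⊔ Y) := by
  intro g x hx
  obtain ⟨a, ha, b, hb, rfl⟩ := Submodule.mem_sup.1 hx
  rw [map_add]
  exact Submodule.add_mem_sup (hX g a ha) (hY g b hb)

theorem Inv.cl {X : Submodule ℝ (L2 I Γ)} (hX : Inv X) : Inv X.topologicalClosure := by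
  intro g x hx
  have h1 : X ≤ (X.topologicalClosure).comap
      ((lam g : L2 I Γ →L[ℝ] L2 I Γ) : L2 I Γ →ₗ[ℝ] L2 I Γ) := by
    intro y hy
    rw [Submodule.mem_comap]
    exact X.le_topologicalClosure (hX g y hy)
  have h2 : IsClosed (((X.topologicalClosure).comap
      ((lam g : L2 I Γ →L[ℝ] L2 I Γ) : L2 I Γ →ₗ[ℝ] L2 I Γ) :
      Submodule ℝ (L2 I Γ)) : Set (L2 I Γ)) :=
    (X.isClosed_topologicalClosure).preimage (lam g).continuous
  exact Submodule.topologicalClosure_minimal _ h1 h2 hx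

theorem Inv.orth {X : Submodule ℝ (L2 I Γ)} (hX : Inv X) : Inv Xᗮ := by
  intro g x hx
  rw [Submodule.mem_orthogonal'] at hx ⊢
  intro u hu
  rw [lam_inner_left]
  exact hx _ (hX g⁻¹ u hu)

theorem Inv.map {X : Submodule ℝ (L2 I Γ)} (hX : Inv X) {T : L2 I Γ →L[ℝ] L2 I Γ} (hT : Eqv T) :
    Inv (im T X) := by
  intro g y hy
  obtain ⟨x, hx, rfl⟩ := mem_im.1 hy
  exact mem_im.2 ⟨lam g x, hX g x hx, hT g x⟩

theorem Eqv.invKr {T : L2 I Γ →L[ℝ] L2 I Γ} (hT : Eqv T) : Inv (kr T) := by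
  intro g x hx
  rw [mem_kr] at hx ⊢
  rw [hT, hx, map_zero]

theorem eqv_PP {X : Submodule ℝ (L2 I Γ)} (hX : Inv X) : Eqv (PP X) := by
  intro g x
  refine PP_eq ?_ ?_
  · exact Inv.cl hX g _ (PP_mem X x)
  · intro z hz
    rw [← map_sub, lam_inner_left]
    exact PP_sub X x _ (hX g⁻¹ z hz)

theorem eqv_adj {T : L2 I Γ →L[ℝ] L2 I Γ} (hT : Eqv T) : Eqv (ContinuousLinearMap.adjoint T) := by
  intro g x
  refine ext_inner_right ℝ fun y => ?_
  rw [ContinuousLinearMap.adjoint_inner_left, lam_inner_left, lam_inner_left,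
    ContinuousLinearMap.adjoint_inner_left, hT]

theorem Eqv.comp {S T : L2 I Γ →L[ℝ] L2 I Γ} (hS : Eqv S) (hT : Eqv T) : Eqv (S.comp T) := by
  intro g x
  simp only [ContinuousLinearMap.comp_apply]
  rw [hT, hS]

variable [Fintype I]

omit [Group Γ] [Fintype I] in
theorem PP_PP (X : Submodule ℝ (L2 I Γ)) (x : L2 I Γ) : PP X (PP X x) = PP X x := by
  have h : PP X.topologicalClosure (PP X x) = PP X x := PP_self (PP_mem X x)
  rwa [PP_closure] at h

omit [Group Γ] [Fintype I] in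
theorem PP_of_mem_cl {X : Submodule ℝ (L2 I Γ)} {x : L2 I Γ} (h : x ∈ X.topologicalClosure) :
    PP X x = x := by
  have h1 : PP X.topologicalClosure x = x := PP_self h
  rwa [PP_closure] at h1

omit [Group Γ] [Fintype I] in
theorem PP_norm_le (X : Submodule ℝ (L2 I Γ)) (x : L2 I Γ) : ‖PP X x‖ ≤ ‖x‖ := by
  have h1 : ⟪x - PP X x, PP X x⟫_ℝ = 0 := by
    rw [inner_sub_left, ← PP_symm X (PP X x) x, PP_PP, real_inner_comm, sub_self]
  have h2 : ‖x‖ ^ 2 = ‖x - PP X x‖ ^ 2 + ‖PP X x‖ ^ 2 := by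
    have h3 : x = (x - PP X x) + PP X x := by abel
    conv_lhs => rw [h3]
    rw [norm_add_sq_real, h1]
    ring
  refine (sq_le_sq₀ (norm_nonneg _) (norm_nonneg _)).1 ?_
  rw [h2]
  nlinarith [sq_nonneg ‖x - PP X x‖]

theorem PP_diag (X : Submodule ℝ (L2 I Γ)) (i : I) :
    (PP X (dl i 1)) (i, 1) = ‖PP X (dl i (1 : Γ))‖ ^ 2 := by
  rw [← inner_dl, ← real_inner_self_eq_norm_sq]
  rw [PP_symm X (dl i (1 : Γ)) (PP X (dl i 1)), PP_PP, real_inner_comm]

theorem dm_nonneg (X : Submodule ℝ (L2 I Γ)) : 0 ≤ dm X := by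
  unfold dm tr
  refine Finset.sum_nonneg fun i _ => ?_
  rw [PP_diag]
  positivity

theorem dm_closure (X : Submodule ℝ (L2 I Γ)) : dm X.topologicalClosure = dm X := by
  unfold dm
  rw [PP_closure]

omit [Group Γ] [Fintype I] in
theorem PP_comp_le {X Y : Submodule ℝ (L2 I Γ)} (h : X ≤ Y) (x : L2 I Γ) :
    PP X (PP Y x) = PP X x := by
  have h1 : PP X (x - PP Y x) = 0 := by
    rw [PP_zero_iff, Submodule.mem_orthogonal']
    intro u hu
    exact PP_sub Y x u (h hu)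
  rw [map_sub, sub_eq_zero] at h1
  exact h1.symm

theorem dm_mono {X Y : Submodule ℝ (L2 I Γ)} (h : X ≤ Y) : dm X ≤ dm Y := by
  unfold dm tr
  refine Finset.sum_le_sum fun i _ => ?_
  rw [PP_diag, PP_diag, ← PP_comp_le h]
  exact pow_le_pow_left₀ (norm_nonneg _) (PP_norm_le _ _) 2

theorem dm_bot : dm (⊥ : Submodule ℝ (L2 I Γ)) = 0 := by
  unfold dm tr
  refine Finset.sum_eq_zero fun i _ => ?_
  have h : PP (⊥ : Submodule ℝ (L2 I Γ)) (dl i 1) = 0 := by
    rw [PP_zero_iff, Submodule.bot_orthogonal_eq_top]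
    exact Submodule.mem_top
  rw [h]
  rfl

theorem dm_eq_bot {X : Submodule ℝ (L2 I Γ)} (hX : Inv X) (h : dm X ≤ 0) : X = ⊥ := by
  have h1 : ∀ i : I, PP X (dl i (1 : Γ)) = 0 := by
    have h2 : ∑ i : I, ‖PP X (dl i (1 : Γ))‖ ^ 2 = 0 := by
      refine le_antisymm ?_ (Finset.sum_nonneg fun i _ => by positivity)
      have h3 : dm X = ∑ i : I, ‖PP X (dl i (1 : Γ))‖ ^ 2 := by
        unfold dm tr
        exact Finset.sum_congr rfl fun i _ => PP_diag X i
      rw [← h3]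
      exact h
    have h4 := (Finset.sum_eq_zero_iff_of_nonneg fun i _ => by positivity).1 h2
    intro i
    have h5 := h4 i (Finset.mem_univ i)
    have h6 : ‖PP X (dl i (1 : Γ))‖ = 0 := by
      simpa using h5
    exact norm_eq_zero.1 h6
  rw [eq_bot_iff]
  intro x hx
  rw [Submodule.mem_bot]
  refine ell_ext fun q => ?_
  obtain ⟨i, g⟩ := q
  have h2 : PP X (dl i g) = 0 := by
    have h3 := eqv_PP hX g (dl i 1)
    rw [lam_dl, mul_one, h1, map_zero] at h3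
    exact h3
  rw [← inner_dl x i g, ← PP_self hx, PP_symm, h2, inner_zero_right]
  rfl

theorem dm_add {X Y : Submodule ℝ (L2 I Γ)} (h : ∀ x ∈ X, ∀ y ∈ Y, ⟪x, y⟫_ℝ = 0) :
    dm (X ⊔ Y) = dm X + dm Y := by
  have hPP : ∀ x, PP (X ⊔ Y) x = PP X x + PP Y x := by
    intro x
    have hcl : ∀ {A B : Submodule ℝ (L2 I Γ)}, (∀ a ∈ A, ∀ b ∈ B, ⟪a, b⟫_ℝ = 0) →
        ∀ x, ∀ b ∈ B, ⟪PP A x, b⟫_ℝ = 0 := by
      intro A B hAB x b hb
      have hb' : PP A b = 0 := by
        rw [PP_zero_iff, Submodule.mem_orthogonal]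
        intro u hu
        exact hAB u hu b hb
      rw [PP_symm, hb', inner_zero_right]
    refine PP_eq ?_ ?_
    · refine Submodule.add_mem _ ?_ ?_
      · exact Submodule.topologicalClosure_mono le_sup_left (PP_mem X x)
      · exact Submodule.topologicalClosure_mono le_sup_right (PP_mem Y x)
    · intro z hz
      obtain ⟨a, ha, b, hb, rfl⟩ := Submodule.mem_sup.1 hz
      have e1 : ⟪PP Y x, a⟫_ℝ = 0 :=
        hcl (fun a ha b hb => by rw [real_inner_comm]; exact h b hb a ha) x a ha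
      have e2 : ⟪PP X x, b⟫_ℝ = 0 := hcl h x b hb
      have e3 := PP_sub X x a ha
      have e4 := PP_sub Y x b hb
      rw [inner_sub_left] at e3 e4
      rw [inner_sub_left, inner_add_left, inner_add_right, inner_add_right, inner_add_right]
      linarith
  unfold dm tr
  rw [← Finset.sum_add_distrib]
  refine Finset.sum_congr rfl fun i _ => ?_
  rw [hPP]
  rfl

theorem dm_orth (X : Submodule ℝ (L2 I Γ)) : dm X + dm Xᗮ = Fintype.card I := by
  have hPP : ∀ x, PP Xᗮ x = x - PP X x := by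
    intro x
    refine PP_eq ?_ ?_
    · refine Submodule.le_topologicalClosure _ ?_
      rw [Submodule.mem_orthogonal']
      intro u hu
      exact PP_sub X x u hu
    · intro z hz
      rw [sub_sub_cancel, PP_symm, PP_zero_iff.2 hz, inner_zero_right]
  unfold dm tr
  rw [← Finset.sum_add_distrib]
  have h1 : ∀ i : I, (PP X (dl i (1 : Γ))) (i, 1) + (PP Xᗮ (dl i (1 : Γ))) (i, 1) = 1 := by
    intro i
    rw [hPP, ell_sub, add_sub_cancel, dl_apply, if_pos rfl]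
  rw [Finset.sum_congr rfl fun i _ => h1 i]
  simp

end SCS
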