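import Pool.Agent.SCS.ShR
import Pool.Agent.SCS.Pos

/-!
# Project SCS (architect helper40): final assembly for shellable spheres
-/

namespace SCS

open SNG Finset

theorem shell_van {ι : Type} [DecidableEq ι] {n m : ℕ} {F : Fin m → Finset ι} (h : ShS n m F)
    (hn : Odd n) (hm : 0 < m) {V : Type} [Fintype V] [LinearOrder V] (G : SimpleGraph V)
    (φ : V → Finset ι) (hi : Function.Injective φ)
    (hr : ∀ τ, (∃ v, φ v = τ) ↔ τ.Nonempty ∧ ∃ i, τ ⊆ F i)
    (hG : ∀ x y, G.Adj x y ↔ φ x ⊂ φ y ∨ φ y ⊂ φ x) : Van G := by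
  rw [van_iff_zf, zf_image (G' := cg (Finset ι)) φ (fun x _ y _ hxy => hi hxy)
    fun x _ y _ => (hG x y).symm]
  have e : univ.image φ = fc F := by
    ext τ
    rw [mem_fc, ← hr, mem_image]
    simp
  rw [e]
  exact rsh_zf (rsh_fc h hn hm)

end SCS
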