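import Pool.Agent.SCS.Chn2

/-!
# Project SCS (architect helper40), module MV: Mayer-Vietoris for von Neumann dimensions

Let `c S = dm (CC S j)`, `β_j S = dm (im bD (CC S j))`, `b_j S = bb S j`, `E = A ∩ B`, `L = A ∪ B`.
(i) `c_j S = β_j S + dm (CC S j ⊓ kr bD)` (`dm_rn`), and by `cyc_eq`, `dm_add` (`HH` is orthogonal to the
    closure of the image), `dm_closure`: `dm (CC S j ⊓ kr bD) = β_(j+1) S + b_j S`.  So
    `c_j S = β_j S + β_(j+1) S + b_j S`; `β_0 S = 0` (`bD_zero`).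
(ii) `c_j L + c_j E = c_j A + c_j B` by `CC_sup`, `CC_inf`, `dm_mod` (closed spaces).
(iii) `im bD (CC L j) = im bD (CC A j) ⊔ im bD (CC B j)` (`Submodule.map_sup`), so by `dm_mod`
    `β_j L + dm N_j = β_j A + β_j B`, `N_j = cl (im bD (CC A j)) ⊓ cl (im bD (CC B j))`.
(iv) `dm N_(j+1) = β_(j+1) E + dm (KK A B j)`.  Proof: `N_(j+1)` is closed, contains
    `M = im bD (CC E (j+1))`, and is contained in `CC A j ⊓ CC B j ⊓ kr bD = CC E j ⊓ kr bD`.
    So `N_(j+1) = cl M ⊔ (N_(j+1) ⊓ Mᗮ)` (orthogonal; for `x ∈ N` take `PP M x`), and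
    `N_(j+1) ⊓ Mᗮ = KK A B j`: an element `x` of `N_(j+1) ⊓ Mᗮ` is in `CC E j ⊓ kr bD ⊓ Mᗮ = HH E j`; and
    for `x ∈ CC A j ⊓ kr bD` (which contains `CC E j ⊓ kr bD`): `x ∈ cl (im bD (CC A (j+1)))` iff
    `PP (HH A j) x = 0`, because by `cyc_eq` `x = y + z` with `y` in the closure, `z ∈ HH A j` orthogonal to
    it, `PP (HH A j) x = z` (`PP_eq`).  The same for `B`.
(v) Put `κ_j = dm (KK A B j)`, `N_0 = ⊥` (`dm N_0 = 0`).  From (i)-(iv), subtracting:
    `b_0 L + b_0 E = b_0 A + b_0 B + κ_0`, `b_(j+1) L + b_(j+1) E = b_(j+1) A + b_(j+1) B + κ_(j+1) + κ_j`.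
(vi) `b_j E ≤ κ_j + b_j A + b_j B`: `dm_rn` for `PP (HH A j)` on `HH E j` and then for `PP (HH B j)` on
    `HH E j ⊓ kr (PP (HH A j))`, with `dm (im (PP X) Y) ≤ dm X` (`im (PP X) Y ≤ X` for closed `X`,
    `dm_mono`).  (`KK = (HH E j ⊓ kr P_A) ⊓ kr P_B` by definition.)
`mv_iff`, (⇐): all `κ_j = 0` (`dm_bot`), so (v) gives `bb L j = 0`, `dm_eq_bot`.
(⇒): by (v), (vi) `0 = b_0 L = κ_0 + (b_0 A + b_0 B - b_0 E) `; write `γ_j = b_j A + b_j B - b_j E + κ_j ≥ 0`,
`b_0 L = γ_0`, `b_(j+1) L = γ_(j+1) + κ_j`.  So all `κ_j = 0` and all `γ_j = 0`.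
-/

namespace SCS

open SNG Finset
open scoped InnerProductSpace

variable {V : Type} [Fintype V] [LinearOrder V] {G : SimpleGraph V}

/-- Elements of the closure of `X` are orthogonal to `Xᗮ`. -/
private theorem orth_cl {α : Type} {X : Submodule ℝ (Ell α)} {x y : Ell α}
    (hx : x ∈ X.topologicalClosure) (hy : y ∈ Xᗮ) : ⟪x, y⟫_ℝ = 0 := by
  have h1 : PP X x = x := by
    rw [← PP_closure]
    exact PP_self hx
  rw [← h1, PP_symm, PP_zero_iff.2 hy, inner_zero_right]

theorem inv_KK (A B : Finset V) (j : ℕ) : Inv (KK G A B j) :=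
  ((inv_HH (A ∩ B) j).inf (eqv_PP (inv_HH A j)).invKr).inf (eqv_PP (inv_HH B j)).invKr

private theorem closed_K1 (A B : Finset V) (j : ℕ) :
    IsClosed ((HH G (A ∩ B) j ⊓ kr (PP (HH G A j)) : Submodule ℝ (HW G)) : Set (HW G)) :=
  (closed_HH (A ∩ B) j).inter (kr_closed _)

theorem closed_KK (A B : Finset V) (j : ℕ) : IsClosed (KK G A B j : Set (HW G)) :=
  (closed_K1 A B j).inter (kr_closed _)

/-- (i) -/
private theorem c_eq (S : Finset V) (j : ℕ) : dm (CC G S j) =
    dm (im (bD G) (CC G S j)) + dm (im (bD G) (CC G S (j + 1))) + bb G S j := by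
  have h1 := dm_rn (eqv_bD (G := G)) (inv_CC S j) (closed_CC S j)
  have h2 : dm (CC G S j ⊓ kr (bD G)) = dm (im (bD G) (CC G S (j + 1))) + bb G S j := by
    have h3 : dm ((im (bD G) (CC G S (j + 1))).topologicalClosure ⊔ HH G S j) =
        dm (im (bD G) (CC G S (j + 1))).topologicalClosure + dm (HH G S j) :=
      dm_add fun x hx y (hy : y ∈ HH G S j) => orth_cl hx hy.2
    rw [cyc_eq, h3, dm_closure]
    rfl
  rw [h1, h2]
  ring

private theorem be_zero (S : Finset V) : dm (im (bD G) (CC G S 0)) = 0 := by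
  have h : im (bD G) (CC G S 0) = ⊥ := by
    rw [eq_bot_iff]
    intro y hy
    obtain ⟨x, hx, rfl⟩ := mem_im.1 hy
    rw [bD_zero hx]
    exact Submodule.zero_mem _
  rw [h, dm_bot]

/-- (ii) -/
private theorem c_mod {A B : Finset V} (h : NoE G A B) (j : ℕ) :
    dm (CC G (A ∪ B) j) + dm (CC G (A ∩ B) j) = dm (CC G A j) + dm (CC G B j) := by
  have h1 := dm_mod (inv_CC (G := G) A j) (inv_CC (G := G) B j)
  rw [(closed_CC (G := G) A j).submodule_topologicalClosure_eq,
    (closed_CC (G := G) B j).submodule_topologicalClosure_eq] at h1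
  rw [CC_sup h, CC_inf, h1]

/-- (iii) -/
private theorem be_mod {A B : Finset V} (h : NoE G A B) (j : ℕ) :
    dm (im (bD G) (CC G (A ∪ B) j)) + dm ((im (bD G) (CC G A j)).topologicalClosure ⊓
      (im (bD G) (CC G B j)).topologicalClosure) =
      dm (im (bD G) (CC G A j)) + dm (im (bD G) (CC G B j)) := by
  have h1 := dm_mod ((inv_CC (G := G) A j).map eqv_bD) ((inv_CC (G := G) B j).map eqv_bD)
  have h2 : im (bD G) (CC G (A ∪ B) j) = im (bD G) (CC G A j) ⊔ im (bD G) (CC G B j) := by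
    rw [CC_sup h]
    exact Submodule.map_sup _ _ _
  rw [h2, h1]

private theorem im_mono {α : Type} (T : Ell α →L[ℝ] Ell α) {X Y : Submodule ℝ (Ell α)} (h : X ≤ Y) :
    im T X ≤ im T Y := Submodule.map_mono h

private theorem cl_le_cyc (S : Finset V) (j : ℕ) :
    (im (bD G) (CC G S (j + 1))).topologicalClosure ≤ CC G S j ⊓ kr (bD G) := by
  rw [cyc_eq]
  exact le_sup_left

/-- A harmonic chain of the intersection which is killed by the projection is in the closure of
the boundaries. -/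
private theorem mem_cl {S : Finset V} {j : ℕ} {x : HW G} (hx : x ∈ CC G S j ⊓ kr (bD G))
    (h0 : PP (HH G S j) x = 0) : x ∈ (im (bD G) (CC G S (j + 1))).topologicalClosure := by
  rw [cyc_eq, Submodule.mem_sup] at hx
  obtain ⟨y, hy, z, hz, rfl⟩ := hx
  have h1 : PP (HH G S j) (y + z) = z := by
    refine PP_eq (Submodule.le_topologicalClosure _ hz) fun w hw => ?_
    rw [add_sub_cancel_right]
    exact orth_cl hy hw.2
  rw [h1] at h0
  rw [h0, add_zero]
  exact hy

/-- (iv) -/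
private theorem N_eq (A B : Finset V) (j : ℕ) :
    (im (bD G) (CC G A (j + 1))).topologicalClosure ⊓
      (im (bD G) (CC G B (j + 1))).topologicalClosure =
      (im (bD G) (CC G (A ∩ B) (j + 1))).topologicalClosure ⊔ KK G A B j := by
  have hM : (im (bD G) (CC G (A ∩ B) (j + 1))).topologicalClosure ≤
      (im (bD G) (CC G A (j + 1))).topologicalClosure ⊓
      (im (bD G) (CC G B (j + 1))).topologicalClosure :=
    le_inf (Submodule.topologicalClosure_mono (im_mono _ (CC_mono Finset.inter_subset_left _)))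
      (Submodule.topologicalClosure_mono (im_mono _ (CC_mono Finset.inter_subset_right _)))
  apply le_antisymm
  · intro x hx
    rw [Submodule.mem_sup]
    refine ⟨PP (im (bD G) (CC G (A ∩ B) (j + 1))) x, PP_mem _ _,
      x - PP (im (bD G) (CC G (A ∩ B) (j + 1))) x, ?_, add_sub_cancel _ _⟩
    set w := x - PP (im (bD G) (CC G (A ∩ B) (j + 1))) x with hw
    have hwN := Submodule.sub_mem _ hx (hM (PP_mem (im (bD G) (CC G (A ∩ B) (j + 1))) x))
    rw [← hw] at hwN
    have hwo : w ∈ (im (bD G) (CC G (A ∩ B) (j + 1)))ᗮ := by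
      rw [Submodule.mem_orthogonal']
      exact fun y hy => PP_sub _ x y hy
    have hA := cl_le_cyc A j hwN.1
    have hB := cl_le_cyc B j hwN.2
    refine ⟨⟨⟨⟨?_, hA.2⟩, hwo⟩, ?_⟩, ?_⟩
    · rw [CC_inf]
      exact ⟨hA.1, hB.1⟩
    · refine mem_kr.2 (PP_zero_iff.2 ?_)
      rw [Submodule.mem_orthogonal']
      exact fun y hy => orth_cl hwN.1 hy.2
    · refine mem_kr.2 (PP_zero_iff.2 ?_)
      rw [Submodule.mem_orthogonal']
      exact fun y hy => orth_cl hwN.2 hy.2
  · refine sup_le hM ?_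
    intro x hx
    have hE : x ∈ CC G (A ∩ B) j ⊓ kr (bD G) := hx.1.1.1
    have hE' := hE.1
    rw [CC_inf] at hE'
    exact ⟨mem_cl ⟨hE'.1, hE.2⟩ hx.1.2, mem_cl ⟨hE'.2, hE.2⟩ hx.2⟩

private theorem N_dm (A B : Finset V) (j : ℕ) :
    dm ((im (bD G) (CC G A (j + 1))).topologicalClosure ⊓
      (im (bD G) (CC G B (j + 1))).topologicalClosure) =
      dm (im (bD G) (CC G (A ∩ B) (j + 1))) + dm (KK G A B j) := by
  have h3 : dm ((im (bD G) (CC G (A ∩ B) (j + 1))).topologicalClosure ⊔ KK G A B j) =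
      dm (im (bD G) (CC G (A ∩ B) (j + 1))).topologicalClosure + dm (KK G A B j) :=
    dm_add fun x hx y (hy : y ∈ KK G A B j) => orth_cl hx hy.1.1.2
  rw [N_eq, h3, dm_closure]

/-- (v), `j = 0` -/
private theorem rec_zero {A B : Finset V} (h : NoE G A B) :
    bb G (A ∪ B) 0 + bb G (A ∩ B) 0 = bb G A 0 + bb G B 0 + dm (KK G A B 0) := by
  have h1 := c_eq (G := G) (A ∪ B) 0
  have h2 := c_eq (G := G) (A ∩ B) 0
  have h3 := c_eq (G := G) A 0
  have h4 := c_eq (G := G) B 0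
  rw [be_zero] at h1 h2 h3 h4
  have h5 := c_mod h 0
  have h6 := be_mod h (0 + 1)
  have h7 := N_dm (G := G) A B 0
  linarith

/-- (v), `j + 1` -/
private theorem rec_succ {A B : Finset V} (h : NoE G A B) (j : ℕ) :
    bb G (A ∪ B) (j + 1) + bb G (A ∩ B) (j + 1) =
      bb G A (j + 1) + bb G B (j + 1) + dm (KK G A B (j + 1)) + dm (KK G A B j) := by
  have h1 := c_eq (G := G) (A ∪ B) (j + 1)
  have h2 := c_eq (G := G) (A ∩ B) (j + 1)
  have h3 := c_eq (G := G) A (j + 1)
  have h4 := c_eq (G := G) B (j + 1)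
  have h5 := c_mod h (j + 1)
  have h6 := be_mod h (j + 1)
  have h7 := N_dm (G := G) A B j
  have h8 := be_mod h (j + 1 + 1)
  have h9 := N_dm (G := G) A B (j + 1)
  linarith

omit [LinearOrder V] in
private theorem dm_im_PP {X Y : Submodule ℝ (HW G)} (hX : IsClosed (X : Set (HW G))) :
    dm (im (PP X) Y) ≤ dm X := by
  refine dm_mono fun y hy => ?_
  obtain ⟨x, -, rfl⟩ := mem_im.1 hy
  have h := PP_mem X x
  rwa [hX.submodule_topologicalClosure_eq] at h

/-- (vi) -/
private theorem bb_le (A B : Finset V) (j : ℕ) :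
    bb G (A ∩ B) j ≤ dm (KK G A B j) + bb G A j + bb G B j := by
  have h1 := dm_rn (eqv_PP (inv_HH (G := G) A j)) (inv_HH (G := G) (A ∩ B) j)
    (closed_HH (A ∩ B) j)
  have h2 := dm_rn (eqv_PP (inv_HH (G := G) B j))
    ((inv_HH (G := G) (A ∩ B) j).inf (eqv_PP (inv_HH A j)).invKr) (closed_K1 A B j)
  have h3 := dm_im_PP (Y := HH G (A ∩ B) j) (closed_HH (G := G) A j)
  have h4 := dm_im_PP (Y := HH G (A ∩ B) j ⊓ kr (PP (HH G A j))) (closed_HH (G := G) B j)
  unfold bb
  have h5 : dm (KK G A B j) = dm (HH G (A ∩ B) j ⊓ kr (PP (HH G A j)) ⊓ kr (PP (HH G B j))) := rfl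
  rw [h5]
  linarith

theorem mv_iff {A B : Finset V} (h : NoE G A B) : (∀ j, HH G (A ∪ B) j = ⊥) ↔
    ∀ j, KK G A B j = ⊥ ∧ bb G A j + bb G B j = bb G (A ∩ B) j := by
  constructor
  · intro hL
    have hb : ∀ j, bb G (A ∪ B) j = 0 := fun j => by
      unfold bb
      rw [hL j, dm_bot]
    have hk : ∀ j, dm (KK G A B j) ≤ 0 := by
      intro j
      have h1 := rec_succ h j
      have h2 := bb_le (G := G) A B (j + 1)
      have h3 := hb (j + 1)
      linarith
    have hk0 : ∀ j, dm (KK G A B j) = 0 := fun j => le_antisymm (hk j) (dm_nonneg _)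
    intro j
    refine ⟨dm_eq_bot (inv_KK A B j) (hk j), ?_⟩
    rcases j with _ | j
    · have h1 := rec_zero h
      have h2 := hb 0
      have h3 := hk0 0
      linarith
    · have h1 := rec_succ h j
      have h2 := hb (j + 1)
      have h3 := hk0 (j + 1)
      have h4 := hk0 j
      linarith
  · intro hR
    have hk0 : ∀ j, dm (KK G A B j) = 0 := fun j => by rw [(hR j).1, dm_bot]
    intro j
    refine dm_eq_bot (inv_HH (A ∪ B) j) ?_
    change bb G (A ∪ B) j ≤ 0
    rcases j with _ | j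
    · have h1 := rec_zero h
      have h2 := (hR 0).2
      have h3 := hk0 0
      linarith
    · have h1 := rec_succ h j
      have h2 := (hR (j + 1)).2
      have h3 := hk0 (j + 1)
      have h4 := hk0 j
      linarith

end SCS
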