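import Pool.Agent.SCS.Cone
import Pool.Agent.SCS.MV
import Pool.Agent.SNG.Coc

/-!
# Project SCS (architect helper40), module Susp: suspensions

`a ≠ b` not adjacent, both adjacent to all elements of `Y`, `a, b ∉ Y`.
`inf_order`: the powers `(sm a * sm b) ^ n`, `n : ℕ`, are pairwise different.  There is a homomorphism
`W G →* DihedralGroup 0` with `sm a ↦ sr 0`, `sm b ↦ sr 1`, all other generators to `1` (the relations:
`sr i * sr i = 1`; for adjacent `s, t` at most one of them is in `{a, b}`; `SNG.exists_lift` in module Coc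
or `CoxeterSystem.lift`); `sr 0 * sr 1 = r 1` and `r 1 ^ n = r n`, injective in `n` as
`ZMod 0 = ℤ`.
`susp_hh`: `mv_iff` for `insert a Y`, `insert b Y`: the intersection is `Y`, the union is
`insert a (insert b Y)`, and `NoE` holds.  `bb (insert a Y) j + bb (insert b Y) j = bb Y j / 2 + bb Y j / 2`
by `bb_cone`.  Let `x ∈ KK`: `x ∈ HH Y j`, `PP_cone`: `x + rt (sm a) x = 0`, `x + rt (sm b) x = 0`.  So
`rt (sm a * sm b) x = x` (`rt_mul`), hence `x (T, g * (sm a * sm b) ^ n) = x (T, g)` for all `n`.  The
points `(T, g * (sm a * sm b) ^ n)` are pairwise different and `x` is square summable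
(`ell_summable`, compose with an injective map `ℕ → _`: the constant `x (T, g) ^ 2` is summable over `ℕ`,
`summable_const_iff`), so `x (T, g) = 0`.
-/

namespace SCS

open SNG Finset
open scoped InnerProductSpace

theorem inf_order {V : Type} {G : SimpleGraph V} {a b : V} (hab : a ≠ b) (hn : ¬ G.Adj a b) :
    Function.Injective fun n : ℕ => (sm G a * sm G b) ^ n := by
  classical
  let p : V → DihedralGroup 0 := fun v =>
    if v = a then DihedralGroup.sr 0 else if v = b then DihedralGroup.sr 1 else 1
  have pa : p a = DihedralGroup.sr 0 := if_pos rfl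
  have pb : p b = DihedralGroup.sr 1 := by
    change (if b = a then _ else if b = b then _ else _) = _
    rw [if_neg hab.symm, if_pos rfl]
  have pc : ∀ v, v ≠ a → v ≠ b → p v = 1 := by
    intro v h1 h2
    change (if v = a then _ else if v = b then _ else _) = _
    rw [if_neg h1, if_neg h2]
  obtain ⟨φ, hφ⟩ := exists_lift G p (fun v => by
    by_cases h1 : v = a
    · rw [h1, pa, DihedralGroup.sr_mul_self]
    · by_cases h2 : v = b
      · rw [h2, pb, DihedralGroup.sr_mul_self]
      · rw [pc v h1 h2, one_mul]) (fun v w hvw => by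
    by_cases h1 : v = a
    · have h2 : w ≠ a := fun h => G.ne_of_adj hvw (h1.trans h.symm)
      have h3 : w ≠ b := fun h => hn (by rw [← h1, ← h]; exact hvw)
      rw [pc w h2 h3, mul_one, one_mul]
    · by_cases h2 : v = b
      · have h3 : w ≠ b := fun h => G.ne_of_adj hvw (h2.trans h.symm)
        have h4 : w ≠ a := fun h => hn (by rw [← h2, ← h]; exact hvw.symm)
        rw [pc w h4 h3, mul_one, one_mul]
      · rw [pc v h1 h2, mul_one, one_mul])
  intro n m hnm
  have h1 := congrArg φ hnm
  simp only [map_pow, map_mul, hφ, pa, pb, DihedralGroup.sr_mul_sr, sub_zero,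
    DihedralGroup.r_one_pow] at h1
  have h2 : ((n : ℕ) : ZMod 0) = ((m : ℕ) : ZMod 0) := DihedralGroup.r.inj h1
  exact Nat.cast_injective (R := ZMod 0) h2

variable {V : Type} [Fintype V] [LinearOrder V] {G : SimpleGraph V}

private theorem rt_neg_of {Y : Finset V} {c : V} (hcY : c ∉ Y) (hc : ∀ y ∈ Y, G.Adj c y) {j : ℕ}
    {f : HW G} (hf : f ∈ HH G Y j) (hk : f ∈ kr (PP (HH G (insert c Y) j))) :
    rt (sm G c) f = - f := by
  have h1 : PP (HH G (insert c Y) j) f = 0 := hk
  rw [PP_cone hcY hc hf] at h1
  have h2 : f + rt (sm G c) f = 0 := by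
    rcases smul_eq_zero.1 h1 with h | h
    · norm_num at h
    · exact h
  exact (neg_eq_of_add_eq_zero_right h2).symm

theorem susp_hh {Y : Finset V} {a b : V} (ha : a ∉ Y) (hb : b ∉ Y) (hab : a ≠ b)
    (hn : ¬ G.Adj a b) (h : ∀ y ∈ Y, G.Adj a y ∧ G.Adj b y) (j : ℕ) :
    HH G (insert a (insert b Y)) j = ⊥ := by
  have hint : insert a Y ∩ insert b Y = Y := by
    ext x
    simp only [mem_inter, mem_insert]
    constructor
    · rintro ⟨h1 | h1, h2 | h2⟩
      · exact absurd (h1.symm.trans h2) hab
      · exact h2
      · exact h1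
      · exact h1
    · exact fun h1 => ⟨Or.inr h1, Or.inr h1⟩
  have hun : insert a Y ∪ insert b Y = insert a (insert b Y) := by
    ext x
    simp only [mem_union, mem_insert]
    tauto
  have hno : NoE G (insert a Y) (insert b Y) := by
    intro x hx hx' y hy hy'
    have h1 : x = a := by
      rcases mem_insert.1 hx with h1 | h1
      · exact h1
      · exact absurd (mem_insert_of_mem h1) hx'
    have h2 : y = b := by
      rcases mem_insert.1 hy with h2 | h2
      · exact h2
      · exact absurd (mem_insert_of_mem h2) hy'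
    rw [h1, h2]
    exact hn
  have key := (mv_iff hno).2 (fun j => by
    rw [hint]
    refine ⟨?_, ?_⟩
    · rw [eq_bot_iff]
      intro x hx
      unfold KK at hx
      rw [hint, Submodule.mem_inf, Submodule.mem_inf] at hx
      obtain ⟨⟨hx1, hx2⟩, hx3⟩ := hx
      have hA := rt_neg_of ha (fun y hy => (h y hy).1) hx1 hx2
      have hB := rt_neg_of hb (fun y hy => (h y hy).2) hx1 hx3
      have hAB : rt (sm G a * sm G b) x = x := by
        rw [rt_mul, hB, map_neg, hA, neg_neg]
      have hpow : ∀ n : ℕ, rt ((sm G a * sm G b) ^ n) x = x := by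
        intro n
        induction n with
        | zero => rw [pow_zero, rt_one]
        | succ n ih => rw [pow_succ, rt_mul, hAB, ih]
      rw [Submodule.mem_bot]
      refine ell_ext ?_
      rintro ⟨T, g⟩
      have hval : ∀ n : ℕ, x (T, g * (sm G a * sm G b) ^ n) = x (T, g) := by
        intro n
        have h1 := rt_apply ((sm G a * sm G b) ^ n) x (T, g)
        rw [hpow n] at h1
        exact h1.symm
      have hinj : Function.Injective fun n : ℕ => ((T, g * (sm G a * sm G b) ^ n) : Finset V × W G) := by
        intro n m hnm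
        have h1 := congrArg Prod.snd hnm
        exact inf_order hab hn (mul_left_cancel h1)
      have hs := (ell_summable x).comp_injective hinj
      have hs2 : Summable fun _ : ℕ => x (T, g) ^ 2 := by
        refine hs.congr ?_
        intro n
        simp only [Function.comp_apply, hval n]
      have h0 := (summable_const_iff _).1 hs2
      rw [ell_zero]
      exact pow_eq_zero_iff (two_ne_zero) |>.1 h0
    · rw [bb_cone ha (fun y hy => (h y hy).1), bb_cone hb (fun y hy => (h y hy).2)]
      ring) j
  rwa [hun] at key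

end SCS
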