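import Pool.Agent.SNG.Core

/-!
# Project SCS (architect helper40), module ZDefs: vanishing of the square summable homology
-/

namespace SCS

open SNG Finset

/-- All square summable harmonic chains of the Davis complex of the right-angled Coxeter group with
nerve the flag complex of `G` vanish. -/
def Van {V : Type} [Fintype V] [LinearOrder V] (G : SimpleGraph V) : Prop :=
  ∀ (i : ℕ) (f : Finset V → W G → ℝ), Harm G (sm G) i f → (∀ T, Summable fun w => f T w ^ 2) → f = 0

/-- The same for the graph induced on the finite set `S`, for all orders of the vertices. -/
def ZF {V : Type} (G : SimpleGraph V) (S : Finset V) : Prop :=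
  ∀ _ : LinearOrder {x // x ∈ S}, Van (G.comap (Subtype.val : {x // x ∈ S} → V))

end SCS
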