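import Pool.Agent.SCS.TBase
import Pool.Agent.SCS.ZDefs
import Pool.Agent.SCS.Chn3

/-!
# Project SCS (architect helper40), module Trans2: from the chains on a subset of `V'` to the chains on `V`

`e : V ↪ V'` preserves and reflects adjacency, `S' = univ.map e`; `φ, ρ` from `exists_retr`, `ε` from
`exists_eps` (`ε T * ε T = 1`).

`to_van`.  Let `f` be as in `Van G` (`Harm`, degree `j`, square summable).  Define `F (T', g') =
ε T * f T (ρ g')` if `T' ⊆ S'` and `g' ∈ φ.range`, where `T = T'.preimage e` (or `univ.filter (e · ∈ T')`),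
and `0` otherwise.  Square summable: the map `(T, w) ↦ (T.map e, φ w)` is injective, the values at the
points of its range are `ε T * f T w`, outside it `F` vanishes (`Function.Injective.summable_iff`);
`∑_(T, w)` is finite for each of the finitely many `T`.  `F ∈ HH G' S' j` by
`mem_HH` (boundary: `bdry F (T.map e) g' = ∑_{s ∉ T} sg (T.map e) (e s) * F (insert (e s) (T.map e), g')` and
`sg (T.map e) (e s) * ε (insert s T) = ε T * sg T s`; coboundary: for `s ∈ T`, `T₁ = T.erase s`,
`sg (T₁.map e) (e s) * ε T₁ = ε T * sg T₁ s`): for `g' = φ w` they reduce to the identities for `f` at `w` (`g' * sm (e s) =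
φ (w * sm s)`), for `g' ∉ φ.range` all values vanish (`g' * sm (e s) ∉ φ.range`).
The hypothesis gives `F = 0`, so `f T w = ε T * F (T.map e, φ w) = 0`.
-/

namespace SCS

open SNG Finset

variable {V V' : Type} [Fintype V] [LinearOrder V] [Fintype V'] [LinearOrder V']
  {G : SimpleGraph V} {G' : SimpleGraph V'}

private def pre (e : V ↪ V') (T' : Finset V') : Finset V := univ.filter fun x => e x ∈ T'

omit [LinearOrder V] [Fintype V'] in
private theorem pre_map (e : V ↪ V') (T : Finset V) : pre e (T.map e) = T := by
  ext x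
  unfold pre
  rw [Finset.mem_filter, Finset.mem_map' e]
  simp

omit [LinearOrder V] [Fintype V'] in
private theorem map_pre (e : V ↪ V') {T' : Finset V'} (h : T' ⊆ univ.map e) :
    (pre e T').map e = T' := by
  ext y
  rw [Finset.mem_map]
  constructor
  · rintro ⟨x, hx, rfl⟩
    exact (Finset.mem_filter.1 hx).2
  · intro hy
    obtain ⟨x, _, rfl⟩ := Finset.mem_map.1 (h hy)
    exact ⟨x, Finset.mem_filter.2 ⟨Finset.mem_univ _, hy⟩, rfl⟩

open Classical in
private noncomputable def F0 (e : V ↪ V') (φ : W G →* W G') (ρ : W G' →* W G)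
    (ε : Finset V → ℝ) (f : Finset V → W G → ℝ) (q : Finset V' × W G') : ℝ :=
  if q.1 ⊆ univ.map e ∧ q.2 ∈ φ.range then ε (pre e q.1) * f (pre e q.1) (ρ q.2) else 0

theorem to_van (e : V ↪ V') (he : ∀ x y, G'.Adj (e x) (e y) ↔ G.Adj x y)
    (h : ∀ j, HH G' (univ.map e) j = ⊥) : Van G := by
  intro j f hf hs
  obtain ⟨φ, ρ, hφ, -, hρφ⟩ := exists_retr e he
  obtain ⟨ε, hε1, hε2⟩ := exists_eps e
  have hεε : ∀ T, ε T * ε T = 1 := fun T => by rw [← pow_two, hε1]
  have hφi : Function.Injective φ := fun x y hxy => by rw [← hρφ x, hxy, hρφ]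
  -- values
  have hval : ∀ (T : Finset V) (w : W G), F0 e φ ρ ε f (T.map e, φ w) = ε T * f T w := by
    intro T w
    unfold F0
    rw [if_pos ⟨Finset.map_subset_map.2 (Finset.subset_univ T), ⟨w, rfl⟩⟩, pre_map, hρφ]
  have hz1 : ∀ (T' : Finset V') (g' : W G'), ¬ T' ⊆ univ.map e → F0 e φ ρ ε f (T', g') = 0 := by
    intro T' g' h1
    unfold F0
    rw [if_neg fun h2 => h1 h2.1]
  have hz2 : ∀ (T' : Finset V') (g' : W G'), g' ∉ φ.range → F0 e φ ρ ε f (T', g') = 0 := by
    intro T' g' h1
    unfold F0
    rw [if_neg fun h2 => h1 h2.2]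
  -- summability
  have hsum : Summable fun q => F0 e φ ρ ε f q ^ 2 := by
    have hi : Function.Injective (fun q : Finset V × W G => ((q.1.map e, φ q.2) :
        Finset V' × W G')) := by
      intro a b hab
      have h1 := Finset.map_injective e (congrArg Prod.fst hab)
      have h2 := hφi (congrArg Prod.snd hab)
      exact Prod.ext h1 h2
    rw [← hi.summable_iff]
    · have h1 : ((fun q => F0 e φ ρ ε f q ^ 2) ∘ fun q : Finset V × W G => ((q.1.map e, φ q.2) :
          Finset V' × W G')) = fun q : Finset V × W G => f q.1 q.2 ^ 2 := by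
        funext q
        change F0 e φ ρ ε f (q.1.map e, φ q.2) ^ 2 = f q.1 q.2 ^ 2
        rw [hval, mul_pow, hε1, one_mul]
      rw [h1]
      rw [summable_prod_of_nonneg (fun q => sq_nonneg _)]
      exact ⟨fun T => hs T, (hasSum_fintype _).summable⟩
    · rintro ⟨T', g'⟩ hq
      by_cases h1 : T' ⊆ univ.map e
      · by_cases h2 : g' ∈ φ.range
        · exfalso
          obtain ⟨w, hw⟩ := h2
          exact hq ⟨(pre e T', w), Prod.ext (map_pre e h1) hw⟩
        · rw [hz2 T' g' h2]; norm_num
      · rw [hz1 T' g' h1]; norm_num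
  obtain ⟨F, hF⟩ : ∃ F : HW G', ∀ q, F q = F0 e φ ρ ε f q := ⟨mkE _ hsum, fun _ => rfl⟩
  have hmulr : ∀ (s : V) (g' : W G'), g' ∉ φ.range → g' * sm G' (e s) ∉ φ.range := by
    intro s g' h1 h2
    apply h1
    have h3 : sm G' (e s) ∈ φ.range := ⟨sm G s, hφ s⟩
    have h4 := φ.range.mul_mem h2 h3
    rwa [mul_assoc, sm_mul_self, mul_one] at h4
  have hFF : F ∈ HH G' (univ.map e) j := by
    rw [mem_HH, mem_CC]
    refine ⟨⟨fun T' hT' g' => ?_, fun T' s' hs' g' => ?_⟩, fun T' g' => ?_, fun T' hT' _ g' => ?_⟩
    · rw [hF]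
      by_cases h1 : T' ⊆ univ.map e
      · by_cases h2 : g' ∈ φ.range
        · obtain ⟨w, rfl⟩ := h2
          rw [← map_pre e h1, hval, hf.supp, mul_zero]
          rintro ⟨h3, h4⟩
          apply hT'
          refine ⟨h1, ?_, ?_⟩
          · rw [← map_pre e h1]
            intro x hx y hy hxy
            obtain ⟨a, ha, rfl⟩ := Finset.mem_map.1 (Finset.mem_coe.1 hx)
            obtain ⟨b, hb, rfl⟩ := Finset.mem_map.1 (Finset.mem_coe.1 hy)
            rw [he]
            exact h3 (Finset.mem_coe.2 ha) (Finset.mem_coe.2 hb) fun h => hxy (by rw [h])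
          · rw [← map_pre e h1, Finset.card_map, h4]
        · exact hz2 T' g' h2
      · exact hz1 T' g' h1
    · rw [hF, hF]
      by_cases h1 : T' ⊆ univ.map e
      · obtain ⟨s, -, rfl⟩ := Finset.mem_map.1 (h1 hs')
        by_cases h2 : g' ∈ φ.range
        · obtain ⟨w, rfl⟩ := h2
          rw [← hφ s, ← map_mul, ← map_pre e h1, hval, hval, hf.alt, mul_neg]
          exact Finset.mem_filter.2 ⟨Finset.mem_univ _, hs'⟩
        · rw [hz2 T' g' h2, hz2 T' _ (hmulr s g' h2), neg_zero]
      · rw [hz1 T' g' h1, hz1 T' _ h1, neg_zero]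
    · unfold bdry
      by_cases h1 : T' ⊆ univ.map e
      · by_cases h2 : g' ∈ φ.range
        · obtain ⟨w, rfl⟩ := h2
          obtain ⟨T, rfl⟩ : ∃ T : Finset V, T.map e = T' := ⟨_, map_pre e h1⟩
          have h3 : (Tᶜ).map e ⊆ (T.map e)ᶜ := by
            intro y hy
            obtain ⟨x, hx, rfl⟩ := Finset.mem_map.1 hy
            rw [Finset.mem_compl, Finset.mem_map' e]
            exact Finset.mem_compl.1 hx
          rw [← Finset.sum_subset h3, Finset.sum_map]
          · have h4 : ∀ s ∈ Tᶜ, sg (T.map e) (e s) * F (insert (e s) (T.map e), φ w) =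
                ε T * (sg T s * f (insert s T) w) := by
              intro s hs
              rw [Finset.mem_compl] at hs
              rw [hε2 T s hs, hF, ← Finset.map_insert, hval]
              have h5 := hεε (insert s T)
              calc sg T s * ε T * ε (insert s T) * (ε (insert s T) * f (insert s T) w)
                  = (ε (insert s T) * ε (insert s T)) * (ε T * (sg T s * f (insert s T) w)) := by
                    ring
                _ = _ := by rw [h5, one_mul]
            rw [Finset.sum_congr rfl h4, ← Finset.mul_sum]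
            have h6 := hf.bd0 T w
            unfold bdry at h6
            rw [h6, mul_zero]
          · intro y hy hy'
            change sg (T.map e) y * F (insert y (T.map e), φ w) = 0
            rw [hF, hz1, mul_zero]
            intro h4
            obtain ⟨x, -, rfl⟩ := Finset.mem_map.1 (h4 (Finset.mem_insert_self _ _))
            apply hy'
            rw [Finset.mem_map' e, Finset.mem_compl]
            rw [Finset.mem_compl, Finset.mem_map' e] at hy
            exact hy
        · refine Finset.sum_eq_zero fun s' _ => ?_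
          change sg T' s' * F (insert s' T', g') = 0
          rw [hF, hz2 _ g' h2, mul_zero]
      · refine Finset.sum_eq_zero fun s' _ => ?_
        change sg T' s' * F (insert s' T', g') = 0
        rw [hF, hz1, mul_zero]
        intro h2
        exact h1 ((Finset.subset_insert _ _).trans h2)
    · unfold cobd
      obtain ⟨T, rfl⟩ : ∃ T : Finset V, T.map e = T' := ⟨_, map_pre e hT'⟩
      rw [Finset.sum_map]
      by_cases h2 : g' ∈ φ.range
      · obtain ⟨w, rfl⟩ := h2
        have h4 : ∀ s ∈ T, sg ((T.map e).erase (e s)) (e s) * (F ((T.map e).erase (e s), φ w) -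
            F ((T.map e).erase (e s), φ w * sm G' (e s))) =
            ε T * (sg (T.erase s) s * (f (T.erase s) w - f (T.erase s) (w * sm G s))) := by
          intro s hs
          rw [← Finset.map_erase, hε2 (T.erase s) s (Finset.notMem_erase s T),
            Finset.insert_erase hs, hF, hF, ← hφ s, ← map_mul, hval, hval]
          have h5 := hεε (T.erase s)
          calc sg (T.erase s) s * ε (T.erase s) * ε T * (ε (T.erase s) * f (T.erase s) w -
                ε (T.erase s) * f (T.erase s) (w * sm G s))
              = (ε (T.erase s) * ε (T.erase s)) * (ε T * (sg (T.erase s) s *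
                (f (T.erase s) w - f (T.erase s) (w * sm G s)))) := by ring
            _ = _ := by rw [h5, one_mul]
        rw [Finset.sum_congr rfl h4, ← Finset.mul_sum]
        have hcl : G.IsClique (T : Set V) := by
          intro x hx y hy hxy
          rw [← he]
          rename_i hc
          exact hc (Finset.mem_coe.2 (Finset.mem_map_of_mem e (Finset.mem_coe.1 hx)))
            (Finset.mem_coe.2 (Finset.mem_map_of_mem e (Finset.mem_coe.1 hy)))
            fun h => hxy (e.injective h)
        have h6 := hf.cobd0 T hcl w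
        unfold cobd at h6
        rw [h6, mul_zero]
      · refine Finset.sum_eq_zero fun s _ => ?_
        change sg ((T.map e).erase (e s)) (e s) * (F ((T.map e).erase (e s), g') -
          F ((T.map e).erase (e s), g' * sm G' (e s))) = 0
        rw [hF, hF, hz2 _ g' h2, hz2 _ _ (hmulr s g' h2), sub_zero, mul_zero]
  rw [h j, Submodule.mem_bot] at hFF
  funext T w
  have h7 : F (T.map e, φ w) = 0 := by rw [hFF]; rfl
  rw [hF, hval] at h7
  calc f T w = (ε T * ε T) * f T w := by rw [hεε, one_mul]
    _ = ε T * (ε T * f T w) := by ring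
    _ = 0 := by rw [h7, mul_zero]

end SCS
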