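import Pool.Agent.SCS.Trans
import Pool.Agent.SCS.Trans2
import Pool.Agent.SCS.Csum
import Pool.Agent.SCS.Susp

/-!
# Project SCS (architect helper40), module Iface: the rules for `ZF`

`zf_iff`: (→) the subtype `{x // x ∈ S}` has a linear order (`Subtype.instLinearOrder`), apply `van_to` to
the embedding `Function.Embedding.subtype`; `univ.map` of it is `S` (`Finset.univ_eq_attach`,
`Finset.attach_map_val`).  (←) `to_van` for every order (instances: introduce the order with `intro i`,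
the `Fintype` instance is unique, `Subsingleton.elim`).
`van_iff_zf`: `zf_iff` for `S = univ` and `van_to`, `to_van` for `Function.Embedding.refl V`.
`zf_image`: let `S' = S.image e`, `E : {x // x ∈ S} ≃ {y // y ∈ S'}` (`Equiv.ofBijective`).  (→) Let an order
on `{y // y ∈ S'}` be given; choose any order on `{x // x ∈ S}` (e.g. `LinearOrder.lift'` along `E`);
`Van (G.comap val)` gives `HH (G'.comap val) univ j = ⊥` by `van_to` (`univ.map E = univ`) and then
`Van (G'.comap val)` by `to_van` for the identity.  (←) the same with `E.symm`.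
`zf_csum`, `zf_mv`, `zf_cone`, `zf_susp`: put `U` = the finite set of all vertices involved
(`insert c (A ∪ B)`, `A ∪ B`, `insert c Y`, `insert a (insert b Y)`), `V₀ = {x // x ∈ U}` with some linear order
(e.g. `LinearOrder.lift'` along `Fintype.equivFin V₀`; beware of the two instances of `DecidableEq V₀`,
`convert` or `Subsingleton.elim` closes the gap), `G₀ = G.comap val`, `A₀ = {x : V₀ | x.1 ∈ A}` and so on,
so that `A₀.image val = A`.  By `zf_image` (`e = val`) and `zf_iff` the claims become statements on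
`HH G₀`: `csum_hh`, `mv_iff` (if `HH (A ∩ B) j = ⊥` then `KK = ⊥`, and all `bb` vanish: `dm_bot`),
`hh_cone_iff` (`HH (insert c Y) ≤ HH Y`), `susp_hh`.
It may be convenient to prove first one lemma: for `S ⊆ U`,
`ZF G S ↔ ∀ j, HH (G.comap (Subtype.val : {x // x ∈ U} → V)) (univ.filter fun x => x.1 ∈ S) j = ⊥`
for every linear order on `{x // x ∈ U}`.
-/

namespace SCS

open SNG Finset

theorem zf_iff {V : Type} [Fintype V] [LinearOrder V] {G : SimpleGraph V} {S : Finset V} :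
    ZF G S ↔ ∀ j, HH G S j = ⊥ := by
  have hm : (univ : Finset {x // x ∈ S}).map (Function.Embedding.subtype fun x => x ∈ S) = S := by
    ext x
    simp
  constructor
  · intro h j
    have h1 := van_to (Function.Embedding.subtype fun x => x ∈ S) (G' := G)
      (G := G.comap (Subtype.val : {x // x ∈ S} → V)) (fun _ _ => Iff.rfl) (h inferInstance) j
    rwa [hm] at h1
  · intro h i
    refine to_van (Function.Embedding.subtype fun x => x ∈ S) (G' := G) (fun _ _ => Iff.rfl)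
      fun j => ?_
    rw [hm]
    exact h j

private theorem van_iff_hh {V : Type} [Fintype V] [LinearOrder V] {G : SimpleGraph V} :
    Van G ↔ ∀ j, HH G univ j = ⊥ := by
  constructor
  · intro h j
    have h1 := van_to (Function.Embedding.refl V) (G' := G) (fun _ _ => Iff.rfl) h j
    rwa [map_refl] at h1
  · intro h
    refine to_van (Function.Embedding.refl V) (G' := G) (fun _ _ => Iff.rfl) fun j => ?_
    rw [map_refl]
    exact h j

theorem van_iff_zf {V : Type} [Fintype V] [LinearOrder V] {G : SimpleGraph V} :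
    Van G ↔ ZF G univ := by
  rw [zf_iff]
  exact van_iff_hh

private theorem vanA_congr {X Y : Type} [Fintype X] [Fintype Y] {G1 : SimpleGraph X}
    {G2 : SimpleGraph Y} (E : X ≃ Y) (hE : ∀ x y, G2.Adj (E x) (E y) ↔ G1.Adj x y)
    (h : ∀ _ : LinearOrder X, Van G1) : ∀ _ : LinearOrder Y, Van G2 := by
  intro i
  let i' : LinearOrder X := LinearOrder.lift' E E.injective
  rw [van_iff_hh]
  intro j
  have h1 := van_to E.toEmbedding (G' := G2) hE (h i') j
  rwa [map_univ_equiv] at h1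

variable {V V' : Type} [DecidableEq V] [DecidableEq V'] {G : SimpleGraph V} {G' : SimpleGraph V'}

omit [DecidableEq V] in
theorem zf_image {S : Finset V} (e : V → V') (hi : ∀ x ∈ S, ∀ y ∈ S, e x = e y → x = y)
    (he : ∀ x ∈ S, ∀ y ∈ S, G'.Adj (e x) (e y) ↔ G.Adj x y) : ZF G S ↔ ZF G' (S.image e) := by
  let E : {x // x ∈ S} ≃ {y // y ∈ S.image e} :=
    Equiv.ofBijective (fun x => ⟨e x.1, mem_image_of_mem e x.2⟩) (by
      constructor
      · intro x y hxy
        exact Subtype.ext (hi x.1 x.2 y.1 y.2 (congrArg Subtype.val hxy))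
      · rintro ⟨y, hy⟩
        obtain ⟨x, hx, rfl⟩ := mem_image.1 hy
        exact ⟨⟨x, hx⟩, rfl⟩)
  have hE : ∀ x y, (G'.comap (Subtype.val : {y // y ∈ S.image e} → V')).Adj (E x) (E y) ↔
      (G.comap (Subtype.val : {x // x ∈ S} → V)).Adj x y := fun x y => he x.1 x.2 y.1 y.2
  constructor
  · intro h
    exact vanA_congr E hE h
  · intro h
    refine vanA_congr E.symm (fun x y => ?_) h
    rw [← hE, E.apply_symm_apply, E.apply_symm_apply]

/-- the part of `S` in the subtype of `U` -/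
private def res (U S : Finset V) : Finset {x // x ∈ U} := univ.filter fun x => x.1 ∈ S

private theorem mem_res {U S : Finset V} {x : {x // x ∈ U}} : x ∈ res U S ↔ x.1 ∈ S := by
  simp [res]

private theorem zf_sub {U S : Finset V} (hS : S ⊆ U) [LinearOrder {x // x ∈ U}] :
    ZF G S ↔ ∀ j, HH (G.comap (Subtype.val : {x // x ∈ U} → V)) (res U S) j = ⊥ := by
  have h1 : (res U S).image Subtype.val = S := by
    ext x
    rw [mem_image]
    constructor
    · rintro ⟨y, hy, rfl⟩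
      exact mem_res.1 hy
    · intro hx
      exact ⟨⟨x, hS hx⟩, mem_res.2 hx, rfl⟩
  have h2 := zf_image (G := G.comap (Subtype.val : {x // x ∈ U} → V)) (G' := G) (S := res U S)
    Subtype.val (fun x _ y _ hxy => Subtype.ext hxy) (fun x _ y _ => Iff.rfl)
  rw [h1] at h2
  rw [← h2, zf_iff]

omit [DecidableEq V] in
private theorem exists_lo (U : Finset V) : Nonempty (LinearOrder {x // x ∈ U}) :=
  ⟨LinearOrder.lift' (Fintype.equivFin {x // x ∈ U}) (Equiv.injective _)⟩

private theorem csum_abs {V₀ : Type} [Fintype V₀] [LinearOrder V₀] {G₀ : SimpleGraph V₀}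
    {A B AB cA cB : Finset V₀} {c : V₀} (hu : ∀ x, x = c ∨ x ∈ A ∨ x ∈ B) (hcA : c ∉ A)
    (hcB : c ∉ B) (hc : ∀ x, G₀.Adj c x ↔ x ∈ A ∧ x ∈ B) (hn : NoE G₀ A B)
    (e1 : ∀ x, x ∈ cA ↔ x = c ∨ x ∈ A) (e2 : ∀ x, x ∈ cB ↔ x = c ∨ x ∈ B)
    (e3 : ∀ x, x ∈ AB ↔ x ∈ A ∨ x ∈ B) (h1 : ∀ j, HH G₀ cA j = ⊥) (h2 : ∀ j, HH G₀ cB j = ⊥)
    (j : ℕ) : HH G₀ AB j = ⊥ := by
  have E1 : cA = insert c A := by
    ext x
    rw [mem_insert]
    exact e1 x
  have E2 : cB = insert c B := by
    ext x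
    rw [mem_insert]
    exact e2 x
  have E3 : AB = A ∪ B := by
    ext x
    rw [mem_union]
    exact e3 x
  subst E1 E2 E3
  exact csum_hh hu hcA hcB hc hn h1 h2 j

private theorem mv_abs {V₀ : Type} [Fintype V₀] [LinearOrder V₀] {G₀ : SimpleGraph V₀}
    {A B AB C : Finset V₀} (hn : NoE G₀ A B) (e1 : ∀ x, x ∈ C ↔ x ∈ A ∧ x ∈ B)
    (e3 : ∀ x, x ∈ AB ↔ x ∈ A ∨ x ∈ B) (h1 : ∀ j, HH G₀ A j = ⊥) (h2 : ∀ j, HH G₀ B j = ⊥)
    (h3 : ∀ j, HH G₀ C j = ⊥) : ∀ j, HH G₀ AB j = ⊥ := by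
  have E1 : C = A ∩ B := by
    ext x
    rw [mem_inter]
    exact e1 x
  have E3 : AB = A ∪ B := by
    ext x
    rw [mem_union]
    exact e3 x
  subst E1 E3
  rw [mv_iff hn]
  intro j
  refine ⟨?_, ?_⟩
  · rw [eq_bot_iff, ← h3 j]
    unfold KK
    exact inf_le_left.trans inf_le_left
  · unfold bb
    rw [h1, h2, h3, dm_bot, add_zero]

private theorem cone_abs {V₀ : Type} [Fintype V₀] [LinearOrder V₀] {G₀ : SimpleGraph V₀}
    {Y cY : Finset V₀} {c : V₀} (hcY : c ∉ Y) (hc : ∀ y ∈ Y, G₀.Adj c y)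
    (e1 : ∀ x, x ∈ cY ↔ x = c ∨ x ∈ Y) (h : ∀ j, HH G₀ Y j = ⊥) (j : ℕ) :
    HH G₀ cY j = ⊥ := by
  have E1 : cY = insert c Y := by
    ext x
    rw [mem_insert]
    exact e1 x
  subst E1
  rw [eq_bot_iff, ← h j]
  intro f hf
  exact ((hh_cone_iff hcY hc).1 hf).1

private theorem susp_abs {V₀ : Type} [Fintype V₀] [LinearOrder V₀] {G₀ : SimpleGraph V₀}
    {Y Z : Finset V₀} {a b : V₀} (ha : a ∉ Y) (hb : b ∉ Y) (hab : a ≠ b)
    (hn : ¬ G₀.Adj a b) (h : ∀ y ∈ Y, G₀.Adj a y ∧ G₀.Adj b y)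
    (e1 : ∀ x, x ∈ Z ↔ x = a ∨ x = b ∨ x ∈ Y) (j : ℕ) : HH G₀ Z j = ⊥ := by
  have E1 : Z = insert a (insert b Y) := by
    ext x
    rw [mem_insert, mem_insert]
    exact e1 x
  subst E1
  exact susp_hh ha hb hab hn h j

private theorem noe_res {U A B : Finset V} (hn : NoE G A B) :
    NoE (G.comap (Subtype.val : {x // x ∈ U} → V)) (res U A) (res U B) := by
  intro x hx hx' y hy hy'
  rw [mem_res] at hx hx' hy hy'
  exact hn x.1 hx hx' y.1 hy hy'

/-- The connected sum theorem. -/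
theorem zf_csum {A B : Finset V} {c : V} (hcA : c ∉ A) (hcB : c ∉ B)
    (hc : ∀ x ∈ A ∪ B, G.Adj c x ↔ x ∈ A ∧ x ∈ B) (hn : NoE G A B) (h1 : ZF G (insert c A))
    (h2 : ZF G (insert c B)) : ZF G (A ∪ B) := by
  obtain ⟨U, hU⟩ : ∃ U, U = insert c (A ∪ B) := ⟨_, rfl⟩
  have hcU : c ∈ U := by
    rw [hU]
    exact mem_insert_self _ _
  obtain ⟨i⟩ := exists_lo U
  rw [zf_sub (U := U) (by rw [hU]; exact insert_subset_insert _ subset_union_left)] at h1
  rw [zf_sub (U := U) (by rw [hU]; exact insert_subset_insert _ subset_union_right)] at h2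
  rw [zf_sub (U := U) (by rw [hU]; exact subset_insert _ _)]
  have hx : ∀ x : {x // x ∈ U}, x = ⟨c, hcU⟩ ∨ x.1 ∈ A ∨ x.1 ∈ B := by
    rintro ⟨x, hx⟩
    rw [hU, mem_insert, mem_union] at hx
    rcases hx with rfl | hx
    · exact Or.inl rfl
    · exact Or.inr hx
  refine csum_abs (A := res U A) (B := res U B) (cA := res U (insert c A))
    (cB := res U (insert c B)) (c := ⟨c, hcU⟩) ?_ ?_ ?_ ?_ (noe_res hn) ?_ ?_ ?_ h1 h2
  · intro x
    rw [mem_res, mem_res]
    exact hx x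
  · rw [mem_res]
    exact hcA
  · rw [mem_res]
    exact hcB
  · intro x
    rw [mem_res, mem_res]
    rcases hx x with h3 | h3
    · rw [h3]
      constructor
      · intro h4
        exact absurd h4 (SimpleGraph.irrefl _)
      · rintro ⟨h4, -⟩
        exact absurd h4 hcA
    · exact hc x.1 (mem_union.2 h3)
  · intro x
    rw [mem_res, mem_res, mem_insert, Subtype.ext_iff]
  · intro x
    rw [mem_res, mem_res, mem_insert, Subtype.ext_iff]
  · intro x
    rw [mem_res, mem_res, mem_res, mem_union]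

theorem zf_mv {A B : Finset V} (hn : NoE G A B) (h1 : ZF G A) (h2 : ZF G B)
    (h3 : ZF G (A ∩ B)) : ZF G (A ∪ B) := by
  obtain ⟨U, hU⟩ : ∃ U, U = A ∪ B := ⟨_, rfl⟩
  obtain ⟨i⟩ := exists_lo U
  rw [zf_sub (U := U) (by rw [hU]; exact subset_union_left)] at h1
  rw [zf_sub (U := U) (by rw [hU]; exact subset_union_right)] at h2
  rw [zf_sub (U := U) (by rw [hU]; exact inter_subset_left.trans subset_union_left)] at h3
  rw [zf_sub (U := U) (by rw [hU])]
  refine mv_abs (noe_res hn) (fun x => ?_) (fun x => ?_) h1 h2 h3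
  · rw [mem_res, mem_res, mem_res, mem_inter]
  · rw [mem_res, mem_res, mem_res, mem_union]

theorem zf_cone {Y : Finset V} {c : V} (hcY : c ∉ Y) (hc : ∀ y ∈ Y, G.Adj c y) (h : ZF G Y) :
    ZF G (insert c Y) := by
  obtain ⟨U, hU⟩ : ∃ U, U = insert c Y := ⟨_, rfl⟩
  have hcU : c ∈ U := by
    rw [hU]
    exact mem_insert_self _ _
  obtain ⟨i⟩ := exists_lo U
  rw [zf_sub (U := U) (by rw [hU]; exact subset_insert _ _)] at h
  rw [zf_sub (U := U) (by rw [hU])]
  refine cone_abs (c := ⟨c, hcU⟩) ?_ ?_ (fun x => ?_) h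
  · rw [mem_res]
    exact hcY
  · intro y hy
    rw [mem_res] at hy
    exact hc y.1 hy
  · rw [mem_res, mem_res, mem_insert, Subtype.ext_iff]

theorem zf_susp {Y : Finset V} {a b : V} (ha : a ∉ Y) (hb : b ∉ Y) (hab : a ≠ b)
    (hn : ¬ G.Adj a b) (h : ∀ y ∈ Y, G.Adj a y ∧ G.Adj b y) :
    ZF G (insert a (insert b Y)) := by
  obtain ⟨U, hU⟩ : ∃ U, U = insert a (insert b Y) := ⟨_, rfl⟩
  have haU : a ∈ U := by
    rw [hU]
    exact mem_insert_self _ _
  have hbU : b ∈ U := by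
    rw [hU]
    exact mem_insert_of_mem (mem_insert_self _ _)
  obtain ⟨i⟩ := exists_lo U
  rw [zf_sub (U := U) (by rw [hU])]
  refine susp_abs (Y := res U Y) (a := ⟨a, haU⟩) (b := ⟨b, hbU⟩) ?_ ?_ ?_ ?_ ?_ fun x => ?_
  · rw [mem_res]
    exact ha
  · rw [mem_res]
    exact hb
  · intro h1
    exact hab (congrArg Subtype.val h1)
  · exact hn
  · intro y hy
    rw [mem_res] at hy
    exact h y.1 hy
  · rw [mem_res, mem_res, mem_insert, mem_insert, Subtype.ext_iff, Subtype.ext_iff]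

end SCS
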