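import Pool.Agent.SCS.PDefs

/-!
# Project SCS (architect helper40), module JB: joins of simplex boundaries

`JB R R'` is the set of nonempty faces of the join of the boundaries of the simplices on the disjoint
nonempty finite sets `R`, `R'`: the nonempty `τ ⊆ R ∪ R'` with `R ⊄ τ`, `R' ⊄ τ`.
Theorem: `Rsh (JB R R')` if `|R| + |R'|` is odd.  (Order on `Finset ι`: inclusion; `τ < F` is `τ ⊂ F`.)

Induction on `|R| + |R'|`.  Let `ρ : ι → ℕ` be injective on `R ∪ R'` with `ρ < N` there (`Finset.equivFin`).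
`F x y = R.erase x ∪ R'.erase y` (`x ∈ R`, `y ∈ R'`), `M` = the set of all `F x y` (image of `R ×ˢ R'`),
`r τ = (∑_{x ∈ R \ τ} ρ x) * N + ∑_{y ∈ R' \ τ} ρ y`, so `r (F x y) = ρ x * N + ρ y` (`R \ F x y = {x}`).
`PD (JB R R') M r`:
* sub: `F x y` has `|R| + |R'| - 2 ≥ 1` elements (both are nonempty and the sum is odd, so `≥ 3`);
  `x ∉ F x y`, `y ∉ F x y`.
* max: `F x y ⊂ τ ⊆ R ∪ R'` implies `x ∈ τ` or `y ∈ τ`, so `R ⊆ τ` or `R' ⊆ τ`.
* two: `τ ∈ JB`, `τ ∉ M`; choose `x ∈ R \ τ`, `y ∈ R' \ τ`; `τ ⊆ F x y`, `τ ≠ F x y`, choose `z ∈ F x y \ τ`.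
  If `z ∈ R`: `τ ⊂ F z y` (`x` is in `F z y` but not in `τ`), `F z y ≠ F x y`.  If `z ∈ R'`: `F x z`.
* inj: `ρ x * N + ρ y` determines `ρ x` and `ρ y < N`, and `ρ` is injective on `R ∪ R'`.
`2 ≤ M.card`: one of `R, R'` has two elements.
`TT (JB R R') M r (F x y) = JB N₁ N₂` with `N₁ = {z ∈ R | ρ z < ρ x} ∪ {z ∈ R' | ρ z < ρ y}`,
`N₂ = {z ∈ R | ρ x < ρ z} ∪ {z ∈ R' | ρ y < ρ z}` (disjoint, `N₁ ∪ N₂ = F x y`):
* `τ` in the left side: `τ ⊂ F x y` and there is `F x' y'` with `τ ⊂ F x' y'` (so `x', y' ∉ τ`) and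
  `ρ x' * N + ρ y' < ρ x * N + ρ y`; so `ρ x' < ρ x` (then `x' ∈ N₁ \ τ`) or `x' = x`, `ρ y' < ρ y` (then
  `y' ∈ N₁ \ τ`).  The same for `N₂`.
* `τ ∈ JB N₁ N₂`: `∅ ≠ τ ⊆ F x y`, so `x, y ∉ τ`; let `z ∈ N₁ \ τ`.  If `z ∈ R`: `F' = F z y`, `r F' < r F`,
  `τ ⊂ F'` (`x ∈ F' \ τ`).  If `z ∈ R'`: `F' = F x z`, `τ ⊂ F'` (`y ∈ F' \ τ`).  The same for `N₂`.  `τ ≠ F x y`
  (`z ∈ F x y \ τ`), and `τ ∈ JB R R'` because `x, y ∉ τ`.
If `F x y` is not first then `N₁ ≠ ∅` (as in the first item), if it is not last `N₂ ≠ ∅`;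
`|N₁| + |N₂| = |F x y| = |R| + |R'| - 2` is odd: the induction hypothesis applies.
-/

namespace SCS

open SNG Finset

variable {ι : Type} [DecidableEq ι]

/-- nonempty faces of the join of two simplex boundaries -/
def JB (R R' : Finset ι) : Finset (Finset ι) :=
  (R ∪ R').powerset.filter fun τ => τ.Nonempty ∧ ¬ R ⊆ τ ∧ ¬ R' ⊆ τ

/-- The complement of `{x, y}`. -/
def jbF (R R' : Finset ι) (x y : ι) : Finset ι := ((R ∪ R').erase x).erase y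

/-- The facets. -/
def jbM (R R' : Finset ι) : Finset (Finset ι) := (R ×ˢ R').image fun p => jbF R R' p.1 p.2

/-- The lexicographic rank. -/
def jbr (R R' : Finset ι) (ρ : ι → ℕ) (N : ℕ) (τ : Finset ι) : ℕ :=
  (∑ x ∈ R \ τ, ρ x) * N + ∑ y ∈ R' \ τ, ρ y

/-- The earlier letters. -/
def jbL (R R' : Finset ι) (ρ : ι → ℕ) (x y : ι) : Finset ι :=
  (R.filter fun z => ρ z < ρ x) ∪ R'.filter fun z => ρ z < ρ y

/-- The later letters. -/
def jbG (R R' : Finset ι) (ρ : ι → ℕ) (x y : ι) : Finset ι :=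
  (R.filter fun z => ρ x < ρ z) ∪ R'.filter fun z => ρ y < ρ z

theorem mem_jbF {R R' : Finset ι} {x y z : ι} :
    z ∈ jbF R R' x y ↔ (z ∈ R ∨ z ∈ R') ∧ z ≠ x ∧ z ≠ y := by
  unfold jbF
  simp only [Finset.mem_erase, Finset.mem_union]
  tauto

theorem mem_jbM {R R' τ : Finset ι} :
    τ ∈ jbM R R' ↔ ∃ x ∈ R, ∃ y ∈ R', jbF R R' x y = τ := by
  unfold jbM
  simp only [Finset.mem_image, Finset.mem_product, Prod.exists]
  constructor
  · rintro ⟨x, y, ⟨hx, hy⟩, h⟩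
    exact ⟨x, hx, y, hy, h⟩
  · rintro ⟨x, hx, y, hy, h⟩
    exact ⟨x, y, ⟨hx, hy⟩, h⟩

theorem mem_JB {R R' τ : Finset ι} :
    τ ∈ JB R R' ↔ τ ⊆ R ∪ R' ∧ τ.Nonempty ∧ ¬ R ⊆ τ ∧ ¬ R' ⊆ τ := by
  unfold JB
  rw [Finset.mem_filter, Finset.mem_powerset]

theorem mem_jbL {R R' : Finset ι} {ρ : ι → ℕ} {x y z : ι} :
    z ∈ jbL R R' ρ x y ↔ (z ∈ R ∧ ρ z < ρ x) ∨ (z ∈ R' ∧ ρ z < ρ y) := by
  unfold jbL
  simp only [Finset.mem_union, Finset.mem_filter]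

theorem mem_jbG {R R' : Finset ι} {ρ : ι → ℕ} {x y z : ι} :
    z ∈ jbG R R' ρ x y ↔ (z ∈ R ∧ ρ x < ρ z) ∨ (z ∈ R' ∧ ρ y < ρ z) := by
  unfold jbG
  simp only [Finset.mem_union, Finset.mem_filter]

theorem jb_mem_TT {P : Type} [PartialOrder P] {Q M : Finset P} {r : P → ℕ} {F x : P} :
    x ∈ TT Q M r F ↔ x ∈ Q ∧ x < F ∧ (∃ F' ∈ M, r F' < r F ∧ x < F') ∧
      ∃ F' ∈ M, r F < r F' ∧ x < F' := by
  classical
  unfold TT
  rw [Finset.mem_filter]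

omit [DecidableEq ι] in
theorem jb_ne {R R' : Finset ι} (hd : Disjoint R R') {x y : ι} (hx : x ∈ R) (hy : y ∈ R') :
    x ≠ y := by
  rintro rfl
  exact Finset.disjoint_left.1 hd hx hy

theorem jb_sdiff_left {R R' : Finset ι} (hd : Disjoint R R') {x y : ι} (hx : x ∈ R)
    (hy : y ∈ R') : R \ jbF R R' x y = {x} := by
  ext z
  rw [Finset.mem_sdiff, Finset.mem_singleton, mem_jbF]
  constructor
  · rintro ⟨h1, h2⟩
    by_contra h3
    exact h2 ⟨Or.inl h1, h3, jb_ne hd h1 hy⟩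
  · rintro rfl
    exact ⟨hx, fun h => h.2.1 rfl⟩

theorem jb_sdiff_right {R R' : Finset ι} (hd : Disjoint R R') {x y : ι} (hx : x ∈ R)
    (hy : y ∈ R') : R' \ jbF R R' x y = {y} := by
  ext z
  rw [Finset.mem_sdiff, Finset.mem_singleton, mem_jbF]
  constructor
  · rintro ⟨h1, h2⟩
    by_contra h3
    exact h2 ⟨Or.inr h1, (jb_ne hd hx h1).symm, h3⟩
  · rintro rfl
    exact ⟨hy, fun h => h.2.2 rfl⟩

theorem jbr_F {R R' : Finset ι} (hd : Disjoint R R') {x y : ι} (hx : x ∈ R)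
    (hy : y ∈ R') (ρ : ι → ℕ) (N : ℕ) : jbr R R' ρ N (jbF R R' x y) = ρ x * N + ρ y := by
  unfold jbr
  rw [jb_sdiff_left hd hx hy, jb_sdiff_right hd hx hy, Finset.sum_singleton,
    Finset.sum_singleton]

theorem jb_lex {N a b a' b' : ℕ} (hb : b < N) (hb' : b' < N) :
    a * N + b < a' * N + b' ↔ a < a' ∨ (a = a' ∧ b < b') := by
  constructor
  · intro h
    rcases lt_trichotomy a a' with h1 | h1 | h1
    · exact Or.inl h1
    · subst h1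
      exact Or.inr ⟨rfl, by omega⟩
    · exfalso
      have : (a' + 1) * N ≤ a * N := Nat.mul_le_mul_right N h1
      have h2 : (a' + 1) * N = a' * N + N := by ring
      omega
  · rintro (h | ⟨rfl, h⟩)
    · have : (a + 1) * N ≤ a' * N := Nat.mul_le_mul_right N h
      have h2 : (a + 1) * N = a * N + N := by ring
      omega
    · omega

omit [DecidableEq ι] in
theorem jb_lt {τ σ : Finset ι} : τ < σ ↔ τ ⊆ σ ∧ ∃ z ∈ σ, z ∉ τ := by
  constructor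
  · intro h
    exact ⟨h.1, (Finset.ssubset_iff_of_subset h.1).1 h⟩
  · rintro ⟨h, h2⟩
    exact (Finset.ssubset_iff_of_subset h).2 h2

theorem jb_sub_F {R R' τ : Finset ι} {x y : ι} (h : τ ⊆ R ∪ R') (hx : x ∉ τ) (hy : y ∉ τ) :
    τ ⊆ jbF R R' x y := by
  intro z hz
  rw [mem_jbF]
  have := Finset.mem_union.1 (h hz)
  refine ⟨this, ?_, ?_⟩
  · rintro rfl
    exact hx hz
  · rintro rfl
    exact hy hz

theorem jb_not_mem {R R' τ : Finset ι} {x y : ι} (h : τ ⊆ jbF R R' x y) : x ∉ τ ∧ y ∉ τ :=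
  ⟨fun hx => (mem_jbF.1 (h hx)).2.1 rfl, fun hy => (mem_jbF.1 (h hy)).2.2 rfl⟩

theorem jb_sub {R R' τ : Finset ι} {x y : ι} (h : τ ⊆ jbF R R' x y) : τ ⊆ R ∪ R' := by
  intro z hz
  exact Finset.mem_union.2 (mem_jbF.1 (h hz)).1

theorem jbF_card {R R' : Finset ι} (hd : Disjoint R R') {x y : ι} (hx : x ∈ R)
    (hy : y ∈ R') : (jbF R R' x y).card + 2 = R.card + R'.card := by
  unfold jbF
  have h1 : x ∈ R ∪ R' := Finset.mem_union_left _ hx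
  have h2 : y ∈ (R ∪ R').erase x :=
    Finset.mem_erase.2 ⟨(jb_ne hd hx hy).symm, Finset.mem_union_right _ hy⟩
  have h3 := Finset.card_erase_add_one h1
  have h4 := Finset.card_erase_add_one h2
  have h5 := Finset.card_union_of_disjoint hd
  omega

theorem jb_PD {R R' : Finset ι} (hd : Disjoint R R') (h3 : 3 ≤ R.card + R'.card)
    {ρ : ι → ℕ} {N : ℕ} (hρ : ∀ z ∈ R ∪ R', ρ z < N)
    (hinj : ∀ z ∈ R ∪ R', ∀ w ∈ R ∪ R', ρ z = ρ w → z = w) :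
    PD (JB R R') (jbM R R') (jbr R R' ρ N) where
  sub := by
    intro τ hτ
    obtain ⟨x, hx, y, hy, rfl⟩ := mem_jbM.1 hτ
    rw [mem_JB]
    refine ⟨jb_sub (Finset.Subset.refl _), ?_, ?_, ?_⟩
    · rw [← Finset.card_pos]
      have := jbF_card hd hx hy
      omega
    · intro h
      exact (mem_jbF.1 (h hx)).2.1 rfl
    · intro h
      exact (mem_jbF.1 (h hy)).2.2 rfl
  max := by
    intro σ hσ τ hτ hlt
    obtain ⟨x, hx, y, hy, rfl⟩ := mem_jbM.1 hσ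
    obtain ⟨h1, h2, h4, h5⟩ := mem_JB.1 hτ
    obtain ⟨hs, z, hz, hz2⟩ := jb_lt.1 hlt
    have hzu := Finset.mem_union.1 (h1 hz)
    have hzz : z = x ∨ z = y := by
      by_contra hc
      push Not at hc
      exact hz2 (mem_jbF.2 ⟨hzu, hc.1, hc.2⟩)
    rcases hzz with rfl | rfl
    · apply h4
      intro w hw
      by_cases hwz : w = z
      · rw [hwz]
        exact hz
      · exact hs (mem_jbF.2 ⟨Or.inl hw, hwz, jb_ne hd hw hy⟩)
    · apply h5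
      intro w hw
      by_cases hwz : w = z
      · rw [hwz]
        exact hz
      · exact hs (mem_jbF.2 ⟨Or.inr hw, (jb_ne hd hx hw).symm, hwz⟩)
  two := by
    intro τ hτ hτM
    obtain ⟨h1, h2, h4, h5⟩ := mem_JB.1 hτ
    obtain ⟨x, hx, hxτ⟩ := Finset.not_subset.1 h4
    obtain ⟨y, hy, hyτ⟩ := Finset.not_subset.1 h5
    have hs := jb_sub_F h1 hxτ hyτ
    have hne : τ ≠ jbF R R' x y := by
      intro h
      exact hτM (mem_jbM.2 ⟨x, hx, y, hy, h.symm⟩)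
    have hex : ∃ z ∈ jbF R R' x y, z ∉ τ := by
      by_contra hc
      push Not at hc
      exact hne (Finset.Subset.antisymm hs hc)
    obtain ⟨z, hz, hzτ⟩ := hex
    obtain ⟨hzu, hzx, hzy⟩ := mem_jbF.1 hz
    rcases hzu with hzR | hzR
    · refine ⟨jbF R R' x y, mem_jbM.2 ⟨x, hx, y, hy, rfl⟩, jbF R R' z y,
        mem_jbM.2 ⟨z, hzR, y, hy, rfl⟩, ?_, jb_lt.2 ⟨hs, z, hz, hzτ⟩, ?_⟩
      · intro h
        rw [h] at hz
        exact (mem_jbF.1 hz).2.1 rfl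
      · exact jb_lt.2 ⟨jb_sub_F h1 hzτ hyτ, x,
          mem_jbF.2 ⟨Or.inl hx, hzx.symm, jb_ne hd hx hy⟩, hxτ⟩
    · refine ⟨jbF R R' x y, mem_jbM.2 ⟨x, hx, y, hy, rfl⟩, jbF R R' x z,
        mem_jbM.2 ⟨x, hx, z, hzR, rfl⟩, ?_, jb_lt.2 ⟨hs, z, hz, hzτ⟩, ?_⟩
      · intro h
        rw [h] at hz
        exact (mem_jbF.1 hz).2.2 rfl
      · exact jb_lt.2 ⟨jb_sub_F h1 hxτ hzτ, y,
          mem_jbF.2 ⟨Or.inr hy, (jb_ne hd hx hy).symm, hzy.symm⟩, hyτ⟩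
  inj := by
    intro σ hσ σ' hσ' he
    obtain ⟨x, hx, y, hy, rfl⟩ := mem_jbM.1 hσ
    obtain ⟨x', hx', y', hy', rfl⟩ := mem_jbM.1 hσ'
    rw [jbr_F hd hx hy, jbr_F hd hx' hy'] at he
    have b1 := hρ y (Finset.mem_union_right _ hy)
    have b2 := hρ y' (Finset.mem_union_right _ hy')
    have n1 : ¬ (ρ x < ρ x' ∨ (ρ x = ρ x' ∧ ρ y < ρ y')) := by
      rw [← jb_lex b1 b2]
      omega
    have n2 : ¬ (ρ x' < ρ x ∨ (ρ x' = ρ x ∧ ρ y' < ρ y)) := by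
      rw [← jb_lex b2 b1]
      omega
    have e1 : ρ x = ρ x' := by omega
    have e2 : ρ y = ρ y' := by omega
    rw [hinj x (Finset.mem_union_left _ hx) x' (Finset.mem_union_left _ hx') e1,
      hinj y (Finset.mem_union_right _ hy) y' (Finset.mem_union_right _ hy') e2]

/-- Earlier facets differ at an earlier letter. -/
theorem jb_early {R R' : Finset ι} (hd : Disjoint R R') {ρ : ι → ℕ} {N : ℕ}
    (hρ : ∀ z ∈ R ∪ R', ρ z < N) {x y x' y' : ι} (hx : x ∈ R) (hy : y ∈ R') (hx' : x' ∈ R)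
    (hy' : y' ∈ R')
    (h : jbr R R' ρ N (jbF R R' x' y') < jbr R R' ρ N (jbF R R' x y)) :
    x' ∈ jbL R R' ρ x y ∨ y' ∈ jbL R R' ρ x y := by
  rw [jbr_F hd hx hy, jbr_F hd hx' hy', jb_lex (hρ y' (Finset.mem_union_right _ hy'))
    (hρ y (Finset.mem_union_right _ hy))] at h
  rcases h with h | ⟨-, h⟩
  · exact Or.inl (mem_jbL.2 (Or.inl ⟨hx', h⟩))
  · exact Or.inr (mem_jbL.2 (Or.inr ⟨hy', h⟩))

theorem jb_late {R R' : Finset ι} (hd : Disjoint R R') {ρ : ι → ℕ} {N : ℕ}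
    (hρ : ∀ z ∈ R ∪ R', ρ z < N) {x y x' y' : ι} (hx : x ∈ R) (hy : y ∈ R') (hx' : x' ∈ R)
    (hy' : y' ∈ R')
    (h : jbr R R' ρ N (jbF R R' x y) < jbr R R' ρ N (jbF R R' x' y')) :
    x' ∈ jbG R R' ρ x y ∨ y' ∈ jbG R R' ρ x y := by
  rw [jbr_F hd hx hy, jbr_F hd hx' hy', jb_lex (hρ y (Finset.mem_union_right _ hy))
    (hρ y' (Finset.mem_union_right _ hy'))] at h
  rcases h with h | ⟨-, h⟩
  · exact Or.inl (mem_jbG.2 (Or.inl ⟨hx', h⟩))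
  · exact Or.inr (mem_jbG.2 (Or.inr ⟨hy', h⟩))

theorem jb_union {R R' : Finset ι} (hd : Disjoint R R') {ρ : ι → ℕ}
    (hinj : ∀ z ∈ R ∪ R', ∀ w ∈ R ∪ R', ρ z = ρ w → z = w) {x y : ι} (hx : x ∈ R)
    (hy : y ∈ R') : jbL R R' ρ x y ∪ jbG R R' ρ x y = jbF R R' x y := by
  ext z
  rw [Finset.mem_union, mem_jbL, mem_jbG, mem_jbF]
  constructor
  · rintro ((⟨h1, h2⟩ | ⟨h1, h2⟩) | (⟨h1, h2⟩ | ⟨h1, h2⟩))
    · refine ⟨Or.inl h1, ?_, jb_ne hd h1 hy⟩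
      rintro rfl
      omega
    · refine ⟨Or.inr h1, (jb_ne hd hx h1).symm, ?_⟩
      rintro rfl
      omega
    · refine ⟨Or.inl h1, ?_, jb_ne hd h1 hy⟩
      rintro rfl
      omega
    · refine ⟨Or.inr h1, (jb_ne hd hx h1).symm, ?_⟩
      rintro rfl
      omega
  · rintro ⟨h1 | h1, h2, h3⟩
    · have : ρ z ≠ ρ x := fun h =>
        h2 (hinj z (Finset.mem_union_left _ h1) x (Finset.mem_union_left _ hx) h)
      rcases lt_or_gt_of_ne this with h | h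
      · exact Or.inl (Or.inl ⟨h1, h⟩)
      · exact Or.inr (Or.inl ⟨h1, h⟩)
    · have : ρ z ≠ ρ y := fun h =>
        h3 (hinj z (Finset.mem_union_right _ h1) y (Finset.mem_union_right _ hy) h)
      rcases lt_or_gt_of_ne this with h | h
      · exact Or.inl (Or.inr ⟨h1, h⟩)
      · exact Or.inr (Or.inr ⟨h1, h⟩)

theorem jb_disj {R R' : Finset ι} (hd : Disjoint R R') (ρ : ι → ℕ) (x y : ι) :
    Disjoint (jbL R R' ρ x y) (jbG R R' ρ x y) := by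
  rw [Finset.disjoint_left]
  intro z h1 h2
  rw [mem_jbL] at h1
  rw [mem_jbG] at h2
  rcases h1 with ⟨a, b⟩ | ⟨a, b⟩ <;> rcases h2 with ⟨c, d⟩ | ⟨c, d⟩
  · omega
  · exact Finset.disjoint_left.1 hd a c
  · exact Finset.disjoint_left.1 hd c a
  · omega

theorem jb_TT {R R' : Finset ι} (hd : Disjoint R R') {ρ : ι → ℕ} {N : ℕ}
    (hρ : ∀ z ∈ R ∪ R', ρ z < N)
    (hinj : ∀ z ∈ R ∪ R', ∀ w ∈ R ∪ R', ρ z = ρ w → z = w) {x y : ι} (hx : x ∈ R)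
    (hy : y ∈ R') :
    TT (JB R R') (jbM R R') (jbr R R' ρ N) (jbF R R' x y) =
      JB (jbL R R' ρ x y) (jbG R R' ρ x y) := by
  ext τ
  rw [jb_mem_TT, mem_JB, mem_JB, jb_union hd hinj hx hy]
  constructor
  · rintro ⟨⟨h1, h2, -, -⟩, h3, ⟨σ, hσ, hσr, hστ⟩, σ', hσ', hσr', hστ'⟩
    obtain ⟨a, ha, b, hb, rfl⟩ := mem_jbM.1 hσ
    obtain ⟨a', ha', b', hb', rfl⟩ := mem_jbM.1 hσ'
    have n1 := jb_not_mem (jb_lt.1 hστ).1
    have n2 := jb_not_mem (jb_lt.1 hστ').1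
    refine ⟨(jb_lt.1 h3).1, h2, ?_, ?_⟩
    · intro hs
      rcases jb_early hd hρ hx hy ha hb hσr with h | h
      · exact n1.1 (hs h)
      · exact n1.2 (hs h)
    · intro hs
      rcases jb_late hd hρ hx hy ha' hb' hσr' with h | h
      · exact n2.1 (hs h)
      · exact n2.2 (hs h)
  · rintro ⟨h1, h2, h3, h4⟩
    obtain ⟨z, hz, hzτ⟩ := Finset.not_subset.1 h3
    obtain ⟨w, hw, hwτ⟩ := Finset.not_subset.1 h4
    obtain ⟨hxτ, hyτ⟩ := jb_not_mem h1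
    have hu := jb_sub h1
    have hzF : z ∈ jbF R R' x y := by
      rw [← jb_union hd hinj hx hy]
      exact Finset.mem_union_left _ hz
    have hwF : w ∈ jbF R R' x y := by
      rw [← jb_union hd hinj hx hy]
      exact Finset.mem_union_right _ hw
    have hyN := hρ y (Finset.mem_union_right _ hy)
    refine ⟨⟨hu, h2, fun h => hxτ (h hx), fun h => hyτ (h hy)⟩, jb_lt.2 ⟨h1, z, hzF, hzτ⟩,
      ?_, ?_⟩
    · rw [mem_jbL] at hz
      rcases hz with ⟨a, b⟩ | ⟨a, b⟩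
      · refine ⟨jbF R R' z y, mem_jbM.2 ⟨z, a, y, hy, rfl⟩, ?_, ?_⟩
        · rw [jbr_F hd a hy, jbr_F hd hx hy, jb_lex hyN hyN]
          exact Or.inl b
        · exact jb_lt.2 ⟨jb_sub_F hu hzτ hyτ, x,
            mem_jbF.2 ⟨Or.inl hx, (mem_jbF.1 hzF).2.1.symm, jb_ne hd hx hy⟩, hxτ⟩
      · refine ⟨jbF R R' x z, mem_jbM.2 ⟨x, hx, z, a, rfl⟩, ?_, ?_⟩
        · rw [jbr_F hd hx a, jbr_F hd hx hy,
            jb_lex (hρ z (Finset.mem_union_right _ a)) hyN]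
          exact Or.inr ⟨rfl, b⟩
        · exact jb_lt.2 ⟨jb_sub_F hu hxτ hzτ, y,
            mem_jbF.2 ⟨Or.inr hy, (jb_ne hd hx hy).symm, (mem_jbF.1 hzF).2.2.symm⟩, hyτ⟩
    · rw [mem_jbG] at hw
      rcases hw with ⟨a, b⟩ | ⟨a, b⟩
      · refine ⟨jbF R R' w y, mem_jbM.2 ⟨w, a, y, hy, rfl⟩, ?_, ?_⟩
        · rw [jbr_F hd a hy, jbr_F hd hx hy, jb_lex hyN hyN]
          exact Or.inl b
        · exact jb_lt.2 ⟨jb_sub_F hu hwτ hyτ, x,
            mem_jbF.2 ⟨Or.inl hx, (mem_jbF.1 hwF).2.1.symm, jb_ne hd hx hy⟩, hxτ⟩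
      · refine ⟨jbF R R' x w, mem_jbM.2 ⟨x, hx, w, a, rfl⟩, ?_, ?_⟩
        · rw [jbr_F hd hx a, jbr_F hd hx hy,
            jb_lex hyN (hρ w (Finset.mem_union_right _ a))]
          exact Or.inr ⟨rfl, b⟩
        · exact jb_lt.2 ⟨jb_sub_F hu hxτ hwτ, y,
            mem_jbF.2 ⟨Or.inr hy, (jb_ne hd hx hy).symm, (mem_jbF.1 hwF).2.2.symm⟩, hyτ⟩

theorem jb_order (S : Finset ι) : ∃ (ρ : ι → ℕ) (N : ℕ), (∀ z ∈ S, ρ z < N) ∧
    ∀ z ∈ S, ∀ w ∈ S, ρ z = ρ w → z = w := by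
  refine ⟨fun z => if h : z ∈ S then (S.equivFin ⟨z, h⟩ : ℕ) else 0, S.card, ?_, ?_⟩
  · intro z hz
    simp only [hz, dif_pos]
    exact (S.equivFin ⟨z, hz⟩).2
  · intro z hz w hw h
    simp only [hz, hw, dif_pos] at h
    have := S.equivFin.injective (Fin.ext h)
    exact congrArg Subtype.val this

theorem rsh_JB_aux : ∀ (n : ℕ) (R R' : Finset ι), R.card + R'.card = n → Disjoint R R' →
    R.Nonempty → R'.Nonempty → Odd (R.card + R'.card) → Rsh (JB R R') := by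
  intro n
  induction n using Nat.strong_induction_on with
  | _ n ih =>
    intro R R' hn hd h1 h2 ho
    have c1 := Finset.card_pos.2 h1
    have c2 := Finset.card_pos.2 h2
    have h3 : 3 ≤ R.card + R'.card := by
      obtain ⟨k, hk⟩ := ho
      omega
    obtain ⟨ρ, N, hρ, hinj⟩ := jb_order (R ∪ R')
    refine Rsh.mk (JB R R') (jbM R R') (jbr R R' ρ N) (jb_PD hd h3 hρ hinj) ?_ ?_
    · obtain ⟨x, hx⟩ := h1
      obtain ⟨y, hy⟩ := h2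
      have h4 : 2 ≤ R.card ∨ 2 ≤ R'.card := by omega
      rcases h4 with h4 | h4
      · obtain ⟨a, ha, b, hb, hab⟩ := Finset.one_lt_card.1 h4
        refine Finset.one_lt_card.2 ⟨jbF R R' a y, mem_jbM.2 ⟨a, ha, y, hy, rfl⟩,
          jbF R R' b y, mem_jbM.2 ⟨b, hb, y, hy, rfl⟩, ?_⟩
        intro h
        have : b ∈ jbF R R' a y := mem_jbF.2 ⟨Or.inl hb, hab.symm, jb_ne hd hb hy⟩
        rw [h] at this
        exact (mem_jbF.1 this).2.1 rfl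
      · obtain ⟨a, ha, b, hb, hab⟩ := Finset.one_lt_card.1 h4
        refine Finset.one_lt_card.2 ⟨jbF R R' x a, mem_jbM.2 ⟨x, hx, a, ha, rfl⟩,
          jbF R R' x b, mem_jbM.2 ⟨x, hx, b, hb, rfl⟩, ?_⟩
        intro h
        have : b ∈ jbF R R' x a := mem_jbF.2 ⟨Or.inr hb, (jb_ne hd hx hb).symm, hab.symm⟩
        rw [h] at this
        exact (mem_jbF.1 this).2.2 rfl
    · rintro σ hσ ⟨σ1, hσ1, hr1⟩ ⟨σ2, hσ2, hr2⟩
      obtain ⟨x, hx, y, hy, rfl⟩ := mem_jbM.1 hσ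
      obtain ⟨a, ha, b, hb, rfl⟩ := mem_jbM.1 hσ1
      obtain ⟨a', ha', b', hb', rfl⟩ := mem_jbM.1 hσ2
      rw [jb_TT hd hρ hinj hx hy]
      have hcard : (jbL R R' ρ x y).card + (jbG R R' ρ x y).card + 2 =
          R.card + R'.card := by
        rw [← Finset.card_union_of_disjoint (jb_disj hd ρ x y), jb_union hd hinj hx hy]
        exact jbF_card hd hx hy
      refine ih _ (by omega) _ _ rfl (jb_disj hd ρ x y) ?_ ?_ ?_
      · rcases jb_early hd hρ hx hy ha hb hr1 with h | h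
        · exact ⟨_, h⟩
        · exact ⟨_, h⟩
      · rcases jb_late hd hρ hx hy ha' hb' hr2 with h | h
        · exact ⟨_, h⟩
        · exact ⟨_, h⟩
      · obtain ⟨k, hk⟩ := ho
        exact ⟨k - 1, by omega⟩

theorem rsh_JB (R R' : Finset ι) (hd : Disjoint R R') (h1 : R.Nonempty) (h2 : R'.Nonempty)
    (ho : Odd (R.card + R'.card)) : Rsh (JB R R') :=
  rsh_JB_aux _ R R' rfl hd h1 h2 ho

end SCS
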