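import Pool.Agent.SCS.Chn3
import Pool.Agent.SNG.Coc

/-!
# Project SCS (architect helper40), module Loc: localisation of harmonic chains

`RInv G S Y`: `Y ⊆ W G` is invariant under right multiplication by the generators in `S`.
* `mu_HH`: by `mem_HH`.  Let `f ∈ HH S j`.  `mu Y f` is supported where `f` is, alternating
  (`g * sm s ∈ Y ↔ g ∈ Y` for `s ∈ T ⊆ S`; for other `T` the function is zero).  For fixed `g` the value
  `bdry (mu Y f) T g` is `0` or `bdry f T g`.  For cliques `T ⊆ S`, `cobd (mu Y f) T g` only involves `g`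
  and `g * sm s` with `s ∈ T ⊆ S`: it is `0` or `cobd f T g`.
* `PP_mu`: `PP_comm` with `mu_inner`.
* `rinv_WS`: `Subgroup.mul_mem_cancel_right`; `rinv_trs`.
* `not_mem_WS`: let `c ∉ Y`.  There is a homomorphism `W G →* Multiplicative (ZMod 2)` with
  `c ↦ ofAdd 1` and all other generators to `1` (`SNG.exists_lift` in module Coc, or
  `CoxeterSystem.lift`); it is trivial on `WS G Y` (`Subgroup.closure_induction` / `closure_le` the kernel)
  and not at `sm G c`.
* `rt_HH`: let `c` be adjacent to all elements of `Y`.  `rt (sm c)` commutes with right multiplication by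
  `sm s`, `s ∈ Y` (`sm_comm`), so by `mem_HH` it preserves `HH Y j` (`f (T, ·)` vanishes unless `T ⊆ Y`).
-/

namespace SCS

open SNG Finset
open scoped InnerProductSpace

/-- invariance under right multiplication by the generators in `S` -/
def RInv {V : Type} (G : SimpleGraph V) (S : Finset V) (Y : Set (W G)) : Prop :=
  ∀ s ∈ S, ∀ g : W G, g * sm G s ∈ Y ↔ g ∈ Y

theorem RInv.mono {V : Type} {G : SimpleGraph V} {S S' : Finset V} {Y : Set (W G)}
    (h : RInv G S Y) (hS : S' ⊆ S) : RInv G S' Y := fun s hs g => h s (hS hs) g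

theorem rinv_WS {V : Type} (G : SimpleGraph V) (S : Finset V) : RInv G S (WS G S : Set (W G)) := by
  intro s hs g
  have h : sm G s ∈ WS G S := Subgroup.subset_closure ⟨s, Finset.mem_coe.2 hs, rfl⟩
  rw [SetLike.mem_coe, SetLike.mem_coe]
  exact Subgroup.mul_mem_cancel_right _ h

theorem rinv_trs {V : Type} {G : SimpleGraph V} {S : Finset V} {Y : Set (W G)} (h : RInv G S Y)
    (g : W G) : RInv G S (trs g Y) := by
  intro s hs x
  change g⁻¹ * (x * sm G s) ∈ Y ↔ g⁻¹ * x ∈ Y
  rw [← mul_assoc]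
  exact h s hs (g⁻¹ * x)

theorem not_mem_WS {V : Type} {G : SimpleGraph V} {Y : Finset V} {c : V} (hc : c ∉ Y) :
    sm G c ∉ WS G Y := by
  classical
  obtain ⟨φ, hφ⟩ := exists_lift G (P := Multiplicative (ZMod 2))
    (fun v => Multiplicative.ofAdd (if v = c then (1 : ZMod 2) else 0)) (fun v => by
      rw [← ofAdd_add, CharTwo.add_self_eq_zero]
      rfl) (fun v w _ => mul_comm _ _)
  have h1 : WS G Y ≤ φ.ker := by
    refine (Subgroup.closure_le _).2 ?_
    rintro _ ⟨s, hs, rfl⟩
    have hsc : s ≠ c := fun h => hc (h ▸ Finset.mem_coe.1 hs)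
    rw [SetLike.mem_coe, MonoidHom.mem_ker, hφ s, if_neg hsc]
    rfl
  intro h
  have h2 := h1 h
  rw [MonoidHom.mem_ker, hφ c, if_pos rfl] at h2
  have h3 : (1 : ZMod 2) = 0 := Multiplicative.ofAdd.injective h2
  exact absurd h3 (by decide)

private theorem mu_pos {V : Type} {G : SimpleGraph V} {Y : Set (W G)} (f : HW G) (T : Finset V)
    {g : W G} (h : g ∈ Y) : mu Y f (T, g) = f (T, g) := by
  rw [mu_apply]
  exact if_pos h

private theorem mu_neg {V : Type} {G : SimpleGraph V} {Y : Set (W G)} (f : HW G) (T : Finset V)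
    {g : W G} (h : g ∉ Y) : mu Y f (T, g) = 0 := by
  rw [mu_apply]
  exact if_neg h

variable {V : Type} [Fintype V] [LinearOrder V] {G : SimpleGraph V}

theorem mu_HH {S : Finset V} {Y : Set (W G)} (hY : RInv G S Y) {j : ℕ} {f : HW G}
    (hf : f ∈ HH G S j) : mu Y f ∈ HH G S j := by
  obtain ⟨hC, hb, hc⟩ := mem_HH.1 hf
  refine mem_HH.2 ⟨⟨fun T hT g => ?_, fun T s hs g => ?_⟩, fun T g => ?_, fun T hTS hT g => ?_⟩
  · by_cases hg : g ∈ Y
    · rw [mu_pos f T hg]
      exact hC.1 T hT g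
    · exact mu_neg f T hg
  · by_cases hT : T ⊆ S ∧ G.IsClique (T : Set V) ∧ T.card = j
    · by_cases hg : g ∈ Y
      · rw [mu_pos f T hg, mu_pos f T ((hY s (hT.1 hs) g).2 hg)]
        exact hC.2 T s hs g
      · rw [mu_neg f T hg, mu_neg f T fun h => hg ((hY s (hT.1 hs) g).1 h), neg_zero]
    · have h1 : ∀ x, mu Y f (T, x) = 0 := by
        intro x
        by_cases hx : x ∈ Y
        · rw [mu_pos f T hx]
          exact hC.1 T hT x
        · exact mu_neg f T hx
      rw [h1, h1, neg_zero]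
  · by_cases hg : g ∈ Y
    · rw [← hb T g]
      unfold bdry
      refine Finset.sum_congr rfl fun s _ => ?_
      dsimp only
      rw [mu_pos f _ hg]
    · unfold bdry
      refine Finset.sum_eq_zero fun s _ => ?_
      dsimp only
      rw [mu_neg f _ hg, mul_zero]
  · by_cases hg : g ∈ Y
    · rw [← hc T hTS hT g]
      unfold cobd
      refine Finset.sum_congr rfl fun s hs => ?_
      dsimp only
      rw [mu_pos f _ hg, mu_pos f _ ((hY s (hTS hs) g).2 hg)]
    · unfold cobd
      refine Finset.sum_eq_zero fun s hs => ?_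
      dsimp only
      rw [mu_neg f _ hg, mu_neg f _ fun h => hg ((hY s (hTS hs) g).1 h), sub_zero, mul_zero]

theorem PP_mu {S : Finset V} {Y : Set (W G)} (hY : RInv G S Y) (j : ℕ) (f : HW G) :
    PP (HH G S j) (mu Y f) = mu Y (PP (HH G S j) f) :=
  PP_comm (fun x y => mu_inner Y x y) (fun _ hx => mu_HH hY hx) f

theorem rt_HH {Y : Finset V} {c : V} (hc : ∀ y ∈ Y, G.Adj c y) {j : ℕ} {f : HW G}
    (hf : f ∈ HH G Y j) : rt (sm G c) f ∈ HH G Y j := by
  obtain ⟨hC, hb, hcb⟩ := mem_HH.1 hf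
  have e : ∀ (T : Finset V) (g : W G), rt (sm G c) f (T, g) = f (T, g * sm G c) := fun T g =>
    rt_apply _ f (T, g)
  have e2 : ∀ s ∈ Y, ∀ g : W G, g * sm G s * sm G c = g * sm G c * sm G s := by
    intro s hs g
    rw [mul_assoc, ← sm_comm (hc s hs), mul_assoc]
  refine mem_HH.2 ⟨⟨fun T hT g => ?_, fun T s hs g => ?_⟩, fun T g => ?_, fun T hTS hT g => ?_⟩
  · rw [e]
    exact hC.1 T hT _
  · rw [e, e]
    by_cases hT : T ⊆ Y ∧ G.IsClique (T : Set V) ∧ T.card = j
    · rw [e2 s (hT.1 hs)]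
      exact hC.2 T s hs _
    · rw [hC.1 T hT, hC.1 T hT, neg_zero]
  · rw [← hb T (g * sm G c)]
    unfold bdry
    refine Finset.sum_congr rfl fun s _ => ?_
    dsimp only
    rw [e]
  · rw [← hcb T hTS hT (g * sm G c)]
    unfold cobd
    refine Finset.sum_congr rfl fun s hs => ?_
    dsimp only
    rw [e, e, e2 s (hTS hs)]

end SCS
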