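import Pool.Agent.SCS.Span
import Pool.Agent.SCS.Cut

/-!
# Project SCS (architect helper40), module MinMax: the min-max identity

`E = A ∩ B`, `X = XX A B j`, `K = KK A B j`, `P_A = PP (HH A j)`, `P_B = PP (HH B j)` (symmetric, `PP_symm`,
and `PP_self`; all spaces closed and invariant; `eqv_PP`).

(1) `dm X = dm (X ⊓ kr P_A) + dm (im P_A X)` (`dm_rn`).
(2) `dm (X ⊓ kr P_A) = dm (X ⊓ kr P_A ⊓ kr P_B) + dm (im P_B (X ⊓ kr P_A))` (`dm_rn`).
(3) `X ⊓ kr P_A ⊓ kr P_B = K`: `XX_le`, `KK_le_XX`, definition of `KK`.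
(4) `M = im P_B (X ⊓ kr P_A)` has the same closure as `im P_B X =: M'`; then `dm M = dm M'`
    (`dm_closure`) and the identity follows.  Proof of (4): `M ≤ closure M' =: N`; by `eq_of_dense` it
    suffices: `ψ ∈ N`, `ψ ⟂ M` implies `ψ = 0`.  `N ≤ HH B j` (closed), so `P_B ψ = ψ`.
  (a) For `x ∈ X ⊓ kr P_A`: `0 = ⟪ψ, P_B x⟫ = ⟪P_B ψ, x⟫ = ⟪ψ, x⟫`.  Let `φ = PP X ψ ∈ X`; so
      `⟪φ, x⟫ = ⟪ψ, x⟫ = 0` for all `x ∈ X ⊓ kr P_A`.
  (b) `φ` is in the closure of `im (PP X) (HH A j)`.  General lemma (`mem_cl_of_orth`): for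
      `φ ∈ X` closed with `φ ⟂ X ⊓ kr P_A`: let `C` be that closure, `z = φ - PP C φ ∈ X` (as `C ≤ X`), it is
      orthogonal to `C`; for every `y`: `0 = ⟪z, PP X (P_A y)⟫ = ⟪z, P_A y⟫ = ⟪P_A z, y⟫`, so `P_A z = 0`,
      `z ∈ X ⊓ kr P_A`.  Hence `⟪z, z⟫ = ⟪z, φ⟫ - ⟪z, PP C φ⟫ = 0 - 0`.
  (c) Let `Ω` be as in `exists_cut`; `x ∈ K`, `g ∈ W G`.  Put `u = mu (g (Ω ∪ WS_E)) x`,
      `v = mu (g Ω) x`, `y = mu (g WS_E) x`; `u = v + y` (`mu_union`, `trs_union`, `trs_disjoint`).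
      `g (Ω ∪ WS_E)` is invariant under `A`, `g Ω` under `B` (`rinv_trs`), both under `E`
      (`RInv.mono`), so `u, v ∈ X` (`mu_mem_XX`), and `P_A u = mu _ (P_A x) = 0`, `P_B v = mu _ (P_B x) = 0`
      (`PP_mu`, `x ∈ K`).
      `⟪u, φ⟫ = 0`: for `y' ∈ HH A j`: `⟪u, PP X y'⟫ = ⟪PP X u, y'⟫ = ⟪u, y'⟫ = ⟪u, P_A y'⟫ = ⟪P_A u, y'⟫ = 0`,
      and `φ` is in the closure of these elements (b).
      `⟪v, φ⟫ = ⟪v, PP X ψ⟫ = ⟪v, ψ⟫ = ⟪v, P_B ψ⟫ = ⟪P_B v, ψ⟫ = 0`.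
      So `⟪y, φ⟫ = 0`.
  (d) By `XX_orth` `⟪φ, φ⟫ = 0`, `φ = 0`.  So `⟪ψ, x⟫ = ⟪φ, x⟫ = 0` for all `x ∈ X`, hence
      `⟪ψ, P_B x⟫ = ⟪P_B ψ, x⟫ = ⟪ψ, x⟫ = 0`: `ψ` is orthogonal to `M'` and lies in its closure: `ψ = 0`.
-/

namespace SCS

open SNG Finset
open scoped InnerProductSpace

variable {V : Type} [Fintype V] [LinearOrder V] {G : SimpleGraph V}

private theorem orth_cl {α : Type} {C : Submodule ℝ (Ell α)} {u φ : Ell α}
    (h : ∀ y ∈ C, ⟪u, y⟫_ℝ = 0) (hφ : φ ∈ C.topologicalClosure) : ⟪u, φ⟫_ℝ = 0 := by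
  have h1 : PP C u = 0 := by
    rw [PP_zero_iff, Submodule.mem_orthogonal']
    exact h
  have h2 : PP C φ = φ := by
    rw [← PP_closure]
    exact PP_self hφ
  rw [← h2, ← PP_symm, h1, inner_zero_left]

private theorem mem_cl_of_orth {α : Type} {X H : Submodule ℝ (Ell α)}
    (hX : IsClosed (X : Set (Ell α))) {φ : Ell α} (hφ : φ ∈ X)
    (h : ∀ x ∈ X ⊓ kr (PP H), ⟪x, φ⟫_ℝ = 0) : φ ∈ (im (PP X) H).topologicalClosure := by
  set C := im (PP X) H with hC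
  have hcl : X.topologicalClosure = X := hX.submodule_topologicalClosure_eq
  have hPX : ∀ x, PP X x ∈ X := fun x => by
    have h := PP_mem X x
    rwa [hcl] at h
  have hCX : C ≤ X := by
    rintro _ ⟨y, _, rfl⟩
    exact hPX y
  set z := φ - PP C φ with hz
  have hzX : z ∈ X :=
    Submodule.sub_mem _ hφ ((Submodule.topologicalClosure_minimal _ hCX hX) (PP_mem C φ))
  have hzC : ∀ y ∈ C, ⟪z, y⟫_ℝ = 0 := fun y hy => PP_sub C φ y hy
  have hPz : PP H z = 0 := by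
    rw [PP_zero_iff, Submodule.mem_orthogonal']
    intro y hy
    rw [← PP_self hzX, PP_symm]
    exact hzC _ (mem_im.2 ⟨y, hy, rfl⟩)
  have e1 := h z ⟨hzX, mem_kr.2 hPz⟩
  have e2 : ⟪z, PP C φ⟫_ℝ = 0 := orth_cl hzC (PP_mem C φ)
  have hz0 : ⟪z, z⟫_ℝ = 0 := by
    have e3 : ⟪z, φ - PP C φ⟫_ℝ = 0 := by rw [inner_sub_right, e1, e2, sub_zero]
    exact e3
  have h3 : z = 0 := inner_self_eq_zero.1 hz0
  have h4 : φ = PP C φ := sub_eq_zero.1 h3
  rw [h4]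
  exact PP_mem C φ

theorem min_max {A B : Finset V} {c : V} (hu : ∀ x, x = c ∨ x ∈ A ∨ x ∈ B)
    (hc : ∀ x ∈ A, G.Adj c x → x ∈ B) (hn : NoE G A B) (j : ℕ) :
    dm (XX G A B j) = dm (KK G A B j) + dm (im (PP (HH G A j)) (XX G A B j)) +
      dm (im (PP (HH G B j)) (XX G A B j)) := by
  set X := XX G A B j with hX
  have hXc : IsClosed (X : Set (HW G)) := XX_closed A B j
  have hXi : Inv X := inv_XX A B j
  have eA : Eqv (PP (HH G A j)) := eqv_PP (inv_HH A j)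
  have eB : Eqv (PP (HH G B j)) := eqv_PP (inv_HH B j)
  have h1 := dm_rn eA hXi hXc
  have hYc : IsClosed ((X ⊓ kr (PP (HH G A j)) : Submodule ℝ (HW G)) : Set (HW G)) :=
    hXc.inter (kr_closed (PP (HH G A j)))
  have hYi : Inv (X ⊓ kr (PP (HH G A j))) := hXi.inf eA.invKr
  have h2 := dm_rn eB hYi hYc
  have h3 : X ⊓ kr (PP (HH G A j)) ⊓ kr (PP (HH G B j)) = KK G A B j := by
    apply le_antisymm
    · intro x hx
      exact ⟨⟨XX_le A B j hx.1.1, hx.1.2⟩, hx.2⟩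
    · intro x hx
      exact ⟨⟨KK_le_XX A B j hx, hx.1.2⟩, hx.2⟩
  have hcl : X.topologicalClosure = X := hXc.submodule_topologicalClosure_eq
  have hPX : ∀ x, PP X x ∈ X := fun x => by
    have h := PP_mem X x
    rwa [hcl] at h
  have hPB : ∀ x, PP (HH G B j) x ∈ HH G B j := fun x => by
    have h := PP_mem (HH G B j) x
    rwa [(closed_HH B j).submodule_topologicalClosure_eq] at h
  have h4 : (im (PP (HH G B j)) (X ⊓ kr (PP (HH G A j)))).topologicalClosure =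
      (im (PP (HH G B j)) X).topologicalClosure := by
    apply eq_of_dense ((Submodule.map_mono inf_le_left).trans (Submodule.le_topologicalClosure _))
      (Submodule.isClosed_topologicalClosure _)
    intro ψ hψ horth
    have hN : (im (PP (HH G B j)) X).topologicalClosure ≤ HH G B j := by
      apply Submodule.topologicalClosure_minimal _ _ (closed_HH B j)
      rintro _ ⟨y, _, rfl⟩
      exact hPB y
    have hψB : PP (HH G B j) ψ = ψ := PP_self (hN hψ)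
    have ha : ∀ x ∈ X ⊓ kr (PP (HH G A j)), ⟪ψ, x⟫_ℝ = 0 := by
      intro x hx
      rw [← hψB, PP_symm]
      exact horth _ (mem_im.2 ⟨x, hx, rfl⟩)
    have hφX : PP X ψ ∈ X := hPX ψ
    have hφx : ∀ x ∈ X, ⟪x, PP X ψ⟫_ℝ = ⟪x, ψ⟫_ℝ := by
      intro x hx
      rw [← PP_symm, PP_self hx]
    have hb := mem_cl_of_orth (H := HH G A j) hXc hφX (fun x hx => by
      rw [hφx x hx.1, real_inner_comm]
      exact ha x hx)
    obtain ⟨Ω, hΩB, hΩA, hΩd⟩ := exists_cut hu hc hn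
    have hφ0 : PP X ψ = 0 := by
      have hgen : ∀ y ∈ XG G A B j, ⟪y, PP X ψ⟫_ℝ = 0 := by
        rintro _ ⟨g, x, hx, rfl⟩
        have huv : mu (trs g (Ω ∪ (WS G (A ∩ B) : Set (W G)))) x =
            mu (trs g Ω) x + mu (trs g (WS G (A ∩ B) : Set (W G))) x := by
          rw [trs_union]
          exact mu_union (trs_disjoint hΩd) x
        have hA' : RInv G A (trs g (Ω ∪ (WS G (A ∩ B) : Set (W G)))) := rinv_trs hΩA g
        have hB' : RInv G B (trs g Ω) := rinv_trs hΩB g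
        have hu' : mu (trs g (Ω ∪ (WS G (A ∩ B) : Set (W G)))) x ∈ X :=
          mu_mem_XX (hA'.mono Finset.inter_subset_left) hx
        have hv' : mu (trs g Ω) x ∈ X := mu_mem_XX (hB'.mono Finset.inter_subset_right) hx
        have hPu : PP (HH G A j) (mu (trs g (Ω ∪ (WS G (A ∩ B) : Set (W G)))) x) = 0 := by
          rw [PP_mu hA' j x, mem_kr.1 hx.1.2, map_zero]
        have hPv : PP (HH G B j) (mu (trs g Ω) x) = 0 := by
          rw [PP_mu hB' j x, mem_kr.1 hx.2, map_zero]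
        have i1 : ⟪mu (trs g (Ω ∪ (WS G (A ∩ B) : Set (W G)))) x, PP X ψ⟫_ℝ = 0 := by
          refine orth_cl ?_ hb
          rintro _ ⟨y, hy, rfl⟩
          have e1 : ⟪mu (trs g (Ω ∪ (WS G (A ∩ B) : Set (W G)))) x, PP X y⟫_ℝ = 0 := by
            rw [← PP_symm, PP_self hu', ← PP_self hy, ← PP_symm, hPu, inner_zero_left]
          exact e1
        have i2 : ⟪mu (trs g Ω) x, PP X ψ⟫_ℝ = 0 := by
          rw [hφx _ hv', ← hψB, ← PP_symm, hPv, inner_zero_left]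
        rw [huv, inner_add_left, i2, zero_add] at i1
        exact i1
      exact inner_self_eq_zero.1 (XX_orth hgen _ hφX)
    -- `ψ` is orthogonal to `im P_B X`
    have h5 : ∀ y ∈ im (PP (HH G B j)) X, ⟪ψ, y⟫_ℝ = 0 := by
      rintro _ ⟨x, hx, rfl⟩
      have e1 : ⟪ψ, PP (HH G B j) x⟫_ℝ = 0 := by
        rw [← PP_symm, hψB, real_inner_comm, ← hφx x hx, hφ0, inner_zero_right]
      exact e1
    exact inner_self_eq_zero.1 (orth_cl h5 hψ)
  have h5 : dm (im (PP (HH G B j)) (X ⊓ kr (PP (HH G A j)))) = dm (im (PP (HH G B j)) X) := by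
    rw [← dm_closure, h4, dm_closure]
  rw [h3] at h2
  linarith

end SCS
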