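import Pool.Agent.SCS.Dim2

/-!
# Project SCS (architect helper40), module Ops: right translations and multiplication operators
-/

namespace SCS

open scoped InnerProductSpace

variable {I Γ : Type} [Group Γ]

/-- Right translation: `(rt u f) (i, g) = f (i, g * u)`. -/
noncomputable def rt (u : Γ) : L2 I Γ →L[ℝ] L2 I Γ := pull (fun q => (q.1, q.2 * u)) fun _ => 1

theorem rt_apply (u : Γ) (f : L2 I Γ) (q : I × Γ) : rt u f q = f (q.1, q.2 * u) := by
  unfold rt
  rw [pull_apply, one_mul]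
  refine pullOk_one fun x y h => ?_
  have h1 := congrArg Prod.fst h
  have h2 := congrArg Prod.snd h
  exact Prod.ext h1 (mul_right_cancel h2)

theorem eqv_rt (u : Γ) : Eqv (rt (I := I) u) := by
  intro g x
  refine ell_ext fun q => ?_
  rw [rt_apply, lam_apply, lam_apply, rt_apply, mul_assoc]

theorem rt_mul (u v : Γ) (f : L2 I Γ) : rt (u * v) f = rt u (rt v f) := by
  refine ell_ext fun q => ?_
  rw [rt_apply, rt_apply, rt_apply, mul_assoc]

theorem rt_one (f : L2 I Γ) : rt (1 : Γ) f = f := by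
  refine ell_ext fun q => ?_
  rw [rt_apply, mul_one]

theorem rt_inner (u : Γ) (f h : L2 I Γ) : ⟪rt u f, h⟫_ℝ = ⟪f, rt u⁻¹ h⟫_ℝ := by
  rw [ell_inner, ell_inner]
  simp only [rt_apply]
  rw [← Equiv.tsum_eq ((Equiv.refl I).prodCongr (Equiv.mulRight u))
    fun q : I × Γ => f q * h (q.1, q.2 * u⁻¹)]
  refine tsum_congr fun q => ?_
  change f (q.1, q.2 * u) * h q = f (q.1, q.2 * u) * h (q.1, q.2 * u * u⁻¹)
  rw [mul_inv_cancel_right]

open Classical in
/-- Multiplication by the characteristic function of `Y`. -/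
noncomputable def mu (Y : Set Γ) : L2 I Γ →L[ℝ] L2 I Γ := pull id fun q => if q.2 ∈ Y then 1 else 0

open Classical in
omit [Group Γ] in
theorem mu_apply (Y : Set Γ) (f : L2 I Γ) (q : I × Γ) :
    mu Y f q = if q.2 ∈ Y then f q else 0 := by
  unfold mu
  rw [pull_apply]
  · simp only [id_eq, ite_mul, one_mul, zero_mul]
  · refine pullOk_id fun x => ?_
    split_ifs <;> simp

omit [Group Γ] in
theorem mu_inner (Y : Set Γ) (f h : L2 I Γ) : ⟪mu Y f, h⟫_ℝ = ⟪f, mu Y h⟫_ℝ := by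
  classical
  rw [ell_inner, ell_inner]
  refine tsum_congr fun q => ?_
  rw [mu_apply, mu_apply]
  split_ifs <;> simp

omit [Group Γ] in
theorem mu_union {Y Z : Set Γ} (h : Disjoint Y Z) (f : L2 I Γ) :
    mu (Y ∪ Z) f = mu Y f + mu Z f := by
  classical
  refine ell_ext fun q => ?_
  rw [ell_add, mu_apply, mu_apply, mu_apply]
  by_cases h1 : q.2 ∈ Y
  · have h2 : q.2 ∉ Z := fun h2 => Set.disjoint_left.1 h h1 h2
    simp [h1, h2]
  · by_cases h2 : q.2 ∈ Z <;> simp [h1, h2]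

/-- The translate `g Y`. -/
def trs (g : Γ) (Y : Set Γ) : Set Γ := {x | g⁻¹ * x ∈ Y}

theorem lam_mu (g : Γ) (Y : Set Γ) (f : L2 I Γ) : lam g (mu Y f) = mu (trs g Y) (lam g f) := by
  classical
  refine ell_ext fun q => ?_
  rw [lam_apply, mu_apply, mu_apply, lam_apply]
  rfl

theorem trs_union (g : Γ) (Y Z : Set Γ) : trs g (Y ∪ Z) = trs g Y ∪ trs g Z := rfl

theorem trs_disjoint {g : Γ} {Y Z : Set Γ} (h : Disjoint Y Z) : Disjoint (trs g Y) (trs g Z) :=
  Set.disjoint_left.2 fun _ hx hy => Set.disjoint_left.1 h hx hy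

theorem trs_mul (g h : Γ) (Y : Set Γ) : trs g (trs h Y) = trs (g * h) Y := by
  ext x
  change h⁻¹ * (g⁻¹ * x) ∈ Y ↔ (g * h)⁻¹ * x ∈ Y
  rw [mul_inv_rev, mul_assoc]

/-- If the closed subspace `X` is stable under a symmetric operator `M`, the projection commutes with
`M`. -/
theorem PP_comm {α : Type} {X : Submodule ℝ (Ell α)} {M : Ell α →L[ℝ] Ell α}
    (hs : ∀ x y, ⟪M x, y⟫_ℝ = ⟪x, M y⟫_ℝ) (hM : ∀ x ∈ X, M x ∈ X) (x : Ell α) :
    PP X (M x) = M (PP X x) := by
  refine PP_eq ?_ ?_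
  · have h1 : ∀ z ∈ X.topologicalClosure, M z ∈ X.topologicalClosure := by
      intro z hz
      exact map_mem_closure M.continuous hz fun w hw => hM w hw
    exact h1 _ (PP_mem X x)
  · intro z hz
    rw [← map_sub, hs]
    exact PP_sub X x _ (hM z hz)

end SCS
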