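import Mathlib

/-!
# Project SCS (architect helper40), module Pull: weighted pull back operators on `ℓ²`

`pull φ c f x = c x * f (φ x)`, a bounded operator if `|c| ≤ 1` and `φ` is injective on the support
of `c` (`PullOk`).
-/

namespace SCS

open scoped InnerProductSpace

/-- The real Hilbert space `ℓ²(α)`. -/
abbrev Ell (α : Type) : Type := lp (fun _ : α => ℝ) 2

theorem ell_ext {α : Type} {f g : Ell α} (h : ∀ x, f x = g x) : f = g := lp.ext (funext h)

theorem ell_memℓp {α : Type} {f : α → ℝ} : Memℓp f 2 ↔ Summable fun x => f x ^ 2 := by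
  rw [memℓp_gen_iff (by norm_num)]
  simp

/-- A square summable function as an element of `ℓ²`. -/
def mkE {α : Type} (f : α → ℝ) (h : Summable fun x => f x ^ 2) : Ell α := ⟨f, ell_memℓp.2 h⟩

@[simp] theorem mkE_apply {α : Type} (f : α → ℝ) (h : Summable fun x => f x ^ 2) (x : α) :
    mkE f h x = f x := rfl

theorem ell_norm_sq {α : Type} (f : Ell α) : ‖f‖ ^ 2 = ∑' x, f x ^ 2 := by
  have h := lp.norm_rpow_eq_tsum (p := 2) (by norm_num) f
  simpa using h

theorem ell_summable {α : Type} (f : Ell α) : Summable fun x => f x ^ 2 := ell_memℓp.1 f.2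

theorem ell_hasSum {α : Type} (f g : Ell α) : HasSum (fun x => f x * g x) ⟪f, g⟫_ℝ := by
  have h := lp.hasSum_inner (𝕜 := ℝ) f g
  have e : (fun x => f x * g x) = fun x => ⟪f x, g x⟫_ℝ := by
    funext x
    simp [mul_comm]
  rw [e]
  exact h

theorem ell_inner {α : Type} (f g : Ell α) : ⟪f, g⟫_ℝ = ∑' x, f x * g x :=
  (ell_hasSum f g).tsum_eq.symm

@[simp] theorem ell_add {α : Type} (f g : Ell α) (x : α) : (f + g) x = f x + g x := rfl
@[simp] theorem ell_sub {α : Type} (f g : Ell α) (x : α) : (f - g) x = f x - g x := rfl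
@[simp] theorem ell_neg {α : Type} (f : Ell α) (x : α) : (-f) x = - f x := rfl
@[simp] theorem ell_smul {α : Type} (a : ℝ) (f : Ell α) (x : α) : (a • f) x = a * f x := rfl
@[simp] theorem ell_zero {α : Type} (x : α) : (0 : Ell α) x = 0 := rfl

theorem ell_sum {α ι : Type} (s : Finset ι) (f : ι → Ell α) (x : α) :
    (∑ i ∈ s, f i) x = ∑ i ∈ s, f i x := by
  rw [lp.coeFn_sum, Finset.sum_apply]

/-- The value at a point is continuous. -/
theorem ell_cont {α : Type} (x : α) : Continuous fun f : Ell α => f x :=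
  (lp.evalCLM ℝ (fun _ : α => ℝ) 2 x).continuous

/-- The condition under which the weighted pull back is a contraction. -/
def PullOk {α : Type} (φ : α → α) (c : α → ℝ) : Prop :=
  (∀ x, |c x| ≤ 1) ∧ ∀ x y, c x ≠ 0 → c y ≠ 0 → φ x = φ y → x = y

theorem pull_le {α : Type} {φ : α → α} {c : α → ℝ} (h : PullOk φ c) (f : Ell α) (s : Finset α) :
    ∑ x ∈ s, (c x * f (φ x)) ^ 2 ≤ ‖f‖ ^ 2 := by
  classical
  rw [ell_norm_sq]
  calc ∑ x ∈ s, (c x * f (φ x)) ^ 2
      = ∑ x ∈ s.filter (fun x => c x ≠ 0), (c x * f (φ x)) ^ 2 := by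
        rw [Finset.sum_filter]
        refine Finset.sum_congr rfl fun x _ => ?_
        split_ifs with h1
        · rfl
        · have h2 : c x = 0 := by simpa using h1
          simp [h2]
    _ ≤ ∑ x ∈ s.filter (fun x => c x ≠ 0), f (φ x) ^ 2 := by
        refine Finset.sum_le_sum fun x _ => ?_
        rw [mul_pow]
        have h1 : c x ^ 2 ≤ 1 := by
          rw [← sq_abs]
          exact pow_le_one₀ (abs_nonneg _) (h.1 x)
        nlinarith [sq_nonneg (f (φ x))]
    _ = ∑ y ∈ (s.filter (fun x => c x ≠ 0)).image φ, f y ^ 2 := by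
        rw [Finset.sum_image]
        intro x hx y hy hxy
        have hx' := (Finset.mem_filter.1 (Finset.mem_coe.1 hx)).2
        have hy' := (Finset.mem_filter.1 (Finset.mem_coe.1 hy)).2
        exact h.2 x y hx' hy' hxy
    _ ≤ ∑' x, f x ^ 2 := (ell_summable f).sum_le_tsum _ fun x _ => sq_nonneg _

theorem pull_summable {α : Type} {φ : α → α} {c : α → ℝ} (h : PullOk φ c) (f : Ell α) :
    Summable fun x => (c x * f (φ x)) ^ 2 :=
  summable_of_sum_le (fun x => sq_nonneg _) (pull_le h f)

/-- Weighted pull back as a linear map. -/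
noncomputable def pullL {α : Type} (φ : α → α) (c : α → ℝ) (h : PullOk φ c) : Ell α →ₗ[ℝ] Ell α where
  toFun f := mkE (fun x => c x * f (φ x)) (pull_summable h f)
  map_add' f g := ell_ext fun x => by
    simp only [mkE_apply, ell_add]
    ring
  map_smul' a f := ell_ext fun x => by
    simp only [mkE_apply, ell_smul, RingHom.id_apply]
    ring

open Classical in
/-- Weighted pull back `f ↦ (x ↦ c x * f (φ x))` as a bounded operator (`0` if it is not one). -/
noncomputable def pull {α : Type} (φ : α → α) (c : α → ℝ) : Ell α →L[ℝ] Ell α :=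
  if h : PullOk φ c then
    (pullL φ c h).mkContinuous 1 fun f => by
      rw [one_mul]
      refine (sq_le_sq₀ (norm_nonneg _) (norm_nonneg _)).1 ?_
      rw [ell_norm_sq]
      exact (pull_summable h f).tsum_le_of_sum_le (pull_le h f)
  else 0

theorem pull_apply {α : Type} {φ : α → α} {c : α → ℝ} (h : PullOk φ c) (f : Ell α) (x : α) :
    pull φ c f x = c x * f (φ x) := by
  unfold pull
  rw [dif_pos h]
  rfl

theorem pull_norm {α : Type} (φ : α → α) (c : α → ℝ) : ‖pull φ c‖ ≤ 1 := by
  unfold pull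
  split_ifs with h
  · exact LinearMap.mkContinuous_norm_le _ zero_le_one _
  · simp

/-- `φ` injective: the pull back with weight `1`. -/
theorem pullOk_one {α : Type} {φ : α → α} (h : Function.Injective φ) : PullOk φ fun _ => 1 :=
  ⟨fun x => by simp, fun x y _ _ hxy => h hxy⟩

/-- multiplication by a function -/
theorem pullOk_id {α : Type} {c : α → ℝ} (h : ∀ x, |c x| ≤ 1) : PullOk id c :=
  ⟨h, fun x y _ _ hxy => hxy⟩

end SCS
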