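import Pool.Agent.SCS.Tr

/-!
# Project SCS (architect helper40), module Rank: `dim ker T = dim (range T)ᗮ`

Let `T` be equivariant, `T†` its adjoint (also equivariant, `eqv_adj`).

Step 1.  We may assume `‖T‖ ≤ 1` (if `T = 0` both sides are `dm ⊤`; otherwise replace `T` by
`‖T‖⁻¹ • T`, same kernel and range).
Step 2.  `A = 1 - T†T`, `B = 1 - TT†`.  `‖A x‖² = ‖x‖² - 2 ‖T x‖² + ‖T†(T x)‖² ≤ ‖x‖² - ‖T x‖² ≤ ‖x‖²`,
so `‖A‖ ≤ 1`, in the same way `‖B‖ ≤ 1`.  The fixed points of `A` are `{x | T†T x = 0} = ker T`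
(`⟪T†T x, x⟫ = ‖T x‖²`), those of `B` are `ker T† = (range T)ᗮ`
(`ContinuousLinearMap.orthogonal_range` or directly).
Step 3.  `T ∘ A = B ∘ T`, so `T ∘ A ^ n = B ^ n ∘ T`.  Claim `tr (A ^ n) = tr (B ^ n)`; induction:
`tr (A ^ (n+1)) = tr (A ^ n) - tr (A ^ n ∘ T† ∘ T)`, and by `tr_comm`
`tr (A ^ n ∘ T† ∘ T) = tr (T ∘ A ^ n ∘ T†) = tr (B ^ n ∘ T ∘ T†) = tr (B ^ n) - tr (B ^ (n+1))`.
(`tr` is additive; powers of equivariant operators are equivariant.)
Step 4.  Von Neumann's mean ergodic theorem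
(`ContinuousLinearMap.tendsto_birkhoffAverage_orthogonalProjection`): for every `x`
`(1/N) ∑_(n < N) A^n x → P_(ker T) x` and `(1/N) ∑_(n < N) B^n x → P_((range T)ᗮ) x`.  Evaluate at
`x = dl i 1`, coordinate `(i, 1)` (`ell_cont`), sum over `i`: the traces of the averages are equal by
Step 3, so `tr P_(ker T) = tr P_((range T)ᗮ)`, i.e. the claim (both spaces are closed, so the projection
onto the closure is the projection onto the space; e.g. use `PP_eq` to identify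
`↑(orthogonalProjectionOnto (eqLocus ..) x)` with `PP (kr T) x`).
-/

namespace SCS

open scoped InnerProductSpace

variable {I Γ : Type} [Group Γ] [Fintype I]

private theorem tr_sub (S T : L2 I Γ →L[ℝ] L2 I Γ) : tr (S - T) = tr S - tr T := by
  unfold tr
  rw [← Finset.sum_sub_distrib]
  refine Finset.sum_congr rfl fun i _ => ?_
  rw [sub_apply, ell_sub]

private theorem ergo_pt {α : Type} (A : Ell α →L[ℝ] Ell α) (hA : ‖A‖ ≤ 1)
    (X : Submodule ℝ (Ell α)) (hX : ∀ x, A x = x ↔ x ∈ X) (x : Ell α) :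
    Filter.Tendsto (fun N => birkhoffAverage ℝ A _root_.id N x) Filter.atTop (nhds (PP X x)) := by
  have h := A.tendsto_birkhoffAverage_orthogonalProjection hA x
  have hmem : ∀ z : Ell α, z ∈ A.eqLocus (1 : Ell α →L[ℝ] Ell α) ↔ z ∈ X := by
    intro z
    rw [← hX z]
    exact Iff.rfl
  have he : PP X x = ((A.eqLocus (1 : Ell α →L[ℝ] Ell α)).orthogonalProjectionOnto x : Ell α) := by
    refine PP_eq (X.le_topologicalClosure ((hmem _).1 (Subtype.prop _))) ?_
    intro z hz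
    have h1 := (A.eqLocus (1 : Ell α →L[ℝ] Ell α)).sub_starProjection_mem_orthogonal x
    have h2 := (Submodule.mem_orthogonal' _ _).1 h1 z ((hmem z).2 hz)
    exact h2
  rw [he]
  exact h

private theorem pow_iter {α : Type} (A : Ell α →L[ℝ] Ell α) (n : ℕ) (x : Ell α) :
    A^[n] x = (A ^ n) x := by
  induction n generalizing x with
  | zero => rfl
  | succ n ih =>
    rw [Function.iterate_succ_apply, ih, pow_succ]
    rfl

private theorem ergo_tr (A : L2 I Γ →L[ℝ] L2 I Γ) (hA : ‖A‖ ≤ 1)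
    (X : Submodule ℝ (L2 I Γ)) (hX : ∀ x, A x = x ↔ x ∈ X) :
    Filter.Tendsto (fun N : ℕ => (N : ℝ)⁻¹ * ∑ n ∈ Finset.range N, tr (A ^ n)) Filter.atTop
      (nhds (dm X)) := by
  have h : Filter.Tendsto (fun N : ℕ => ∑ i : I,
      (birkhoffAverage ℝ A _root_.id N (dl i (1 : Γ)) : L2 I Γ) (i, 1)) Filter.atTop
      (nhds (∑ i : I, (PP X (dl i (1 : Γ))) (i, 1))) := by
    refine tendsto_finsetSum _ fun i _ => ?_
    exact ((ell_cont (i, (1 : Γ))).tendsto _).comp (ergo_pt A hA X hX (dl i (1 : Γ)))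
  refine h.congr fun N => ?_
  have h1 : ∀ i : I, (birkhoffAverage ℝ A _root_.id N (dl i (1 : Γ)) : L2 I Γ) (i, 1) =
      (N : ℝ)⁻¹ * ∑ n ∈ Finset.range N, ((A ^ n) (dl i (1 : Γ))) (i, 1) := by
    intro i
    rw [birkhoffAverage, birkhoffSum, ell_smul, ell_sum]
    congr 1
    refine Finset.sum_congr rfl fun n _ => ?_
    rw [← pow_iter]
    rfl
  rw [Finset.sum_congr rfl fun i _ => h1 i, ← Finset.mul_sum, Finset.sum_comm]
  rfl

omit [Group Γ] [Fintype I] in
private theorem inner_TT {T : L2 I Γ →L[ℝ] L2 I Γ} (x y : L2 I Γ) :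
    ⟪ContinuousLinearMap.adjoint T (T x), y⟫_ℝ = ⟪T x, T y⟫_ℝ :=
  ContinuousLinearMap.adjoint_inner_left T y (T x)

omit [Group Γ] [Fintype I] in
private theorem contr {T : L2 I Γ →L[ℝ] L2 I Γ} (hn : ‖T‖ ≤ 1) :
    ‖(1 : L2 I Γ →L[ℝ] L2 I Γ) - (ContinuousLinearMap.adjoint T).comp T‖ ≤ 1 := by
  refine ContinuousLinearMap.opNorm_le_bound _ zero_le_one fun x => ?_
  rw [one_mul]
  refine (sq_le_sq₀ (norm_nonneg _) (norm_nonneg _)).1 ?_
  have h0 : ((1 : L2 I Γ →L[ℝ] L2 I Γ) - (ContinuousLinearMap.adjoint T).comp T) x =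
      x - ContinuousLinearMap.adjoint T (T x) := rfl
  rw [h0, norm_sub_sq_real, real_inner_comm, inner_TT, real_inner_self_eq_norm_sq]
  have hn' : ‖ContinuousLinearMap.adjoint T‖ ≤ 1 := by
    rw [LinearIsometryEquiv.norm_map]
    exact hn
  have h1 : ‖ContinuousLinearMap.adjoint T (T x)‖ ≤ ‖T x‖ := by
    have := (ContinuousLinearMap.adjoint T).le_of_opNorm_le hn' (T x)
    rwa [one_mul] at this
  have h2 : ‖ContinuousLinearMap.adjoint T (T x)‖ ^ 2 ≤ ‖T x‖ ^ 2 :=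
    pow_le_pow_left₀ (norm_nonneg _) h1 2
  nlinarith [sq_nonneg ‖T x‖]

omit [Group Γ] [Fintype I] in
private theorem fixed {T : L2 I Γ →L[ℝ] L2 I Γ} (x : L2 I Γ) :
    ((1 : L2 I Γ →L[ℝ] L2 I Γ) - (ContinuousLinearMap.adjoint T).comp T) x = x ↔ x ∈ kr T := by
  have h0 : ((1 : L2 I Γ →L[ℝ] L2 I Γ) - (ContinuousLinearMap.adjoint T).comp T) x =
      x - ContinuousLinearMap.adjoint T (T x) := rfl
  rw [h0, mem_kr, sub_eq_self]
  constructor
  · intro h
    have h1 := inner_TT (T := T) x x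
    rw [h, inner_zero_left, real_inner_self_eq_norm_sq] at h1
    exact norm_eq_zero.1 (pow_eq_zero_iff (two_ne_zero)|>.1 h1.symm)
  · intro h
    rw [h, map_zero]

omit [Fintype I] in
private theorem eqv_one : Eqv (1 : L2 I Γ →L[ℝ] L2 I Γ) := fun _ _ => rfl

omit [Fintype I] in
private theorem Eqv.sub' {S T : L2 I Γ →L[ℝ] L2 I Γ} (hS : Eqv S) (hT : Eqv T) : Eqv (S - T) := by
  intro g x
  rw [sub_apply, sub_apply, hS g x, hT g x, map_sub]

omit [Fintype I] in
private theorem Eqv.pow' {S : L2 I Γ →L[ℝ] L2 I Γ} (hS : Eqv S) (n : ℕ) : Eqv (S ^ n) := by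
  induction n with
  | zero => exact eqv_one
  | succ n ih =>
    rw [pow_succ]
    exact ih.comp hS

private theorem tr_pow {S T : L2 I Γ →L[ℝ] L2 I Γ} (hS : Eqv S) (hT : Eqv T) (n : ℕ) :
    tr ((1 - S.comp T) ^ n) = tr ((1 - T.comp S) ^ n) := by
  have hA : Eqv (1 - S.comp T) := eqv_one.sub' (hS.comp hT)
  have hcom : ∀ n : ℕ, T * (1 - S * T) ^ n = (1 - T * S) ^ n * T := by
    intro n
    induction n with
    | zero => rw [pow_zero, pow_zero, mul_one, one_mul]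
    | succ n ih =>
      rw [pow_succ, ← mul_assoc, ih, pow_succ, mul_assoc, mul_assoc, mul_sub, sub_mul, mul_one,
        one_mul, mul_assoc]
  induction n with
  | zero => rfl
  | succ n ih =>
    have h1 : (1 - S.comp T) ^ (n + 1) = (1 - S.comp T) ^ n - ((1 - S.comp T) ^ n * S).comp T := by
      have : (1 - S * T) ^ (n + 1) = (1 - S * T) ^ n - ((1 - S * T) ^ n * S) * T := by
        rw [pow_succ, mul_sub, mul_one, mul_assoc]
      exact this
    have h2 : (1 - T.comp S) ^ (n + 1) = (1 - T.comp S) ^ n - T.comp ((1 - S.comp T) ^ n * S) := by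
      have : (1 - T * S) ^ (n + 1) = (1 - T * S) ^ n - T * ((1 - S * T) ^ n * S) := by
        rw [pow_succ, mul_sub, mul_one, ← mul_assoc T, hcom n, mul_assoc]
      exact this
    have h3 : tr (((1 - S.comp T) ^ n * S).comp T) = tr (T.comp ((1 - S.comp T) ^ n * S)) :=
      tr_comm ((hA.pow' n).comp hS) hT
    rw [h1, h2, tr_sub, tr_sub, ih, h3]

private theorem dm_ker_aux {T : L2 I Γ →L[ℝ] L2 I Γ} (hT : Eqv T) (hn : ‖T‖ ≤ 1) :
    dm (kr T) = dm (im T ⊤)ᗮ := by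
  have hn' : ‖ContinuousLinearMap.adjoint T‖ ≤ 1 := by
    rw [LinearIsometryEquiv.norm_map]
    exact hn
  have hk : kr (ContinuousLinearMap.adjoint T) = (im T ⊤)ᗮ := by
    ext x
    rw [mem_kr, Submodule.mem_orthogonal']
    constructor
    · intro h z hz
      obtain ⟨y, -, rfl⟩ := mem_im.1 hz
      rw [← ContinuousLinearMap.adjoint_inner_left, h, inner_zero_left]
    · intro h
      have h1 := h (T (ContinuousLinearMap.adjoint T x)) (mem_im.2 ⟨_, Submodule.mem_top, rfl⟩)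
      rw [← ContinuousLinearMap.adjoint_inner_left, real_inner_self_eq_norm_sq] at h1
      exact norm_eq_zero.1 (pow_eq_zero_iff (two_ne_zero)|>.1 h1)
  have h1 := ergo_tr _ (contr hn) (kr T) fixed
  have h2 := ergo_tr _ (contr hn') (kr (ContinuousLinearMap.adjoint T)) fixed
  rw [ContinuousLinearMap.adjoint_adjoint, hk] at h2
  refine tendsto_nhds_unique h1 (h2.congr fun N => ?_)
  congr 1
  exact Finset.sum_congr rfl fun n _ => tr_pow hT (eqv_adj hT) n

theorem dm_ker {T : L2 I Γ →L[ℝ] L2 I Γ} (hT : Eqv T) : dm (kr T) = dm (im T ⊤)ᗮ := by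
  rcases eq_or_ne T 0 with rfl | h0
  · congr 1
    have h1 : kr (0 : L2 I Γ →L[ℝ] L2 I Γ) = ⊤ := by
      ext x
      rw [mem_kr]
      exact ⟨fun _ => Submodule.mem_top, fun _ => rfl⟩
    have h2 : im (0 : L2 I Γ →L[ℝ] L2 I Γ) ⊤ = ⊥ := by
      ext x
      rw [mem_im, Submodule.mem_bot]
      constructor
      · rintro ⟨y, -, rfl⟩
        rfl
      · rintro rfl
        exact ⟨0, Submodule.mem_top, rfl⟩
    rw [h1, h2, Submodule.bot_orthogonal_eq_top]
  · have hp : 0 < ‖T‖ := norm_pos_iff.2 h0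
    have hc : ‖T‖⁻¹ ≠ 0 := inv_ne_zero hp.ne'
    have hS : Eqv (‖T‖⁻¹ • T) := by
      intro g x
      rw [smul_apply, smul_apply, hT g x, map_smul]
    have hSn : ‖‖T‖⁻¹ • T‖ ≤ 1 := by
      rw [norm_smul, norm_inv, norm_norm, inv_mul_cancel₀ hp.ne']
    have h1 : kr (‖T‖⁻¹ • T) = kr T := by
      ext x
      rw [mem_kr, mem_kr, smul_apply, smul_eq_zero]
      exact ⟨fun h => h.resolve_left hc, Or.inr⟩
    have h2 : im (‖T‖⁻¹ • T) ⊤ = im T ⊤ := by
      ext y
      rw [mem_im, mem_im]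
      constructor
      · rintro ⟨x, -, rfl⟩
        exact ⟨‖T‖⁻¹ • x, Submodule.mem_top, by
          rw [map_smul, smul_apply]⟩
      · rintro ⟨x, -, rfl⟩
        exact ⟨‖T‖ • x, Submodule.mem_top, by
          rw [smul_apply, map_smul, smul_smul, inv_mul_cancel₀ hp.ne',
            one_smul]⟩
    have h3 := dm_ker_aux hS hSn
    rwa [h1, h2] at h3

end SCS
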