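import Pool.Agent.SNG.Core
import Pool.Agent.SNG.Coc

/-!
# Project SCS (architect helper40), module TBase: change of the vertex set and of the order

`exists_retr`: `e : V ↪ V'` preserves and reflects adjacency.  `φ (sm v) = sm (e v)` and
`ρ (sm (e v)) = sm v`, `ρ (sm u) = 1` for `u ∉ range e`: both are defined by the relations
(`SNG.exists_lift`: it suffices `p s * p s = 1` and `p s * p t = p t * p s` for adjacent `s, t`; look at its
statement in module Coc).  `ρ ∘ φ = id` on generators (`CoxeterSystem.ext_simple` or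
`MonoidHom.ext` on the subgroup generated by the generators).

`exists_eps`: for `x ≠ y` in `V` let `η x y = 1` if the orders of `x, y` and of `e x, e y` agree
(`x < y ↔ e x < e y`) and `-1` otherwise; `η x y = η y x`.
`ε T = ∏_{x ∈ T} ∏_{y ∈ T, x < y} η x y`.  For `s ∉ T`: `ε (insert s T) = ε T * ∏_{x ∈ T} η x s`, and
`sg (T.map e) (e s) * sg T s = ∏_{x ∈ T} (if e x < e s then -1 else 1) * (if x < s then -1 else 1)
= ∏_{x ∈ T} η x s`.  All factors are `± 1`, so `sg (T.map e) (e s) = sg T s * ∏ η x s
= sg T s * ε T * ε (insert s T)`.  (`sg T s = ∏_{x ∈ T} (if x < s then -1 else 1)`: `Finset.prod_ite`,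
`Finset.prod_const`.)
-/

namespace SCS

open SNG Finset

private theorem tb_ss {V : Type} (G : SimpleGraph V) (s : V) : sm G s * sm G s = 1 :=
  (raM G).toCoxeterSystem.simple_mul_simple_self s

private theorem tb_comm {V : Type} (G : SimpleGraph V) {s t : V} (h : G.Adj s t) :
    sm G s * sm G t = sm G t * sm G s := by
  classical
  have h1 := (raM G).toCoxeterSystem.simple_mul_simple_pow s t
  have h0 : (raM G : CoxeterMatrix V) s t = 2 := by
    change (open Classical in if s = t then 1 else if G.Adj s t then 2 else 0) = _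
    rw [if_neg (G.ne_of_adj h), if_pos h]
  rw [h0, pow_two] at h1
  have h2 := eq_inv_of_mul_eq_one_left h1
  change sm G s * sm G t = _
  rw [h2, mul_inv_rev, (raM G).toCoxeterSystem.inv_simple, (raM G).toCoxeterSystem.inv_simple]

theorem exists_retr {V V' : Type} {G : SimpleGraph V} {G' : SimpleGraph V'} (e : V ↪ V')
    (he : ∀ x y, G'.Adj (e x) (e y) ↔ G.Adj x y) :
    ∃ (φ : W G →* W G') (ρ : W G' →* W G), (∀ v, φ (sm G v) = sm G' (e v)) ∧
      (∀ v, ρ (sm G' (e v)) = sm G v) ∧ ∀ w, ρ (φ w) = w := by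
  classical
  obtain ⟨φ, hφ⟩ := exists_lift G (fun v => sm G' (e v)) (fun v => tb_ss G' _)
    (fun v w h => tb_comm G' ((he v w).2 h))
  obtain ⟨ρ, hρ⟩ := exists_lift G' (fun u => if h : ∃ v, e v = u then sm G h.choose else 1)
    (fun u => by
      split_ifs with h
      · exact tb_ss G _
      · exact one_mul 1)
    (fun u w h => by
      split_ifs with h1 h2 h2
      · refine tb_comm G ((he _ _).1 ?_)
        rw [h1.choose_spec, h2.choose_spec]
        exact h
      · rw [mul_one, one_mul]
      · rw [mul_one, one_mul]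
      · rfl)
  have hρ' : ∀ v, ρ (sm G' (e v)) = sm G v := by
    intro v
    rw [hρ (e v)]
    have h : ∃ w, e w = e v := ⟨v, rfl⟩
    rw [dif_pos h]
    have := e.injective h.choose_spec
    rw [this]
  refine ⟨φ, ρ, hφ, hρ', fun w => ?_⟩
  refine (raM G).toCoxeterSystem.simple_induction_left (p := fun w => ρ (φ w) = w) w ?_ ?_
  · rw [map_one, map_one]
  · intro u s hu
    rw [map_mul, map_mul, hu]
    have h1 := hφ s
    have h2 := hρ' s
    change ρ (φ (sm G s)) * u = sm G s * u
    rw [h1, h2]

private theorem tb_sg {V : Type} [LinearOrder V] (T : Finset V) (s : V) :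
    sg T s = ∏ x ∈ T, (if x < s then (-1 : ℝ) else 1) := by
  rw [Finset.prod_ite, Finset.prod_const, Finset.prod_const_one, mul_one]
  rfl

/-- The comparison of the two orders. -/
private noncomputable def tbEta {V V' : Type} [LinearOrder V] [LinearOrder V'] (e : V ↪ V')
    (x y : V) : ℝ := (if x < y then -1 else 1) * (if e x < e y then -1 else 1)

private theorem tbEta_sq {V V' : Type} [LinearOrder V] [LinearOrder V'] (e : V ↪ V')
    (x y : V) : tbEta e x y ^ 2 = 1 := by
  unfold tbEta
  split_ifs <;> norm_num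

private theorem tbEta_symm {V V' : Type} [LinearOrder V] [LinearOrder V'] (e : V ↪ V')
    {x y : V} (h : x ≠ y) : tbEta e x y = tbEta e y x := by
  unfold tbEta
  have h' : e x ≠ e y := fun hh => h (e.injective hh)
  rcases lt_or_gt_of_ne h with h1 | h1 <;> rcases lt_or_gt_of_ne h' with h2 | h2
  · rw [if_pos h1, if_pos h2, if_neg h1.not_gt, if_neg h2.not_gt]; norm_num
  · rw [if_pos h1, if_neg h2.not_gt, if_neg h1.not_gt, if_pos h2]; norm_num
  · rw [if_neg h1.not_gt, if_pos h2, if_pos h1, if_neg h2.not_gt]; norm_num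
  · rw [if_neg h1.not_gt, if_neg h2.not_gt, if_pos h1, if_pos h2]; norm_num

theorem exists_eps {V V' : Type} [LinearOrder V] [LinearOrder V'] (e : V ↪ V') :
    ∃ ε : Finset V → ℝ, (∀ T, ε T ^ 2 = 1) ∧
      ∀ T s, s ∉ T → sg (T.map e) (e s) = sg T s * ε T * ε (insert s T) := by
  classical
  set ε : Finset V → ℝ := fun T => ∏ x ∈ T, ∏ y ∈ T, (if x < y then tbEta e x y else 1) with hε
  have hsq : ∀ T, ε T ^ 2 = 1 := by
    intro T
    rw [hε]
    dsimp only
    rw [← Finset.prod_pow]
    refine Finset.prod_eq_one fun x _ => ?_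
    rw [← Finset.prod_pow]
    refine Finset.prod_eq_one fun y _ => ?_
    split_ifs
    · exact tbEta_sq e x y
    · norm_num
  refine ⟨ε, hsq, fun T s hs => ?_⟩
  have h1 : ε (insert s T) = ε T * ∏ x ∈ T, tbEta e x s := by
    rw [hε]
    dsimp only
    rw [Finset.prod_insert hs, Finset.prod_insert hs, if_neg (lt_irrefl s), one_mul]
    have h2 : ∀ x ∈ T, (∏ y ∈ insert s T, (if x < y then tbEta e x y else 1)) =
        (if x < s then tbEta e x s else 1) * ∏ y ∈ T, (if x < y then tbEta e x y else 1) :=
      fun x _ => Finset.prod_insert hs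
    rw [Finset.prod_congr rfl h2, Finset.prod_mul_distrib]
    have h3 : (∏ x ∈ T, tbEta e x s) = (∏ y ∈ T, (if s < y then tbEta e s y else 1)) *
        ∏ x ∈ T, (if x < s then tbEta e x s else 1) := by
      rw [← Finset.prod_mul_distrib]
      refine Finset.prod_congr rfl fun x hx => ?_
      have hxs : x ≠ s := fun h => hs (h ▸ hx)
      rcases lt_or_gt_of_ne hxs with h | h
      · rw [if_neg h.not_gt, if_pos h, one_mul]
      · rw [if_pos h, if_neg h.not_gt, mul_one]
        exact tbEta_symm e hxs
    rw [h3]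
    ring
  have h4 : sg (T.map e) (e s) = sg T s * ∏ x ∈ T, tbEta e x s := by
    rw [tb_sg, tb_sg, Finset.prod_map, ← Finset.prod_mul_distrib]
    refine Finset.prod_congr rfl fun x _ => ?_
    unfold tbEta
    split_ifs <;> norm_num
  rw [h4, h1]
  have h5 := hsq T
  calc sg T s * ∏ x ∈ T, tbEta e x s = sg T s * (ε T ^ 2) * ∏ x ∈ T, tbEta e x s := by
        rw [h5, mul_one]
    _ = _ := by ring

end SCS
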