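import Pool.Agent.SCS.Dim2

/-!
# Project SCS (architect helper40), module Tr: the trace property

`tr (S ∘ T) = tr (T ∘ S)` for equivariant bounded operators.  Proof.  With the adjoint `S†`:
`(S (T δ_i)) (i, 1) = ⟪S (T δ_i), δ_i⟫ = ⟪T δ_i, S† δ_i⟫ = ∑'_q (T δ_i) q * (S† δ_i) q` (`δ_i = dl i 1`,
`ell_inner`), and for `q = (j, g)`: `(S† δ_i) q = ⟪S† δ_i, dl j g⟫ = ⟪δ_i, S (dl j g)⟫
= (S (dl j g)) (i, 1) = (S (lam g (dl j 1))) (i, 1) = (lam g (S (dl j 1))) (i, 1) = (S (dl j 1)) (i, g⁻¹)`.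
So with `t i j g = (T (dl i 1)) (j, g)` and `s j i g = (S (dl j 1)) (i, g)`:
`tr (S ∘ T) = ∑_i ∑'_(j, g) t i j g * s j i g⁻¹ = ∑_i ∑_j ∑'_g t i j g * s j i g⁻¹`
(`Summable` from `ell_hasSum`; `I` is finite).  Interchanging the roles of `S, T` and `i, j` and
replacing `g` by `g⁻¹` (`Equiv.inv`) gives the claim.
-/

namespace SCS

open scoped InnerProductSpace

variable {I Γ : Type} [Group Γ] [Fintype I]

omit [Fintype I] in
private theorem tr_adj {S : L2 I Γ →L[ℝ] L2 I Γ} (hS : Eqv S) (i j : I) (g : Γ) :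
    (ContinuousLinearMap.adjoint S (dl i (1 : Γ))) (j, g) = (S (dl j (1 : Γ))) (i, g⁻¹) := by
  have h1 : ⟪ContinuousLinearMap.adjoint S (dl i (1 : Γ)), dl j g⟫_ℝ =
      ⟪dl i (1 : Γ), S (dl j g)⟫_ℝ := ContinuousLinearMap.adjoint_inner_left S _ _
  rw [inner_dl, dl_inner] at h1
  rw [h1]
  have h2 : dl j g = lam g (dl j (1 : Γ)) := by rw [lam_dl, mul_one]
  rw [h2, hS, lam_apply, mul_one]

omit [Fintype I] in
private theorem tr_hs {S T : L2 I Γ →L[ℝ] L2 I Γ} (hS : Eqv S) (i : I) :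
    HasSum (fun q : I × Γ => (T (dl i (1 : Γ))) q * (S (dl q.1 (1 : Γ))) (i, q.2⁻¹))
      ((S (T (dl i (1 : Γ)))) (i, 1)) := by
  have h1 : ⟪T (dl i (1 : Γ)), ContinuousLinearMap.adjoint S (dl i (1 : Γ))⟫_ℝ =
      ⟪S (T (dl i (1 : Γ))), dl i (1 : Γ)⟫_ℝ := ContinuousLinearMap.adjoint_inner_right S _ _
  rw [inner_dl] at h1
  rw [← h1]
  have h2 := ell_hasSum (T (dl i (1 : Γ))) (ContinuousLinearMap.adjoint S (dl i (1 : Γ)))
  have h3 : (fun q : I × Γ => (T (dl i (1 : Γ))) q * (S (dl q.1 (1 : Γ))) (i, q.2⁻¹)) =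
      fun q : I × Γ => (T (dl i (1 : Γ))) q *
        (ContinuousLinearMap.adjoint S (dl i (1 : Γ))) q := by
    funext q
    obtain ⟨j, g⟩ := q
    rw [tr_adj hS i j g]
  rw [h3]
  exact h2

private theorem tr_eq {S T : L2 I Γ →L[ℝ] L2 I Γ} (hS : Eqv S) :
    tr (S.comp T) = ∑ i, ∑ j, ∑' g : Γ, (T (dl i (1 : Γ))) (j, g) *
      (S (dl j (1 : Γ))) (i, g⁻¹) := by
  unfold tr
  refine Finset.sum_congr rfl fun i _ => ?_
  have h := tr_hs (T := T) hS i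
  rw [ContinuousLinearMap.comp_apply, ← h.tsum_eq, h.summable.tsum_prod, tsum_fintype]

theorem tr_comm {S T : L2 I Γ →L[ℝ] L2 I Γ} (hS : Eqv S) (hT : Eqv T) :
    tr (S.comp T) = tr (T.comp S) := by
  rw [tr_eq hS, tr_eq hT, Finset.sum_comm]
  refine Finset.sum_congr rfl fun i _ => Finset.sum_congr rfl fun j _ => ?_
  rw [← (Equiv.inv Γ).tsum_eq]
  refine tsum_congr fun g => ?_
  show (T (dl j (1 : Γ))) (i, g⁻¹) * (S (dl i (1 : Γ))) (j, g⁻¹⁻¹) =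
    (S (dl i (1 : Γ))) (j, g) * (T (dl j (1 : Γ))) (i, g⁻¹)
  rw [inv_inv, mul_comm]

end SCS
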