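import Pool.Agent.SCS.TBase
import Pool.Agent.SCS.ZDefs
import Pool.Agent.SCS.Chn3

/-!
# Project SCS (architect helper40), module Trans: from all chains on `V` to the chains on a subset of `V'`

`e : V ↪ V'` preserves and reflects adjacency, `S' = univ.map e`; `φ, ρ` from `exists_retr`, `ε` from
`exists_eps` (`ε T * ε T = 1`).

`van_to`.  Let `F ∈ HH G' S' j`, described by `mem_HH`.  Fix `g : W G'` and put
`f T w = ε T * F (T.map e, g * φ w)`.  `Harm G (sm G) j f`:
* supp: if `T` is not a clique with `j` elements, `T.map e` is not one.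
* alt: `φ (w * sm s) = φ w * sm (e s)`, `e s ∈ T.map e`.
* bd0: `bdry f T w = ∑_{s ∉ T} sg T s * ε (insert s T) * F (insert (e s) (T.map e), g * φ w)
  = ε T * ∑_{s ∉ T} sg (T.map e) (e s) * F (..)` (from `exists_eps`:
  `sg T s * ε (insert s T) = ε T * sg (T.map e) (e s)`), which is `ε T * bdry F (T.map e) (g * φ w) = 0`,
  because the other terms `u ∉ S'` of `bdry F (T.map e)` vanish (`insert u (T.map e)` is not contained
  in `S'`).
* cobd0 for a clique `T`: `s ∈ T`, `T' = T.erase s`: `sg T' s * ε T' = ε T * sg (T'.map e) (e s)`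
  (`insert s T' = T`), so `cobd f T w = ε T * cobd F (T.map e) (g * φ w) = 0` (`T.map e ⊆ S'` is a clique;
  the sum over `T.map e` is a sum over `T`, `Finset.sum_map`, `Finset.map_erase`).
* square summable: `w ↦ (T.map e, g * φ w)` is injective (`ρ ∘ φ = id`), `ell_summable F`.
So `f = 0`, and `F (T.map e, g) = ε T * f T 1 = 0`.  As `g` is arbitrary and `F (T', ·) = 0` for
`T' ⊄ S'`, while `T' ⊆ S'` implies `T' = T.map e` for some `T`, `F = 0`.
-/

namespace SCS

open SNG Finset

variable {V V' : Type} [Fintype V] [LinearOrder V] [Fintype V'] [LinearOrder V']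
  {G : SimpleGraph V} {G' : SimpleGraph V'}

theorem van_to (e : V ↪ V') (he : ∀ x y, G'.Adj (e x) (e y) ↔ G.Adj x y) (h : Van G) (j : ℕ) :
    HH G' (univ.map e) j = ⊥ := by
  obtain ⟨φ, ρ, hφ, hρ, hρφ⟩ := exists_retr e he
  obtain ⟨ε, hε, hεs⟩ := exists_eps e
  rw [eq_bot_iff]
  intro F hF
  rw [mem_HH] at hF
  obtain ⟨hFC, hFb, hFc⟩ := hF
  rw [mem_CC] at hFC
  obtain ⟨hFs, hFa⟩ := hFC
  have clq : ∀ T : Finset V, G'.IsClique ((T.map e : Finset V') : Set V') ↔
      G.IsClique (T : Set V) := by
    intro T
    constructor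
    · intro h1 x hx y hy hxy
      rw [← he]
      exact h1 (mem_coe.2 (mem_map_of_mem e (mem_coe.1 hx)))
        (mem_coe.2 (mem_map_of_mem e (mem_coe.1 hy))) fun h2 => hxy (e.injective h2)
    · intro h1 x hx y hy hxy
      obtain ⟨a, ha, rfl⟩ := mem_map.1 (mem_coe.1 hx)
      obtain ⟨b, hb, rfl⟩ := mem_map.1 (mem_coe.1 hy)
      rw [he]
      exact h1 (mem_coe.2 ha) (mem_coe.2 hb) fun h2 => hxy (by rw [h2])
  have hε1 : ∀ T, ε T * ε T = 1 := fun T => by rw [← sq, hε]
  have key : ∀ g : W G', ∀ T w, ε T * F (T.map e, g * φ w) = 0 := by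
    intro g
    have h0 : (fun (T : Finset V) (w : W G) => ε T * F (T.map e, g * φ w)) = 0 := by
      refine h j _ ⟨?_, ?_, ?_, ?_⟩ ?_
      · intro T hT w
        rw [hFs, mul_zero]
        rintro ⟨_, h2, h3⟩
        exact hT ⟨(clq T).1 h2, by rwa [card_map] at h3⟩
      · intro T s hs w
        rw [map_mul, hφ, ← mul_assoc g, hFa _ _ (mem_map_of_mem e hs)]
        ring
      · intro T w
        have h1 := hFb (T.map e) (g * φ w)
        unfold bdry at h1 ⊢
        have h2 : ∑ u ∈ (T.map e)ᶜ, sg (T.map e) u * F (insert u (T.map e), g * φ w) =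
            ∑ u ∈ Tᶜ.map e, sg (T.map e) u * F (insert u (T.map e), g * φ w) := by
          symm
          refine sum_subset ?_ ?_
          · intro u hu
            obtain ⟨a, ha, rfl⟩ := mem_map.1 hu
            rw [mem_compl] at ha ⊢
            rwa [mem_map']
          · intro u hu hu2
            rw [hFs, mul_zero]
            rintro ⟨h3, _, _⟩
            have h4 := h3 (mem_insert_self _ _)
            obtain ⟨a, _, rfl⟩ := mem_map.1 h4
            rw [mem_compl, mem_map'] at hu
            exact hu2 (mem_map_of_mem e (mem_compl.2 hu))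
        change ∑ u ∈ (T.map e)ᶜ, sg (T.map e) u * F (insert u (T.map e), g * φ w) = 0 at h1
        rw [h2, sum_map] at h1
        have h3 : ∑ s ∈ Tᶜ, sg T s * (ε (insert s T) * F ((insert s T).map e, g * φ w)) =
            ε T * ∑ s ∈ Tᶜ, sg (T.map e) (e s) * F (insert (e s) (T.map e), g * φ w) := by
          rw [mul_sum]
          refine sum_congr rfl fun s hs => ?_
          rw [hεs T s (mem_compl.1 hs), map_insert]
          linear_combination (- sg T s * ε (insert s T) *
            F (insert (e s) (T.map e), g * φ w)) * hε1 T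
        exact h3.trans (by rw [h1, mul_zero])
      · intro T hT w
        have hTS : T.map e ⊆ univ.map e := map_subset_map.2 (subset_univ T)
        have h1 := hFc (T.map e) hTS ((clq T).2 hT) (g * φ w)
        unfold cobd at h1 ⊢
        rw [sum_map] at h1
        have h3 : ∑ s ∈ T, sg (T.erase s) s * (ε (T.erase s) * F ((T.erase s).map e, g * φ w) -
              ε (T.erase s) * F ((T.erase s).map e, g * φ (w * sm G s))) =
            ε T * ∑ s ∈ T, sg ((T.map e).erase (e s)) (e s) *
              (F ((T.map e).erase (e s), g * φ w) -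
                F ((T.map e).erase (e s), g * φ w * sm G' (e s))) := by
          rw [mul_sum]
          refine sum_congr rfl fun s hs => ?_
          rw [← map_erase, hεs (T.erase s) s (notMem_erase s T), insert_erase hs, map_mul, hφ,
            ← mul_assoc g]
          linear_combination (- sg (T.erase s) s * ε (T.erase s) *
            (F ((T.erase s).map e, g * φ w) - F ((T.erase s).map e, g * φ w * sm G' (e s)))) *
              hε1 T
        exact h3.trans (by rw [h1, mul_zero])
      · intro T
        have h1 := ell_summable F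
        have hi : Function.Injective fun w : W G => ((T.map e, g * φ w) : Finset V' × W G') := by
          intro a b hab
          have h2 : g * φ a = g * φ b := congrArg Prod.snd hab
          have h3 := mul_left_cancel h2
          have h4 := congrArg ρ h3
          rwa [hρφ, hρφ] at h4
        have h2 := h1.comp_injective hi
        refine h2.congr fun w => ?_
        change F (T.map e, g * φ w) ^ 2 = (ε T * F (T.map e, g * φ w)) ^ 2
        rw [mul_pow, hε, one_mul]
    intro T w
    exact congrFun (congrFun h0 T) w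
  refine (Submodule.mem_bot ℝ).2 (ell_ext ?_)
  rintro ⟨T', g⟩
  rw [ell_zero]
  by_cases hT : T' ⊆ univ.map e
  · obtain ⟨T, _, rfl⟩ := subset_map_iff.1 hT
    have h1 := key g T 1
    rw [map_one, mul_one] at h1
    have h2 : ε T ≠ 0 := fun h3 => by
      have := hε1 T
      rw [h3, mul_zero] at this
      exact zero_ne_one this
    exact (mul_eq_zero.1 h1).resolve_left h2
  · exact hFs T' (fun h1 => hT h1.1) g

end SCS
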